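import Pool.Agent.LHF.Trick

set_option autoImplicit false
set_option linter.unusedSectionVars false
set_option linter.unusedVariables false
set_option linter.style.haveILetI false

namespace Pool.Agent.LHF

variable {G : Type*} [Group G] {ι : Type*} [Fintype ι] [Nonempty ι]

/-- all lower central terms of finite-index subgroups are finitely generated -/
theorem lcs_fg_of_finHF {σ : ι → G} (hFin : FinHF σ) {τ : ι ≃ ι}
    (hτ : ∀ j, σ (τ j) = (σ j)⁻¹) {i0 : ι}
    (hi0 : σ i0 = 1) (hgen : ∀ g : G, ∃ l : List ι, wprod σ l = g)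
    {H : Subgroup G} (hH : H.FiniteIndex) (k : ℕ) :
    (H.lowerCentralSeries k).FG := by
  haveI := hH
  haveI hG : Group.FG G := by
    rw [Group.fg_iff]
    refine ⟨Set.range σ, ?_, Set.finite_range σ⟩
    rw [eq_top_iff]
    intro g _
    obtain ⟨l, rfl⟩ := hgen g
    induction l with
    | nil => exact Subgroup.one_mem _
    | cons j l ih =>
      rw [wprod_cons]
      exact Subgroup.mul_mem _ (Subgroup.subset_closure ⟨j, rfl⟩) (ih trivial)
  have hHfg : H.FG := (Group.fg_iff_subgroup_fg H).mp inferInstance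
  rcases Nat.eq_zero_or_pos k with rfl | hk
  · exact hHfg
  · apply lcs_fg H ?_ k hk
    have hle : H.lowerCentralSeries 1 ≤ H := H.lowerCentralSeries_le_self 1
    apply bns hHfg hle
    · exact le_rfl
    · intro χ hχ hker hne
      obtain ⟨T', hT'f, hT'P, D, hD⟩ := good_of_finHF hFin hτ hi0 hgen hH hχ hne
      refine ⟨T', hT'f, hT'P, D, fun p hp => ?_⟩
      have hp' : p ∈ H.lowerCentralSeries 1 := hp
      exact hD p ⟨hle hp', hker p hp'⟩

/-- An affine action on `ℂ` of a finite-index subgroup with non-unitary linear part and a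
non-trivial translation contradicts finite-dimensionality. -/
theorem not_affine {σ : ι → G} (hFin : FinHF σ) {τ : ι ≃ ι}
    (hτ : ∀ j, σ (τ j) = (σ j)⁻¹) {i0 : ι}
    (hi0 : σ i0 = 1) (hgen : ∀ g : G, ∃ l : List ι, wprod σ l = g)
    {H : Subgroup G} (hH : H.FiniteIndex) {lam b : G → ℂ}
    (hlam : ∀ g ∈ H, ∀ h ∈ H, lam (g * h) = lam g * lam h) (hlam0 : ∀ g ∈ H, lam g ≠ 0)
    (hb : ∀ g ∈ H, ∀ h ∈ H, b (g * h) = b g + lam g * b h)
    {p t : G} (hp : p ∈ H) (hp1 : lam p = 1) (hbp : b p ≠ 0) (ht : t ∈ H)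
    (ht1 : ‖lam t‖ ≠ 1) : False := by
  classical
  have hone : lam 1 = 1 := by
    have h1 := hlam 1 H.one_mem 1 H.one_mem
    rw [mul_one] at h1
    have h2 := hlam0 1 H.one_mem
    field_simp at h1
    exact h1.symm
  -- WLOG ‖lam t‖ < 1
  obtain ⟨t, ht, htlt⟩ : ∃ t ∈ H, ‖lam t‖ < 1 := by
    rcases lt_or_gt_of_ne ht1 with hlt | hgt
    · exact ⟨t, ht, hlt⟩
    · refine ⟨t⁻¹, H.inv_mem ht, ?_⟩
      have h1 := hlam t ht t⁻¹ (H.inv_mem ht)
      rw [mul_inv_cancel, hone] at h1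
      have h2 : ‖lam t‖ * ‖lam t⁻¹‖ = 1 := by rw [← norm_mul, ← h1, norm_one]
      have h3 : 0 ≤ ‖lam t⁻¹‖ := norm_nonneg _
      by_contra hcon
      push Not at hcon
      nlinarith
  set χ : G → ℝ := fun g => - Real.log ‖lam g‖ with hχdef
  have hχ : ∀ a ∈ H, ∀ b ∈ H, χ (a * b) = χ a + χ b := by
    intro a ha b hb
    simp only [hχdef]
    rw [hlam a ha b hb, norm_mul, Real.log_mul (norm_ne_zero_iff.mpr (hlam0 a ha))
      (norm_ne_zero_iff.mpr (hlam0 b hb))]
    ring
  have hχexp : ∀ g ∈ H, Real.exp (-χ g) = ‖lam g‖ := by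
    intro g hg
    simp only [hχdef, neg_neg]
    exact Real.exp_log (norm_pos_iff.mpr (hlam0 g hg))
  obtain ⟨h, hharm, hres, heq⟩ := exists_harmonic_extension hτ hgen hH χ hχ
  have htpos : 0 < h t := by
    rw [hres t ht]
    simp only [hχdef]
    have := Real.log_neg (norm_pos_iff.mpr (hlam0 t ht)) htlt
    linarith
  obtain ⟨Rp, hRp⟩ := exists_reps H hH
  have hdec : ∀ x : G, ∃ g ∈ H, ∃ r ∈ insert 1 Rp, x = g * r ∧ (x ∈ H → r = 1) := by
    intro x
    by_cases hx : x ∈ H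
    · exact ⟨x, hx, 1, Finset.mem_insert_self _ _, by simp, fun _ => rfl⟩
    · obtain ⟨g, hg, r, hr, h1⟩ := hRp x
      exact ⟨g, hg, r, Finset.mem_insert_of_mem hr, h1, fun h => absurd h hx⟩
  choose g hg r hr hgr hr1 using hdec
  have hgH : ∀ x ∈ H, g x = x := by
    intro x hx
    have := hgr x
    rw [hr1 x hx, mul_one] at this
    exact this.symm
  -- bounds
  set B := ∑ r ∈ insert 1 Rp, |h r| with hB
  have hBr : ∀ x, |h (r x)| ≤ B := fun x =>
    Finset.single_le_sum (f := fun r => |h r|) (fun _ _ => abs_nonneg _) (hr x)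
  set C1 := ∑ w ∈ ((insert 1 Rp) ×ˢ (insert 1 Rp)) ×ˢ (Finset.univ : Finset ι),
    ‖b (w.1.1 * σ w.2 * w.1.2⁻¹)‖ with hC1
  have hC1b : ∀ x j, ‖b (r x * σ j * (r (x * σ j))⁻¹)‖ ≤ C1 := by
    intro x j
    refine Finset.single_le_sum (f := fun w : (G × G) × ι => ‖b (w.1.1 * σ w.2 * w.1.2⁻¹)‖)
      (fun _ _ => norm_nonneg _) (a := ((r x, r (x * σ j)), j)) ?_
    simp only [Finset.mem_product, Finset.mem_univ, and_true]
    exact ⟨hr _, hr _⟩
  have hstep : ∀ x j, ‖b (g (x * σ j)) - b (g x)‖ ≤ C1 * Real.exp B * Real.exp (-h x) := by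
    intro x j
    have e1 : g (x * σ j) = g x * (r x * σ j * (r (x * σ j))⁻¹) := by
      have h1 := hgr x
      have h2 := hgr (x * σ j)
      have h3 : g (x * σ j) = x * σ j * (r (x * σ j))⁻¹ := by
        rw [eq_mul_inv_iff_mul_eq]; exact h2.symm
      rw [h3]
      conv_lhs => rw [h1]
      group
      rw [← h1]
    have hs : r x * σ j * (r (x * σ j))⁻¹ ∈ H := by
      have : r x * σ j * (r (x * σ j))⁻¹ = (g x)⁻¹ * g (x * σ j) := by
        rw [e1]; group
      rw [this]; exact H.mul_mem (H.inv_mem (hg x)) (hg _)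
    rw [e1, hb _ (hg x) _ hs, add_sub_cancel_left, norm_mul, ← hχexp _ (hg x),
      ← hres _ (hg x)]
    have h4 : h x = h (g x) + h (r x) := by
      conv_lhs => rw [hgr x]
      rw [heq _ (hg x)]
    have h5 : Real.exp (-h (g x)) ≤ Real.exp B * Real.exp (-h x) := by
      rw [← Real.exp_add]
      apply Real.exp_le_exp.mpr
      have := (abs_le.mp (hBr x)).2
      linarith
    have h6 := hC1b x j
    have h7 : 0 ≤ C1 := (norm_nonneg _).trans h6
    calc Real.exp (-h (g x)) * ‖b (r x * σ j * (r (x * σ j))⁻¹)‖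
        ≤ (Real.exp B * Real.exp (-h x)) * C1 := by gcongr
      _ = _ := by ring
  have hpath : ∀ (l : List ι) (x : G), ‖b (g (x * wprod σ l)) - b (g x)‖ ≤
      C1 * Real.exp B * pcost σ h x l := by
    intro l
    induction l with
    | nil => intro x; simp
    | cons j l ih =>
      intro x
      have h1 := ih (x * σ j)
      have h2 := hstep x j
      rw [wprod_cons, ← mul_assoc, pcost_cons]
      calc ‖b (g (x * σ j * wprod σ l)) - b (g x)‖
          = ‖(b (g (x * σ j * wprod σ l)) - b (g (x * σ j))) + (b (g (x * σ j)) - b (g x))‖ := by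
            congr 1; ring
        _ ≤ _ := norm_add_le _ _
        _ ≤ _ := add_le_add h1 h2
        _ = _ := by ring
  have hC1nn : 0 ≤ C1 := Finset.sum_nonneg fun _ _ => norm_nonneg _
  have hbp' : 0 < ‖b p‖ := norm_pos_iff.mpr hbp
  refine theoremU hτ hi0 hgen hH hharm heq ht hp htpos
    (c := ‖b p‖ / (C1 * Real.exp B + 1)) (by positivity) ?_ hFin
  intro k l hl
  have h1 := hpath l (t ^ k)
  have htk := H.pow_mem ht k
  rw [hl, hgH _ (H.mul_mem hp htk), hgH _ htk, hb p hp _ htk, hp1, one_mul,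
    add_sub_cancel_right] at h1
  have h2 := pcost_nonneg σ h (t ^ k) l
  rw [div_le_iff₀ (by positivity)]
  nlinarith

end Pool.Agent.LHF
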