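import Pool.Agent.LHF.Conn

set_option autoImplicit false
set_option linter.unusedSectionVars false
set_option linter.unusedVariables false
set_option linter.style.haveILetI false

namespace Pool.Agent.LHF

variable {G : Type*} [Group G]

lemma Conn.finite_support {T A : Set G} {x y : G} (h : Conn T A x y) :
    ∃ F : Set G, F.Finite ∧ F ⊆ A ∧ Conn T F x y := by
  induction h with
  | refl => exact ⟨∅, Set.finite_empty, Set.empty_subset _, Conn.refl _⟩
  | tail _ h2 ih =>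
    rename_i b c _
    obtain ⟨F, hF, hFA, hc⟩ := ih
    refine ⟨F ∪ {b, c}, hF.union (by simp), ?_, ?_⟩
    · apply Set.union_subset hFA
      rintro z (rfl | rfl)
      · exact h2.1
      · exact h2.2.1
    · exact (hc.mono Set.subset_union_left).trans
        (Conn.single (by simp) (by simp) h2.2.2)

lemma Conn.mem_left_of_ne {T A : Set G} {x y : G} (h : Conn T A x y) (hxy : x ≠ y) : x ∈ A := by
  induction h using Relation.ReflTransGen.head_induction_on with
  | refl => exact absurd rfl hxy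
  | head h1 _ _ => exact h1.1

/-- generation in terms of `Conn` -/
lemma conn_of_closure {P : Subgroup G} {T : Set G} (hsym : ∀ s ∈ T, s⁻¹ ∈ T)
    (hcl : Subgroup.closure T = P) {x y : G} (hx : x ∈ P) (hy : y ∈ P) : Conn T P x y := by
  have hTP : T ⊆ P := by rw [← hcl]; exact Subgroup.subset_closure
  have key : ∀ g ∈ Subgroup.closure T, ∀ x ∈ P, Conn T P x (x * g) := by
    intro g hg
    induction hg using Subgroup.closure_induction with
    | mem s hs => intro x hx; exact Conn.step hx hs (P.mul_mem hx (hTP hs))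
    | one => intro x _; rw [mul_one]; exact Conn.refl x
    | mul a b ha hb iha ihb =>
      intro x hx
      rw [← mul_assoc]
      exact (iha x hx).trans (ihb _ (P.mul_mem hx (by rw [← hcl]; exact ha)))
    | inv a ha iha =>
      intro x hx
      have := iha (x * a⁻¹) (P.mul_mem hx (P.inv_mem (by rw [← hcl]; exact ha)))
      rw [inv_mul_cancel_right] at this
      exact this.symm hsym
  have := key (x⁻¹ * y) (by rw [hcl]; exact P.mul_mem (P.inv_mem hx) hy) x hx
  rwa [mul_inv_cancel_left] at this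

/-- change of generating set in `Good` -/
lemma Good.change {P : Subgroup G} {χ : G → ℝ} {K : Set G} (hg : Good P χ K)
    (hχ : ∀ a ∈ P, ∀ b ∈ P, χ (a * b) = χ a + χ b)
    {T : Set G} (hsym : ∀ s ∈ T, s⁻¹ ∈ T) (hcl : Subgroup.closure T = P) :
    ∃ D : ℝ, 0 ≤ D ∧ ∀ p ∈ K, Conn T {z | z ∈ P ∧ -D ≤ χ z} 1 p := by
  obtain ⟨T', hT'f, hT'P, D, hD⟩ := hg
  -- paths for the letters of T'
  have h1 : ∀ s ∈ T', ∃ D' : ℝ, 0 ≤ D' ∧ Conn T {z | z ∈ P ∧ -D' ≤ χ z} 1 s := by
    intro s hs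
    obtain ⟨F, hF, hFP, hc⟩ := (conn_of_closure hsym hcl P.one_mem (hT'P hs)).finite_support
    obtain ⟨b, hb⟩ := (hF.image χ).bddBelow
    refine ⟨|b|, abs_nonneg _, hc.mono fun z hz => ⟨hFP hz, ?_⟩⟩
    have := hb (Set.mem_image_of_mem χ hz)
    have := neg_abs_le b
    linarith
  have h2 : ∃ D' : ℝ, 0 ≤ D' ∧ ∀ s ∈ T', Conn T {z | z ∈ P ∧ -D' ≤ χ z} 1 s := by
    choose! f hf0 hf using h1
    obtain ⟨b, hb⟩ := (hT'f.image f).bddAbove
    refine ⟨|b|, abs_nonneg _, fun s hs => (hf s hs).mono fun z hz => ⟨hz.1, ?_⟩⟩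
    have h3 := hb (Set.mem_image_of_mem f hs)
    have h4 := le_abs_self b
    have h5 := hz.2
    linarith
  obtain ⟨D', hD'0, hD'⟩ := h2
  refine ⟨|D| + D', by positivity, fun p hp => ?_⟩
  refine (hD p hp).change ?_
  rintro x ⟨hx, hxD⟩ s hs -
  have h3 := (hD' s hs).translate (A' := {z | z ∈ P ∧ -(|D| + D') ≤ χ z}) x (by
    rintro z ⟨hz, hzD⟩
    refine ⟨P.mul_mem hx hz, ?_⟩
    rw [hχ x hx z hz]
    have := le_abs_self D
    linarith)
  rwa [mul_one] at h3

section core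
variable {E : Type*} [NormedAddCommGroup E] [InnerProductSpace ℝ E] [FiniteDimensional ℝ E]
variable {P : Subgroup G} {T : Set G} (hTfin : T.Finite) (hsym : ∀ s ∈ T, s⁻¹ ∈ T)
  (hcl : Subgroup.closure T = P) {π : G → E} (hπ : ∀ a ∈ P, ∀ b ∈ P, π (a * b) = π a + π b)

include hπ in
lemma pi_one : π 1 = 0 := by
  have := hπ 1 P.one_mem 1 P.one_mem
  rw [mul_one] at this
  simpa using this

include hπ in
lemma pi_inv {a : G} (ha : a ∈ P) : π a⁻¹ = - π a := by
  have := hπ a ha a⁻¹ (P.inv_mem ha)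
  rw [mul_inv_cancel, pi_one hπ] at this
  exact eq_neg_of_add_eq_zero_right this.symm

include hπ in
lemma pi_pow {a : G} (ha : a ∈ P) (n : ℕ) : π (a ^ n) = n • π a := by
  induction n with
  | zero => simp [pi_one hπ]
  | succ n ih =>
    rw [pow_succ, hπ _ (P.pow_mem ha n) a ha, ih, succ_nsmul]

/-- data for pushing in a direction `θ` -/
structure Push (P : Subgroup G) (T : Set G) (π : G → E) (θ : E) (τ : G) (k : ℕ) (F : Set G)
    (δ : ℝ) : Prop where
  hτ : τ ∈ T
  hk : 1 ≤ k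
  hF : F.Finite
  hFP : F ⊆ P
  hδ : 0 < δ
  hneg : ∀ g ∈ F, inner ℝ θ (π g) < -δ
  hpow : ∀ l : ℕ, 1 ≤ l → l ≤ k → τ ^ l ∈ F
  hconn : ∀ s ∈ T, Conn T F (τ ^ k) (s * τ ^ k)

include hTfin hsym hcl hπ in
lemma exists_push (θ : E) (hspan : ∃ t ∈ P, inner ℝ θ (π t) ≠ (0 : ℝ))
    (hgood : Good P (fun x => -(inner ℝ θ (π x) : ℝ)) {p | p ∈ ⁅P, P⁆}) :
    ∃ τ k F δ, Push P T π θ τ k F δ := by
  classical
  have hTP : T ⊆ P := by rw [← hcl]; exact Subgroup.subset_closure
  set χ : G → ℝ := fun x => -(inner ℝ θ (π x) : ℝ) with hχdef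
  have hχ : ∀ a ∈ P, ∀ b ∈ P, χ (a * b) = χ a + χ b := by
    intro a ha b hb
    simp only [hχdef]
    rw [hπ a ha b hb, inner_add_right]; ring
  obtain ⟨D, hD0, hD⟩ := hgood.change hχ hsym hcl
  -- a letter of positive height
  obtain ⟨τ, hτT, hτ⟩ : ∃ τ ∈ T, 0 < χ τ := by
    by_contra hcon
    push Not at hcon
    have h0 : ∀ s ∈ T, χ s = 0 := by
      intro s hs
      apply le_antisymm (hcon s hs)
      have h1 := hcon s⁻¹ (hsym s hs)
      have h2 : χ s⁻¹ = - χ s := by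
        simp only [hχdef]; rw [pi_inv hπ (hTP hs), inner_neg_right]
      linarith
    obtain ⟨t, ht, hne⟩ := hspan
    apply hne
    have key : ∀ g ∈ Subgroup.closure T, χ g = 0 := by
      intro g hg
      induction hg using Subgroup.closure_induction with
      | mem s hs => exact h0 s hs
      | one => simp only [hχdef]; rw [pi_one hπ]; simp
      | mul a b ha hb iha ihb =>
        rw [hχ a (by rw [← hcl]; exact ha) b (by rw [← hcl]; exact hb), iha, ihb, add_zero]
      | inv a ha iha =>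
        simp only [hχdef] at iha ⊢
        rw [pi_inv hπ (by rw [← hcl]; exact ha), inner_neg_right]; linarith
    have := key t (by rw [hcl]; exact ht)
    simp only [hχdef] at this
    linarith
  have hτP : τ ∈ P := hTP hτT
  have hχpow : ∀ l : ℕ, χ (τ ^ l) = l * χ τ := by
    intro l
    simp only [hχdef]
    rw [pi_pow hπ hτP, ← Nat.cast_smul_eq_nsmul ℝ, inner_smul_right]; ring
  -- bound on letters
  obtain ⟨b, hb0, hb⟩ : ∃ b : ℝ, 0 ≤ b ∧ ∀ s ∈ T, -b ≤ χ s := by
    obtain ⟨b, hb⟩ := (hTfin.image χ).bddBelow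
    refine ⟨|b|, abs_nonneg _, fun s hs => ?_⟩
    have := hb (Set.mem_image_of_mem χ hs)
    have := neg_abs_le b
    linarith
  obtain ⟨k, hk⟩ := exists_nat_gt ((D + b + 1) / χ τ)
  rw [div_lt_iff₀ hτ] at hk
  have hk1 : 1 ≤ k := by
    rcases Nat.eq_zero_or_pos k with h | h
    · subst h; simp at hk; linarith
    · exact h
  have hpath : ∀ s ∈ T, Conn T {z | z ∈ P ∧ 1 < χ z} (τ ^ k) (s * τ ^ k) := by
    intro s hs
    have hsP := hTP hs
    have htP : τ ^ k ∈ P := P.pow_mem hτP k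
    have hc : s⁻¹ * (τ ^ k)⁻¹ * s * τ ^ k ∈ ⁅P, P⁆ := by
      have := Subgroup.commutator_mem_commutator (P.inv_mem hsP) (P.inv_mem htP)
      simpa [commutatorElement_def] using this
    have h1 := hD _ hc
    have h2 : χ (τ ^ k * s) = k * χ τ + χ s := by rw [hχ _ htP s hsP, hχpow]
    have h3 := hb s hs
    have h4 := h1.translate (A' := {z | z ∈ P ∧ 1 < χ z}) (τ ^ k * s) (by
      rintro z ⟨hz, hzD⟩
      refine ⟨P.mul_mem (P.mul_mem htP hsP) hz, ?_⟩
      rw [hχ _ (P.mul_mem htP hsP) z hz, h2]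
      linarith)
    rw [mul_one] at h4
    have e1 : τ ^ k * s * (s⁻¹ * (τ ^ k)⁻¹ * s * τ ^ k) = s * τ ^ k := by group
    rw [e1] at h4
    refine Conn.trans (Conn.step ⟨htP, ?_⟩ hs ⟨P.mul_mem htP hsP, ?_⟩) h4
    · rw [hχpow]; linarith
    · rw [h2]; linarith
  have hpath' : ∃ F : G → Set G, ∀ s ∈ T, (F s).Finite ∧ F s ⊆ {z | z ∈ P ∧ 1 < χ z} ∧
      Conn T (F s) (τ ^ k) (s * τ ^ k) := by
    have : ∀ s : G, ∃ F : Set G, s ∈ T → F.Finite ∧ F ⊆ {z | z ∈ P ∧ 1 < χ z} ∧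
        Conn T F (τ ^ k) (s * τ ^ k) := by
      intro s
      by_cases hs : s ∈ T
      · obtain ⟨F, h1, h2, h3⟩ := (hpath s hs).finite_support
        exact ⟨F, fun _ => ⟨h1, h2, h3⟩⟩
      · exact ⟨∅, fun h => absurd h hs⟩
    choose F hF using this
    exact ⟨F, hF⟩
  obtain ⟨F, hF⟩ := hpath'
  have hmin : 0 < min 1 (χ τ) := lt_min one_pos hτ
  refine ⟨τ, k, (⋃ s ∈ T, F s) ∪ (fun l : ℕ => τ ^ l) '' {l | 1 ≤ l ∧ l ≤ k},
    min 1 (χ τ) / 2, hτT, hk1, ?_, ?_, by positivity, ?_, ?_, ?_⟩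
  · apply Set.Finite.union
    · exact hTfin.biUnion fun s hs => (hF s hs).1
    · apply Set.Finite.image
      exact (Set.finite_Icc 1 k).subset fun l hl => hl
  · rintro z (hz | ⟨l, -, rfl⟩)
    · simp only [Set.mem_iUnion] at hz
      obtain ⟨s, hs, hz⟩ := hz
      exact ((hF s hs).2.1 hz).1
    · exact P.pow_mem hτP l
  · rintro z (hz | ⟨l, ⟨hl1, -⟩, rfl⟩)
    · simp only [Set.mem_iUnion] at hz
      obtain ⟨s, hs, hz⟩ := hz
      have h1 := ((hF s hs).2.1 hz).2
      simp only [hχdef] at h1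
      have h2 := min_le_left 1 (χ τ)
      linarith
    · have h1 := hχpow l
      have h2 : (1 : ℝ) ≤ l := by exact_mod_cast hl1
      have h3 := min_le_right 1 (χ τ)
      simp only [hχdef] at h1 h3 hτ hmin ⊢
      nlinarith
  · intro l hl1 hlk
    exact Or.inr ⟨l, ⟨hl1, hlk⟩, rfl⟩
  · intro s hs
    refine (hF s hs).2.2.mono ?_
    refine Set.subset_union_of_subset_left ?_ _
    exact Set.subset_biUnion_of_mem (u := F) hs

lemma exists_pos_le {α : Type*} (t : Finset α) (δ : α → ℝ) (h : ∀ i ∈ t, 0 < δ i) :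
    ∃ δ0 : ℝ, 0 < δ0 ∧ ∀ i ∈ t, δ0 ≤ δ i := by
  classical
  induction t using Finset.induction_on with
  | empty => exact ⟨1, one_pos, by simp⟩
  | insert a s ha ih =>
    obtain ⟨δ0, h0, h1⟩ := ih fun i hi => h i (Finset.mem_insert_of_mem hi)
    refine ⟨min δ0 (δ a), lt_min h0 (h a (Finset.mem_insert_self _ _)), fun i hi => ?_⟩
    rcases Finset.mem_insert.mp hi with rfl | hi
    · exact min_le_right _ _
    · exact (min_le_left _ _).trans (h1 i hi)

include hTfin hsym hcl hπ in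
theorem bns_connected {q : G → ℕ} (hq : ∀ x ∈ P, ‖π x‖ ^ 2 = q x)
    (hpush : ∀ θ : E, ‖θ‖ = 1 → ∃ τ k F δ, Push P T π θ τ k F δ) :
    ∃ m0 : ℕ, ∀ p ∈ P, π p = 0 → Conn T {x | x ∈ P ∧ q x ≤ m0} 1 p := by
  classical
  have hTP : T ⊆ P := by rw [← hcl]; exact Subgroup.subset_closure
  have hpush' : ∀ θ : E, ∃ τ k F δ, ‖θ‖ = 1 → Push P T π θ τ k F δ := by
    intro θ
    by_cases h : ‖θ‖ = 1
    · obtain ⟨τ, k, F, δ, hp⟩ := hpush θ h
      exact ⟨τ, k, F, δ, fun _ => hp⟩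
    · exact ⟨1, 0, ∅, 0, fun h' => absurd h' h⟩
  choose τ k F δ hP using hpush'
  set U : E → Set E := fun θ => {θ' | ∀ g ∈ F θ, inner ℝ θ' (π g) < -δ θ} with hU
  have hUn : ∀ θ ∈ Metric.sphere (0 : E) 1, U θ ∈ nhds θ := by
    intro θ hθ
    have h1 : ‖θ‖ = 1 := by simpa using hθ
    have hp := hP θ h1
    have hopen : IsOpen (U θ) := by
      have : U θ = ⋂ g ∈ F θ, {θ' | inner ℝ θ' (π g) < -δ θ} := by
        ext θ'; simp [hU]
      rw [this]
      apply Set.Finite.isOpen_biInter hp.hF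
      intro g hg
      exact isOpen_lt (by fun_prop) continuous_const
    exact hopen.mem_nhds fun g hg => hp.hneg g hg
  obtain ⟨t, htS, htU⟩ := (isCompact_sphere (0 : E) 1).elim_nhds_subcover U hUn
  have hPt : ∀ i ∈ t, Push P T π i (τ i) (k i) (F i) (δ i) := by
    intro i hi
    exact hP i (by simpa using htS i hi)
  obtain ⟨δ0, hδ0, hδ⟩ := exists_pos_le t δ fun i hi => (hPt i hi).hδ
  obtain ⟨B, hB0, hBF, hBT⟩ : ∃ B : ℝ, 0 ≤ B ∧ (∀ i ∈ t, ∀ g ∈ F i, ‖π g‖ ≤ B) ∧
      ∀ s ∈ T, ‖π s‖ ≤ B := by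
    have hfin : (T ∪ ⋃ i ∈ t, F i).Finite :=
      hTfin.union (t.finite_toSet.biUnion fun i hi => (hPt i hi).hF)
    obtain ⟨b, hb⟩ := (hfin.image (fun g => ‖π g‖)).bddAbove
    refine ⟨|b|, abs_nonneg _, fun i hi g hg => ?_, fun s hs => ?_⟩
    · refine le_trans ?_ (le_abs_self b)
      apply hb
      refine Set.mem_image_of_mem (fun g => ‖π g‖) (Or.inr ?_)
      exact Set.mem_biUnion (show i ∈ (t : Set E) from hi) hg
    · refine le_trans ?_ (le_abs_self b)
      apply hb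
      exact Set.mem_image_of_mem (fun g => ‖π g‖) (Or.inl hs)
  obtain ⟨m0, hm0⟩ := exists_nat_gt ((3 * B ^ 2 / (2 * δ0)) ^ 2)
  -- the basic decrease
  have hdec : ∀ m : ℕ, m0 < m → ∀ v ∈ P, q v = m → ∀ i ∈ t, (‖π v‖⁻¹ • π v) ∈ U i →
      ∀ s ∈ P, ‖π s‖ ≤ B → ∀ g ∈ F i, q (v * s * g) < q (v * s) := by
    intro m hm v hv hqv i hi hiU s hs hsB g hg
    have hgP : g ∈ P := (hPt i hi).hFP hg
    have hvs : v * s ∈ P := P.mul_mem hv hs
    have h1 := hq _ (P.mul_mem hvs hgP)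
    have h2 := hq _ hvs
    have h3 := hq v hv
    rw [hπ _ hvs g hgP, norm_add_sq_real, h2] at h1
    have h4 : inner ℝ (π (v * s)) (π g) = inner ℝ (π v) (π g) + inner ℝ (π s) (π g) := by
      rw [hπ v hv s hs, inner_add_left]
    have hm0' : (m0 : ℝ) < m := by exact_mod_cast hm
    have hnv : 3 * B ^ 2 / (2 * δ0) < ‖π v‖ := by
      apply lt_of_pow_lt_pow_left₀ 2 (norm_nonneg _)
      rw [h3, hqv]; exact hm0.trans hm0'
    have hvpos : 0 < ‖π v‖ := lt_of_le_of_lt (by positivity) hnv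
    have h5 : inner ℝ (π v) (π g) ≤ -(‖π v‖ * δ0) := by
      have h6 := hiU g hg
      rw [inner_smul_left] at h6
      simp only [RCLike.conj_to_real] at h6
      have h7 : inner ℝ (π v) (π g) = ‖π v‖ * (‖π v‖⁻¹ * inner ℝ (π v) (π g)) := by
        field_simp
      rw [h7]
      have h8 := hδ i hi
      nlinarith
    have h9 : inner ℝ (π s) (π g) ≤ B * B := by
      refine (real_inner_le_norm _ _).trans ?_
      have := hBF i hi g hg
      gcongr
    have h10 : ‖π g‖ ^ 2 ≤ B ^ 2 := by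
      have := hBF i hi g hg
      gcongr
    rw [div_lt_iff₀ (by positivity)] at hnv
    have h11 : (q (v * s * g) : ℝ) < q (v * s) := by
      rw [← h1, h4]; nlinarith
    exact_mod_cast h11
  -- choice of the direction
  have hidx : ∀ v : G, ∃ i, π v ≠ 0 → i ∈ t ∧ (‖π v‖⁻¹ • π v) ∈ U i := by
    intro v
    by_cases h : π v = 0
    · exact ⟨0, fun h' => absurd h h'⟩
    · have h1 : (‖π v‖⁻¹ • π v) ∈ Metric.sphere (0 : E) 1 := by
        rw [mem_sphere_zero_iff_norm, norm_smul, norm_inv, norm_norm]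
        exact inv_mul_cancel₀ (norm_ne_zero_iff.mpr h)
      have h2 := htU h1
      simp only [Set.mem_iUnion] at h2
      obtain ⟨i, hi, hiU⟩ := h2
      exact ⟨i, fun _ => ⟨hi, hiU⟩⟩
  choose idx hidx using hidx
  have hidx' : ∀ m : ℕ, m0 < m → ∀ v ∈ P, q v = m →
      idx v ∈ t ∧ (‖π v‖⁻¹ • π v) ∈ U (idx v) := by
    intro m hm v hv hqv
    apply hidx
    intro h0
    have h1 := hq v hv
    rw [h0, hqv] at h1
    have : m = 0 := by
      have : (m : ℝ) = 0 := by rw [← h1]; simp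
      exact_mod_cast this
    omega
  -- pushing map
  set Fm : ℕ → G → G := fun m v => if q v < m then v else v * τ (idx v) ^ k (idx v) with hFm
  -- A3 translated
  have hA3 : ∀ m : ℕ, m0 < m → ∀ v ∈ P, q v = m → ∀ i ∈ t, (‖π v‖⁻¹ • π v) ∈ U i →
      ∀ s ∈ T, Conn T {x | x ∈ P ∧ q x < m} (v * τ i ^ k i) (v * s * τ i ^ k i) := by
    intro m hm v hv hqv i hi hiU s hs
    have h1 := ((hPt i hi).hconn s hs).translate (A' := {x | x ∈ P ∧ q x < m}) v (by
      intro g hg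
      refine ⟨P.mul_mem hv ((hPt i hi).hFP hg), ?_⟩
      have := hdec m hm v hv hqv i hi hiU 1 P.one_mem (by rw [pi_one hπ]; simpa using hB0) g hg
      rwa [mul_one, hqv] at this)
    rwa [← mul_assoc] at h1
  -- powers
  have hpw : ∀ m : ℕ, ∀ i ∈ t, ∀ u ∈ P, (∀ g ∈ F i, q (u * g) < m) →
      ∀ l : ℕ, 1 ≤ l → l ≤ k i → Conn T {x | x ∈ P ∧ q x < m} (u * τ i) (u * τ i ^ l) := by
    intro m i hi u hu hlt l hl1
    have hτP : τ i ∈ P := hTP (hPt i hi).hτ
    induction l, hl1 using Nat.le_induction with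
    | base => intro _; rw [pow_one]; exact Conn.refl _
    | succ l hl ih =>
      intro hlk
      refine (ih (by omega)).trans ?_
      rw [pow_succ, ← mul_assoc]
      refine Conn.step ⟨P.mul_mem hu (P.pow_mem hτP l), hlt _ ((hPt i hi).hpow l hl (by omega))⟩
        (hPt i hi).hτ ⟨P.mul_mem (P.mul_mem hu (P.pow_mem hτP l)) hτP, ?_⟩
      rw [mul_assoc, ← pow_succ]
      exact hlt _ ((hPt i hi).hpow (l + 1) (by omega) hlk)
  have hpw0 : ∀ m : ℕ, ∀ i ∈ t, ∀ u ∈ P, q u < m → (∀ g ∈ F i, q (u * g) < m) →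
      Conn T {x | x ∈ P ∧ q x < m} u (u * τ i ^ k i) := by
    intro m i hi u hu hqu hlt
    have hτP : τ i ∈ P := hTP (hPt i hi).hτ
    refine Conn.trans (Conn.step ⟨hu, hqu⟩ (hPt i hi).hτ ⟨P.mul_mem hu hτP, ?_⟩)
      (hpw m i hi u hu hlt (k i) (hPt i hi).hk le_rfl)
    have := hlt _ ((hPt i hi).hpow 1 le_rfl (hPt i hi).hk)
    rwa [pow_one] at this
  -- case (b)
  have hb : ∀ m : ℕ, m0 < m → ∀ v ∈ P, q v = m → ∀ s ∈ T, q (v * s) < m →
      Conn T {x | x ∈ P ∧ q x < m} (Fm m v) (v * s) := by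
    intro m hm v hv hqv s hs hqs
    obtain ⟨hi, hiU⟩ := hidx' m hm v hv hqv
    have hsP := hTP hs
    have hFmv : Fm m v = v * τ (idx v) ^ k (idx v) := by
      simp only [hFm]; rw [if_neg (by omega)]
    rw [hFmv]
    refine (hA3 m hm v hv hqv _ hi hiU s hs).trans ?_
    refine (hpw0 m _ hi (v * s) (P.mul_mem hv hsP) hqs ?_).symm hsym
    intro g hg
    exact (hdec m hm v hv hqv _ hi hiU s hsP (hBT s hs) g hg).trans hqs
  have hstep : ∀ m : ℕ, m0 < m → ∀ v ∈ P, q v ≤ m → ∀ s ∈ T, q (v * s) ≤ m →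
      Conn T {x | x ∈ P ∧ q x < m} (Fm m v) (Fm m (v * s)) := by
    intro m hm v hv hqv s hs hqs
    have hsP := hTP hs
    rcases lt_or_eq_of_le hqv with hv1 | hv1
    · have e1 : Fm m v = v := by simp only [hFm]; rw [if_pos hv1]
      rcases lt_or_eq_of_le hqs with hs1 | hs1
      · have e2 : Fm m (v * s) = v * s := by simp only [hFm]; rw [if_pos hs1]
        rw [e1, e2]
        exact Conn.step ⟨hv, hv1⟩ hs ⟨P.mul_mem hv hsP, hs1⟩
      · rw [e1]
        have := hb m hm (v * s) (P.mul_mem hv hsP) hs1 s⁻¹ (hsym s hs)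
          (by rwa [mul_inv_cancel_right])
        rw [mul_inv_cancel_right] at this
        exact this.symm hsym
    · rcases lt_or_eq_of_le hqs with hs1 | hs1
      · have e2 : Fm m (v * s) = v * s := by simp only [hFm]; rw [if_pos hs1]
        rw [e2]
        exact hb m hm v hv hv1 s hs hs1
      · obtain ⟨hi, hiU⟩ := hidx' m hm v hv hv1
        obtain ⟨hi', hiU'⟩ := hidx' m hm (v * s) (P.mul_mem hv hsP) hs1
        have e1 : Fm m v = v * τ (idx v) ^ k (idx v) := by
          simp only [hFm]; rw [if_neg (by omega)]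
        have e2 : Fm m (v * s) = v * s * τ (idx (v * s)) ^ k (idx (v * s)) := by
          simp only [hFm]; rw [if_neg (by omega)]
        rw [e1, e2]
        have hτT := (hPt _ hi).hτ
        have hτP := hTP hτT
        have hlt1 : ∀ g ∈ F (idx v), q (v * s * g) < m := by
          intro g hg
          have := hdec m hm v hv hv1 _ hi hiU s hsP (hBT s hs) g hg
          rwa [hs1] at this
        have hqu' : q (v * s * τ (idx v)) < m := by
          have := hlt1 _ ((hPt _ hi).hpow 1 le_rfl (hPt _ hi).hk)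
          rwa [pow_one] at this
        refine (hA3 m hm v hv hv1 _ hi hiU s hs).trans ?_
        refine ((hpw m _ hi (v * s) (P.mul_mem hv hsP) hlt1 _ (hPt _ hi).hk le_rfl).symm
          hsym).trans ?_
        refine (hpw0 m _ hi' (v * s * τ (idx v)) (P.mul_mem (P.mul_mem hv hsP) hτP) hqu'
          ?_).trans ?_
        · intro g hg
          exact (hdec m hm (v * s) (P.mul_mem hv hsP) hs1 _ hi' hiU' _ hτP
            (hBT _ hτT) g hg).trans hqu'
        · exact (hA3 m hm (v * s) (P.mul_mem hv hsP) hs1 _ hi' hiU' _ hτT).symm hsym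
  have hdown : ∀ m : ℕ, m0 < m → ∀ x y : G, Conn T {x | x ∈ P ∧ q x ≤ m} x y →
      Conn T {x | x ∈ P ∧ q x < m} (Fm m x) (Fm m y) := by
    intro m hm x y hxy
    induction hxy with
    | refl => exact Conn.refl _
    | tail _ h2 ih =>
      rename_i b c _
      refine ih.trans ?_
      have h3 := hstep m hm b h2.1.1 h2.1.2 _ h2.2.2
        (by rw [mul_inv_cancel_left]; exact h2.2.1.2)
      rwa [mul_inv_cancel_left] at h3
  refine ⟨m0, fun p hp hp0 => ?_⟩
  have hq0 : ∀ x ∈ P, π x = 0 → q x = 0 := by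
    intro x hx hx0
    have h1 := hq x hx
    rw [hx0] at h1
    have : (q x : ℝ) = 0 := by rw [← h1]; simp
    exact_mod_cast this
  have h10 : q 1 = 0 := hq0 1 P.one_mem (pi_one hπ)
  have hp0' : q p = 0 := hq0 p hp hp0
  have hall : ∀ n : ℕ, Conn T {x | x ∈ P ∧ q x ≤ m0 + n} 1 p →
      Conn T {x | x ∈ P ∧ q x ≤ m0} 1 p := by
    intro n
    induction n with
    | zero => intro h; exact h
    | succ n ih =>
      intro h
      apply ih
      have h1 := hdown (m0 + (n + 1)) (by omega) 1 p h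
      have e1 : Fm (m0 + (n + 1)) 1 = 1 := by simp only [hFm]; rw [if_pos (by omega)]
      have e2 : Fm (m0 + (n + 1)) p = p := by simp only [hFm]; rw [if_pos (by omega)]
      rw [e1, e2] at h1
      refine h1.mono ?_
      rintro x ⟨hx, hqx⟩
      exact ⟨hx, by omega⟩
  obtain ⟨S, hS, hSP, hc⟩ := (conn_of_closure hsym hcl P.one_mem hp).finite_support
  obtain ⟨n, hn⟩ := (hS.image q).bddAbove
  refine hall n (hc.mono fun x hx => ⟨hSP hx, ?_⟩)
  have := hn (Set.mem_image_of_mem q hx)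
  omega

end core

end Pool.Agent.LHF
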