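import Pool.Agent.LHF.BNS

set_option autoImplicit false
set_option linter.unusedSectionVars false
set_option linter.unusedVariables false
set_option linter.style.haveILetI false

namespace Pool.Agent.LHF

open scoped commutatorElement

variable {G : Type*} [Group G]

section core
variable {E : Type*} [NormedAddCommGroup E] [InnerProductSpace ℝ E] [FiniteDimensional ℝ E]
variable {P : Subgroup G} {T : Set G}

/-- from connectivity to finite generation -/
theorem bns_fg (hTfin : T.Finite) (hTP : T ⊆ P) {π : G → E}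
    (hπ : ∀ a ∈ P, ∀ b ∈ P, π (a * b) = π a + π b) {q : G → ℕ} {m0 : ℕ}
    (hfin : (π '' {x | x ∈ P ∧ q x ≤ m0}).Finite)
    {K : Subgroup G} (hK : ∀ x, x ∈ K ↔ x ∈ P ∧ π x = 0)
    (hconn : ∀ p ∈ P, π p = 0 → Conn T {x | x ∈ P ∧ q x ≤ m0} 1 p) : K.FG := by
  classical
  set Z := π '' {x | x ∈ P ∧ q x ≤ m0} with hZ
  have hr : ∀ z : E, ∃ r : G, (z ∈ Z → r ∈ P ∧ π r = z) ∧ (z = 0 → r = 1) := by
    intro z
    by_cases h0 : z = 0
    · exact ⟨1, fun _ => ⟨P.one_mem, by rw [h0, pi_one hπ]⟩, fun _ => rfl⟩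
    · by_cases hz : z ∈ Z
      · obtain ⟨r, hr, hrz⟩ := hz
        exact ⟨r, fun _ => ⟨hr.1, hrz⟩, fun h => absurd h h0⟩
      · exact ⟨1, fun h => absurd h hz, fun h => absurd h h0⟩
  choose r hr hr0 using hr
  set T0 : Set G := {s | s ∈ K} ∩
    ((fun w : (E × E) × G => r w.1.1 * w.2 * (r w.1.2)⁻¹) '' ((Z ×ˢ Z) ×ˢ T)) with hT0
  have hT0fin : T0.Finite := (((hfin.prod hfin).prod hTfin).image _).subset Set.inter_subset_right
  have hcl : Subgroup.closure T0 = K := by
    apply le_antisymm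
    · rw [Subgroup.closure_le]; exact fun s hs => hs.1
    · intro p hp
      obtain ⟨hpP, hp0⟩ := (hK p).mp hp
      have h1 := hconn p hpP hp0
      have key : ∀ y, Conn T {x | x ∈ P ∧ q x ≤ m0} 1 y → y * (r (π y))⁻¹ ∈ Subgroup.closure T0 := by
        intro y hy
        induction hy with
        | refl =>
          rw [hr0 _ (pi_one hπ)]
          simp
        | tail _ h2 ih =>
          rename_i b c _
          have hbZ : π b ∈ Z := ⟨b, h2.1, rfl⟩
          have hcZ : π c ∈ Z := ⟨c, h2.2.1, rfl⟩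
          have hs : r (π b) * (b⁻¹ * c) * (r (π c))⁻¹ ∈ T0 := by
            refine ⟨?_, ⟨((π b, π c), b⁻¹ * c), ⟨⟨hbZ, hcZ⟩, h2.2.2⟩, rfl⟩⟩
            have hbP := h2.1.1
            have hcP := h2.2.1.1
            have hrb := hr _ hbZ
            have hrc := hr _ hcZ
            refine (hK _).mpr ⟨P.mul_mem (P.mul_mem hrb.1 (P.mul_mem (P.inv_mem hbP) hcP))
              (P.inv_mem hrc.1), ?_⟩
            rw [hπ _ (P.mul_mem hrb.1 (P.mul_mem (P.inv_mem hbP) hcP)) _ (P.inv_mem hrc.1),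
              hπ _ hrb.1 _ (P.mul_mem (P.inv_mem hbP) hcP), hπ _ (P.inv_mem hbP) _ hcP,
              pi_inv hπ hbP, pi_inv hπ hrc.1, hrb.2, hrc.2]
            abel
          have h3 := Subgroup.mul_mem _ ih (Subgroup.subset_closure hs)
          have e1 : b * (r (π b))⁻¹ * (r (π b) * (b⁻¹ * c) * (r (π c))⁻¹) = c * (r (π c))⁻¹ := by
            group
          rwa [e1] at h3
      have h2 := key p h1
      rw [hp0, hr0 0 rfl] at h2
      simpa using h2
  rw [← hcl]
  exact (Subgroup.fg_iff _).mpr ⟨T0, rfl, hT0fin⟩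

end core

/-- the free part of an abelian quotient `P / N` -/
lemma exists_free_quotient {P N : Subgroup G} (hP : P.FG) (hNP : N ≤ P)
    (hcomm : ⁅P, P⁆ ≤ N) :
    ∃ (n : ℕ) (π : G → Fin n → ℤ), (∀ a ∈ P, ∀ b ∈ P, π (a * b) = π a + π b) ∧
      (∀ a ∈ N, π a = 0) ∧ (∀ z, ∃ t ∈ P, π t = z) ∧
      ∀ K : Subgroup G, (∀ x, x ∈ K ↔ x ∈ P ∧ π x = 0) → (N.subgroupOf K).FiniteIndex := by
  classical
  have hnormal : (N.subgroupOf P).Normal := by
    constructor
    rintro ⟨n, hn⟩ hnN ⟨g, hg⟩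
    rw [Subgroup.mem_subgroupOf] at hnN ⊢
    have h1 : ⁅g, n⁆ ∈ N := hcomm (Subgroup.commutator_mem_commutator hg hn)
    have h2 := N.mul_mem h1 hnN
    simpa [commutatorElement_def] using h2
  haveI := hnormal
  letI : CommGroup (P ⧸ N.subgroupOf P) :=
    { (inferInstance : Group (P ⧸ N.subgroupOf P)) with
      mul_comm := by
        intro a b
        induction a using QuotientGroup.induction_on with
        | H a =>
          induction b using QuotientGroup.induction_on with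
          | H b =>
            rw [← QuotientGroup.mk_mul, ← QuotientGroup.mk_mul, QuotientGroup.eq,
              Subgroup.mem_subgroupOf]
            have h1 : ⁅(b : G)⁻¹, (a : G)⁻¹⁆ ∈ N :=
              hcomm (Subgroup.commutator_mem_commutator (P.inv_mem b.2) (P.inv_mem a.2))
            have e1 : ((a * b)⁻¹ * (b * a) : P).1 = ⁅(b : G)⁻¹, (a : G)⁻¹⁆ := by
              simp [commutatorElement_def, mul_assoc]
            rw [e1]; exact h1 }
  haveI : Group.FG P := (Group.fg_iff_subgroup_fg P).mpr hP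
  haveI : Group.FG (P ⧸ N.subgroupOf P) := Group.fg_of_surjective
    (f := QuotientGroup.mk' (N.subgroupOf P)) (QuotientGroup.mk'_surjective _)
  haveI : AddGroup.FG (Additive (P ⧸ N.subgroupOf P)) := inferInstance
  obtain ⟨n, ι, _, p, hp, e, ⟨f⟩⟩ :=
    AddCommGroup.equiv_free_prod_directSum_zmod (Additive (P ⧸ N.subgroupOf P))
  haveI : ∀ i, NeZero (p i ^ e i) := fun i => ⟨pow_ne_zero _ (hp i).ne_zero⟩
  haveI hfinD : Finite (DirectSum ι fun i => ZMod (p i ^ e i)) :=
    Finite.of_equiv _ (DirectSum.addEquivProd (fun i => ZMod (p i ^ e i))).symm.toEquiv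
  set F : P → (Fin n →₀ ℤ) × (DirectSum ι fun i => ZMod (p i ^ e i)) :=
    fun x => f (Additive.ofMul (QuotientGroup.mk x)) with hF
  have hFmul : ∀ a b : P, F (a * b) = F a + F b := by
    intro a b
    simp only [hF]
    rw [← map_add]; rfl
  have hFker : ∀ a : P, F a = 0 ↔ (a : G) ∈ N := by
    intro a
    simp only [hF]
    rw [map_eq_zero_iff f f.injective]
    rw [← Subgroup.mem_subgroupOf (H := N) (K := P), ← QuotientGroup.eq_one_iff]
    rfl
  have hFsurj : Function.Surjective F := by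
    intro z
    obtain ⟨y, hy⟩ := f.surjective z
    obtain ⟨x, hx⟩ := QuotientGroup.mk_surjective (Additive.toMul y)
    exact ⟨x, by simp only [hF]; rw [hx]; exact hy⟩
  obtain ⟨π1, hπ1⟩ : ∃ π1 : G → Fin n → ℤ, ∀ x (h : x ∈ P), π1 x = ((F ⟨x, h⟩).1 : Fin n → ℤ) :=
    ⟨fun x => if h : x ∈ P then ((F ⟨x, h⟩).1 : Fin n → ℤ) else 0, fun x h => dif_pos h⟩
  refine ⟨n, π1, ?_, ?_, ?_, ?_⟩
  · intro a ha b hb
    rw [hπ1 _ ha, hπ1 _ hb, hπ1 _ (P.mul_mem ha hb)]
    have h1 := hFmul ⟨a, ha⟩ ⟨b, hb⟩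
    have h2 : (⟨a, ha⟩ * ⟨b, hb⟩ : P) = ⟨a * b, P.mul_mem ha hb⟩ := rfl
    rw [h2] at h1
    rw [h1]
    simp
  · intro a ha
    rw [hπ1 _ (hNP ha)]
    have := (hFker ⟨a, hNP ha⟩).mpr ha
    rw [this]; simp
  · intro z
    obtain ⟨t, ht⟩ := hFsurj (Finsupp.equivFunOnFinite.symm z, 0)
    refine ⟨t, t.2, ?_⟩
    rw [hπ1 _ t.2, ht]
    simp
  · intro K hK
    have hKP : ∀ x : K, (x : G) ∈ P := fun x => ((hK x).mp x.2).1
    let ψ : K →* Multiplicative (DirectSum ι fun i => ZMod (p i ^ e i)) :=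
      { toFun := fun x => Multiplicative.ofAdd (F ⟨x, hKP x⟩).2
        map_one' := by
          have : F ⟨((1 : K) : G), hKP 1⟩ = 0 := (hFker _).mpr N.one_mem
          rw [this]; rfl
        map_mul' := by
          intro a b
          have h1 := hFmul ⟨a, hKP a⟩ ⟨b, hKP b⟩
          have h2 : (⟨a, hKP a⟩ * ⟨b, hKP b⟩ : P) = ⟨((a * b : K) : G), hKP (a * b)⟩ := rfl
          rw [h2] at h1
          rw [h1]; rfl }
    have hker : ψ.ker = N.subgroupOf K := by
      ext x
      rw [MonoidHom.mem_ker, Subgroup.mem_subgroupOf]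
      have h0 := ((hK x).mp x.2).2
      rw [hπ1 _ (hKP x)] at h0
      have h1 : (F ⟨x, hKP x⟩).1 = 0 := by
        ext i
        have := congrFun h0 i
        simpa using this
      constructor
      · intro h2
        have h3 : (F ⟨x, hKP x⟩).2 = 0 := h2
        exact (hFker ⟨x, hKP x⟩).mp (Prod.ext h1 h3)
      · intro h2
        have h3 := (hFker ⟨x, hKP x⟩).mpr h2
        show Multiplicative.ofAdd (F ⟨x, hKP x⟩).2 = 1
        rw [h3]; rfl
    rw [← hker]; infer_instance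

/-- **BNS-type criterion**. -/
theorem bns {P N : Subgroup G} (hP : P.FG) (hNP : N ≤ P) (hcomm : ⁅P, P⁆ ≤ N)
    (hgood : ∀ χ : G → ℝ, (∀ a ∈ P, ∀ b ∈ P, χ (a * b) = χ a + χ b) → (∀ a ∈ N, χ a = 0) →
      (∃ t ∈ P, χ t ≠ 0) → Good P χ {p | p ∈ ⁅P, P⁆}) : N.FG := by
  classical
  obtain ⟨n, π0, hπ0, hN0, hsurj, hK⟩ := exists_free_quotient hP hNP hcomm
  obtain ⟨T1, hT1, hT1f⟩ := (Subgroup.fg_iff _).mp hP
  set T : Set G := T1 ∪ (fun x => x⁻¹) '' T1 with hT
  have hTfin : T.Finite := hT1f.union (hT1f.image _)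
  have hsym : ∀ s ∈ T, s⁻¹ ∈ T := by
    rintro s (hs | ⟨s, hs, rfl⟩)
    · exact Or.inr ⟨s, hs, rfl⟩
    · simp only [inv_inv]; exact Or.inl hs
  have hcl : Subgroup.closure T = P := by
    apply le_antisymm
    · rw [Subgroup.closure_le, ← hT1]
      rintro s (hs | ⟨s, hs, rfl⟩)
      · exact Subgroup.subset_closure hs
      · exact Subgroup.inv_mem _ (Subgroup.subset_closure hs)
    · rw [← hT1]; exact Subgroup.closure_mono Set.subset_union_left
  have hTP : T ⊆ P := by rw [← hcl]; exact Subgroup.subset_closure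
  set π : G → EuclideanSpace ℝ (Fin n) := fun x => WithLp.toLp 2 (fun i => (π0 x i : ℝ)) with hπdef
  have hπ : ∀ a ∈ P, ∀ b ∈ P, π (a * b) = π a + π b := by
    intro a ha b hb
    ext i
    simp only [hπdef, PiLp.add_apply]
    rw [hπ0 a ha b hb]
    push_cast [Pi.add_apply]; rfl
  have hπ_zero : ∀ x, π x = 0 ↔ π0 x = 0 := by
    intro x
    constructor
    · intro h
      funext i
      have := congrArg (fun v : EuclideanSpace ℝ (Fin n) => v i) h
      simp only [hπdef, PiLp.zero_apply] at this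
      exact_mod_cast this
    · intro h
      ext i
      simp only [hπdef, PiLp.zero_apply]
      rw [h]; simp
  set q : G → ℕ := fun x => (∑ i, (π0 x i) ^ 2).toNat with hqdef
  have hq : ∀ x ∈ P, ‖π x‖ ^ 2 = q x := by
    intro x _
    rw [EuclideanSpace.norm_sq_eq]
    simp only [hπdef, hqdef]
    have h1 : (0 : ℤ) ≤ ∑ i, (π0 x i) ^ 2 := Finset.sum_nonneg fun i _ => sq_nonneg _
    have h2 : (((∑ i, (π0 x i) ^ 2).toNat : ℤ) : ℝ) = ((∑ i, (π0 x i) ^ 2 : ℤ) : ℝ) := by
      rw [Int.toNat_of_nonneg h1]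
    rw [Int.cast_natCast] at h2
    rw [h2]
    push_cast
    apply Finset.sum_congr rfl
    intro i _
    rw [Real.norm_eq_abs, sq_abs]
  have hpush : ∀ θ : EuclideanSpace ℝ (Fin n), ‖θ‖ = 1 →
      ∃ τ k F δ, Push P T π θ τ k F δ := by
    intro θ hθ
    have hspan : ∃ t ∈ P, inner ℝ θ (π t) ≠ (0 : ℝ) := by
      have hne : θ ≠ 0 := by
        intro h; rw [h, norm_zero] at hθ; exact zero_ne_one hθ
      obtain ⟨i, hi⟩ : ∃ i, θ i ≠ 0 := by
        by_contra hcon
        push Not at hcon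
        exact hne (by ext i; simpa using hcon i)
      obtain ⟨t, ht, htz⟩ := hsurj (Pi.single i 1)
      refine ⟨t, ht, ?_⟩
      have : π t = EuclideanSpace.single i (1 : ℝ) := by
        ext j
        simp only [hπdef, htz]
        by_cases hij : j = i
        · subst hij; simp
        · simp [hij]
      rw [this, EuclideanSpace.inner_single_right]
      simpa using hi
    apply exists_push hTfin hsym hcl hπ θ hspan
    apply hgood
    · intro a ha b hb
      rw [hπ a ha b hb, inner_add_right]; ring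
    · intro a ha
      rw [(hπ_zero a).mpr (hN0 a ha)]; simp
    · obtain ⟨t, ht, hne⟩ := hspan
      exact ⟨t, ht, neg_ne_zero.mpr hne⟩
  obtain ⟨m0, hm0⟩ := bns_connected hTfin hsym hcl hπ hq hpush
  -- the kernel
  let K : Subgroup G :=
    { carrier := {x | x ∈ P ∧ π x = 0}
      one_mem' := ⟨P.one_mem, pi_one hπ⟩
      mul_mem' := by
        rintro a b ⟨ha, ha0⟩ ⟨hb, hb0⟩
        exact ⟨P.mul_mem ha hb, by rw [hπ a ha b hb, ha0, hb0, add_zero]⟩
      inv_mem' := by
        rintro a ⟨ha, ha0⟩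
        exact ⟨P.inv_mem ha, by rw [pi_inv hπ ha, ha0, neg_zero]⟩ }
  have hKmem : ∀ x, x ∈ K ↔ x ∈ P ∧ π x = 0 := fun x => Iff.rfl
  have hKfi : (N.subgroupOf K).FiniteIndex := by
    apply hK K
    intro x
    rw [hKmem, hπ_zero]
  have hNK : N ≤ K := fun x hx => (hKmem x).mpr ⟨hNP hx, (hπ_zero x).mpr (hN0 x hx)⟩
  suffices hKfg : K.FG by
    haveI : Group.FG K := (Group.fg_iff_subgroup_fg K).mpr hKfg
    haveI hfg : Group.FG (N.subgroupOf K) := inferInstance
    have e1 := Subgroup.subgroupOfEquivOfLe hNK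
    rw [← Group.fg_iff_subgroup_fg]
    exact Group.fg_of_surjective (f := e1.toMonoidHom) e1.surjective
  · apply bns_fg hTfin hTP hπ (q := q) (m0 := m0) ?_ hKmem hm0
    have hbox : (Set.Icc (fun _ : Fin n => -(m0 : ℤ)) (fun _ => (m0 : ℤ))).Finite :=
      Set.finite_Icc _ _
    refine (hbox.image (fun z => (WithLp.toLp 2 (fun i => (z i : ℝ)) :
      EuclideanSpace ℝ (Fin n)))).subset ?_
    rintro _ ⟨x, ⟨hx, hqx⟩, rfl⟩
    refine ⟨π0 x, ?_, rfl⟩
    have h1 : (0 : ℤ) ≤ ∑ i, (π0 x i) ^ 2 := Finset.sum_nonneg fun i _ => sq_nonneg _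
    have h2 : ∑ i, (π0 x i) ^ 2 ≤ m0 := by
      simp only [hqdef] at hqx
      omega
    have h3 : ∀ i, (π0 x i) ^ 2 ≤ m0 := fun i =>
      (Finset.single_le_sum (f := fun i => (π0 x i) ^ 2) (fun i _ => sq_nonneg _)
        (Finset.mem_univ i)).trans h2
    constructor
    · intro i
      have := h3 i
      show -(m0 : ℤ) ≤ π0 x i
      nlinarith [sq_nonneg (π0 x i), sq_nonneg (π0 x i + 1)]
    · intro i
      have := h3 i
      show π0 x i ≤ m0
      nlinarith [sq_nonneg (π0 x i), sq_nonneg (π0 x i - 1)]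

end Pool.Agent.LHF
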