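import Mathlib

set_option autoImplicit false
set_option linter.unusedSectionVars false

namespace Pool.Agent.LHF

variable {G : Type*} [Group G] {ι : Type*} [Fintype ι]

/-- Averaging operator of the family `σ`: `(avg σ f) x` is the mean of `f (x * σ j)`. -/
noncomputable def avg (σ : ι → G) (f : G → ℝ) (x : G) : ℝ :=
  (∑ j, f (x * σ j)) / (Fintype.card ι : ℝ)

/-- product of the word `l` in the family `σ` -/
def wprod (σ : ι → G) (l : List ι) : G := (l.map σ).prod

@[simp] lemma wprod_nil (σ : ι → G) : wprod σ [] = 1 := rfl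

@[simp] lemma wprod_cons (σ : ι → G) (j : ι) (l : List ι) :
    wprod σ (j :: l) = σ j * wprod σ l := by simp [wprod]

lemma wprod_append (σ : ι → G) (l l' : List ι) :
    wprod σ (l ++ l') = wprod σ l * wprod σ l' := by simp [wprod]

section
variable (σ : ι → G)

lemma card_pos' [Nonempty ι] : (0 : ℝ) < (Fintype.card ι : ℝ) := by
  exact_mod_cast Fintype.card_pos

lemma avg_def (f : G → ℝ) (x : G) :
    avg σ f x = (∑ j, f (x * σ j)) / (Fintype.card ι : ℝ) := rfl

lemma avg_const [Nonempty ι] (c : ℝ) (x : G) : avg σ (fun _ => c) x = c := by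
  have := card_pos' (ι := ι)
  simp only [avg, Finset.sum_const, Finset.card_univ, nsmul_eq_mul]
  field_simp

lemma avg_add (f g : G → ℝ) (x : G) :
    avg σ (fun y => f y + g y) x = avg σ f x + avg σ g x := by
  simp only [avg, Finset.sum_add_distrib, add_div]

lemma avg_sub (f g : G → ℝ) (x : G) :
    avg σ (fun y => f y - g y) x = avg σ f x - avg σ g x := by
  simp only [avg, Finset.sum_sub_distrib, sub_div]

lemma avg_neg (f : G → ℝ) (x : G) :
    avg σ (fun y => - f y) x = - avg σ f x := by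
  simp only [avg, Finset.sum_neg_distrib, neg_div]

lemma avg_smul (c : ℝ) (f : G → ℝ) (x : G) :
    avg σ (fun y => c * f y) x = c * avg σ f x := by
  simp only [avg, ← Finset.mul_sum, mul_div_assoc]

lemma avg_sum {κ : Type*} (s : Finset κ) (f : κ → G → ℝ) (x : G) :
    avg σ (fun y => ∑ k ∈ s, f k y) x = ∑ k ∈ s, avg σ (f k) x := by
  simp only [avg]
  rw [Finset.sum_comm, Finset.sum_div]

/-- local monotonicity -/
lemma avg_le_avg [Nonempty ι] {f g : G → ℝ} {x : G} (h : ∀ j, f (x * σ j) ≤ g (x * σ j)) :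
    avg σ f x ≤ avg σ g x := by
  simp only [avg]
  gcongr with j hj
  exact h j

lemma avg_mono [Nonempty ι] {f g : G → ℝ} (h : ∀ x, f x ≤ g x) (x : G) :
    avg σ f x ≤ avg σ g x := avg_le_avg σ fun _ => h _

lemma le_avg [Nonempty ι] {f : G → ℝ} {x : G} {c : ℝ} (h : ∀ j, c ≤ f (x * σ j)) :
    c ≤ avg σ f x := by
  calc c = avg σ (fun _ => c) x := (avg_const σ c x).symm
    _ ≤ avg σ f x := avg_le_avg σ h

lemma avg_le [Nonempty ι] {f : G → ℝ} {x : G} {c : ℝ} (h : ∀ j, f (x * σ j) ≤ c) :
    avg σ f x ≤ c := by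
  calc avg σ f x ≤ avg σ (fun _ => c) x := avg_le_avg σ h
    _ = c := avg_const σ c x

lemma abs_avg_le [Nonempty ι] (f : G → ℝ) (x : G) : |avg σ f x| ≤ avg σ (fun y => |f y|) x := by
  rw [abs_le]
  constructor
  · rw [← avg_neg]; exact avg_le_avg σ fun j => neg_abs_le _
  · exact avg_le_avg σ fun j => le_abs_self _

lemma abs_avg_sub_le [Nonempty ι] {f : G → ℝ} {x : G} {a c : ℝ}
    (h : ∀ j, |f (x * σ j) - a| ≤ c) : |avg σ f x - a| ≤ c := by
  have h1 : avg σ f x - a = avg σ (fun y => f y - a) x := by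
    rw [avg_sub, avg_const]
  rw [h1]
  exact (abs_avg_le σ _ x).trans (avg_le σ fun j => h j)

/-- translation equivariance on the left -/
lemma avg_translate (g : G) (f : G → ℝ) (x : G) :
    avg σ (fun y => f (g * y)) x = avg σ f (g * x) := by
  simp only [avg, mul_assoc]

/-- the single term bound -/
lemma avg_ge_term [Nonempty ι] {f : G → ℝ} (hf : ∀ x, 0 ≤ f x) (x : G) (j : ι) :
    (Fintype.card ι : ℝ)⁻¹ * f (x * σ j) ≤ avg σ f x := by
  have := card_pos' (ι := ι)
  rw [avg, div_eq_inv_mul]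
  gcongr
  exact Finset.single_le_sum (f := fun j => f (x * σ j)) (fun i _ => hf _) (Finset.mem_univ j)

end

section iterates
variable (σ : ι → G)

/-- iterates of the averaging operator -/
noncomputable def it (n : ℕ) (f : G → ℝ) : G → ℝ := (avg σ)^[n] f

@[simp] lemma it_zero (f : G → ℝ) : it σ 0 f = f := rfl

lemma it_succ (n : ℕ) (f : G → ℝ) : it σ (n + 1) f = it σ n (avg σ f) := rfl

lemma it_succ' (n : ℕ) (f : G → ℝ) : it σ (n + 1) f = avg σ (it σ n f) := by
  simp only [it, Function.iterate_succ_apply']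

lemma it_one (f : G → ℝ) : it σ 1 f = avg σ f := rfl

lemma it_add' (m n : ℕ) (f : G → ℝ) : it σ (m + n) f = it σ m (it σ n f) := by
  simp only [it, Function.iterate_add_apply]

lemma it_const [Nonempty ι] (n : ℕ) (c : ℝ) (x : G) : it σ n (fun _ => c) x = c := by
  induction n generalizing x with
  | zero => rfl
  | succ n ih =>
    rw [it_succ']
    have : it σ n (fun _ => c) = fun _ => c := funext ih
    rw [this, avg_const]

lemma it_add (n : ℕ) (f g : G → ℝ) (x : G) :
    it σ n (fun y => f y + g y) x = it σ n f x + it σ n g x := by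
  induction n generalizing x with
  | zero => rfl
  | succ n ih =>
    rw [it_succ', it_succ', it_succ', ← avg_add]
    congr 1
    exact funext ih

lemma it_sub (n : ℕ) (f g : G → ℝ) (x : G) :
    it σ n (fun y => f y - g y) x = it σ n f x - it σ n g x := by
  induction n generalizing x with
  | zero => rfl
  | succ n ih =>
    rw [it_succ', it_succ', it_succ', ← avg_sub]
    congr 1
    exact funext ih

lemma it_smul (n : ℕ) (c : ℝ) (f : G → ℝ) (x : G) :
    it σ n (fun y => c * f y) x = c * it σ n f x := by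
  induction n generalizing x with
  | zero => rfl
  | succ n ih =>
    rw [it_succ', it_succ', ← avg_smul]
    congr 1
    exact funext ih

lemma it_mono [Nonempty ι] (n : ℕ) {f g : G → ℝ} (h : ∀ x, f x ≤ g x) (x : G) :
    it σ n f x ≤ it σ n g x := by
  induction n generalizing x with
  | zero => exact h x
  | succ n ih =>
    rw [it_succ', it_succ']
    exact avg_mono σ ih x

lemma it_nonneg [Nonempty ι] (n : ℕ) {f : G → ℝ} (h : ∀ x, 0 ≤ f x) (x : G) :
    0 ≤ it σ n f x := by
  have := it_mono σ n (f := fun _ => 0) (g := f) h x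
  rwa [it_const] at this

lemma abs_it_le [Nonempty ι] (n : ℕ) (f : G → ℝ) (x : G) :
    |it σ n f x| ≤ it σ n (fun y => |f y|) x := by
  induction n generalizing x with
  | zero => exact le_rfl
  | succ n ih =>
    rw [it_succ', it_succ']
    exact (abs_avg_le σ _ x).trans (avg_mono σ ih x)

lemma it_harm {f : G → ℝ} (hf : avg σ f = f) (n : ℕ) : it σ n f = f := by
  induction n with
  | zero => rfl
  | succ n ih => rw [it_succ', ih, hf]

lemma it_translate (n : ℕ) (g : G) (f : G → ℝ) (x : G) :
    it σ n (fun y => f (g * y)) x = it σ n f (g * x) := by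
  induction n generalizing x with
  | zero => rfl
  | succ n ih =>
    rw [it_succ', it_succ', ← avg_translate]
    congr 1
    exact funext ih

lemma it_ge_word [Nonempty ι] {f : G → ℝ} (hf : ∀ x, 0 ≤ f x) (l : List ι) (x : G) :
    ((Fintype.card ι : ℝ)⁻¹) ^ l.length * f (x * wprod σ l) ≤ it σ l.length f x := by
  induction l generalizing x with
  | nil => simp
  | cons j l ih =>
    have h1 := avg_ge_term σ (it_nonneg σ l.length hf) x j
    rw [List.length_cons, it_succ']
    refine le_trans ?_ h1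
    have h2 := ih (x * σ j)
    have hc : (0 : ℝ) ≤ (Fintype.card ι : ℝ)⁻¹ := by positivity
    calc ((Fintype.card ι : ℝ)⁻¹) ^ (l.length + 1) * f (x * wprod σ (j :: l))
        = (Fintype.card ι : ℝ)⁻¹ *
          (((Fintype.card ι : ℝ)⁻¹) ^ l.length * f (x * σ j * wprod σ l)) := by
          rw [wprod_cons, mul_assoc x, pow_succ]; ring
      _ ≤ _ := by gcongr

/-- submartingales: iterates increase -/
lemma le_it_of_le_avg [Nonempty ι] {f : G → ℝ} (hf : ∀ x, f x ≤ avg σ f x) (n : ℕ) (x : G) :
    f x ≤ it σ n f x := by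
  induction n generalizing x with
  | zero => exact le_rfl
  | succ n ih =>
    rw [it_succ]
    exact (ih x).trans (it_mono σ n hf x)

lemma it_mono_n [Nonempty ι] {f : G → ℝ} (hf : ∀ x, f x ≤ avg σ f x) {m n : ℕ} (hmn : m ≤ n)
    (x : G) : it σ m f x ≤ it σ n f x := by
  obtain ⟨k, rfl⟩ := Nat.exists_eq_add_of_le hmn
  rw [it_add']
  exact it_mono σ m (le_it_of_le_avg σ hf k) x

end iterates

/-- words can be padded by a trivial letter -/
lemma exists_word_length (σ : ι → G) (i0 : ι) (h0 : σ i0 = 1) (l : List ι) {N : ℕ}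
    (hN : l.length ≤ N) : ∃ l' : List ι, l'.length = N ∧ wprod σ l' = wprod σ l := by
  refine ⟨l ++ List.replicate (N - l.length) i0, by simp [hN], ?_⟩
  rw [wprod_append]
  simp [wprod, h0]

/-- Solving the Poisson equation from a bounded supersolution. -/
lemma exists_poisson [Nonempty ι] (σ : ι → G) {ρ Ψ : G → ℝ} {B : ℝ}
    (hΨ0 : ∀ x, 0 ≤ Ψ x) (hΨB : ∀ x, Ψ x ≤ B)
    (hρ : ∀ x, |ρ x| ≤ Ψ x - avg σ Ψ x) :
    ∃ w : G → ℝ, (∀ x, |w x| ≤ B) ∧ ∀ x, w x - avg σ w x = ρ x := by
  have key : ∀ n x, |it σ n ρ x| ≤ it σ n Ψ x - it σ (n + 1) Ψ x := by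
    intro n x
    refine (abs_it_le σ n ρ x).trans ?_
    refine (it_mono σ n hρ x).trans ?_
    rw [it_sub, it_succ]
  have hsum : ∀ N x, ∑ n ∈ Finset.range N, |it σ n ρ x| ≤ Ψ x := by
    intro N x
    calc ∑ n ∈ Finset.range N, |it σ n ρ x|
        ≤ ∑ n ∈ Finset.range N, (it σ n Ψ x - it σ (n + 1) Ψ x) :=
          Finset.sum_le_sum fun n _ => key n x
      _ = it σ 0 Ψ x - it σ N Ψ x := Finset.sum_range_sub' (fun n => it σ n Ψ x) N
      _ ≤ Ψ x := by
          have := it_nonneg σ N hΨ0 x
          simp only [it_zero]; linarith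
  have hs : ∀ x, Summable fun n => it σ n ρ x := by
    intro x
    refine Summable.of_abs ?_
    exact summable_of_sum_range_le (fun n => abs_nonneg _) (fun N => hsum N x)
  refine ⟨fun x => ∑' n, it σ n ρ x, fun x => ?_, fun x => ?_⟩
  · have h1 : |∑' n, it σ n ρ x| ≤ ∑' n, |it σ n ρ x| := by
      have := norm_tsum_le_tsum_norm (f := fun n => it σ n ρ x) (by simpa using (hs x).abs)
      simpa using this
    refine h1.trans ?_
    refine le_trans ?_ (hΨB x)
    exact Real.tsum_le_of_sum_range_le (fun n => abs_nonneg _) (fun N => hsum N x)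
  · have h1 : avg σ (fun x => ∑' n, it σ n ρ x) x = ∑' n, it σ (n + 1) ρ x := by
      simp only [avg]
      rw [← Summable.tsum_finsetSum (fun j _ => hs (x * σ j)), ← tsum_div_const]
      congr 1
      funext n
      rw [it_succ']
      rfl
    rw [h1]
    show (∑' n, it σ n ρ x) - _ = _
    rw [(hs x).tsum_eq_zero_add]
    simp

end Pool.Agent.LHF
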