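import Pool.Agent.LHF.Extend

set_option autoImplicit false
set_option linter.unusedSectionVars false
set_option linter.unusedVariables false
set_option linter.style.haveILetI false

namespace Pool.Agent.LHF

section conn
variable {G : Type*} [Group G]

/-- connectivity inside `A` using right multiplications by elements of `T` -/
def Conn (T A : Set G) : G → G → Prop :=
  Relation.ReflTransGen (fun x y => x ∈ A ∧ y ∈ A ∧ x⁻¹ * y ∈ T)

variable {T T' A A' : Set G} {x y z : G}

lemma Conn.refl (x : G) : Conn T A x x := Relation.ReflTransGen.refl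

lemma Conn.trans (h1 : Conn T A x y) (h2 : Conn T A y z) : Conn T A x z :=
  Relation.ReflTransGen.trans h1 h2

lemma Conn.single (hx : x ∈ A) (hy : y ∈ A) (h : x⁻¹ * y ∈ T) : Conn T A x y :=
  Relation.ReflTransGen.single ⟨hx, hy, h⟩

lemma Conn.step {s : G} (hx : x ∈ A) (hs : s ∈ T) (hy : x * s ∈ A) : Conn T A x (x * s) :=
  Conn.single hx hy (by simpa using hs)

lemma Conn.symm (hT : ∀ s ∈ T, s⁻¹ ∈ T) (h : Conn T A x y) : Conn T A y x := by
  induction h with
  | refl => exact Conn.refl x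
  | tail _ h2 ih =>
    obtain ⟨ha, hb, hc⟩ := h2
    refine Conn.trans (Conn.single hb ha ?_) ih
    have := hT _ hc
    simpa using this

lemma Conn.mono (hA : A ⊆ A') (h : Conn T A x y) : Conn T A' x y := by
  induction h with
  | refl => exact Conn.refl x
  | tail _ h2 ih => exact ih.trans (Conn.single (hA h2.1) (hA h2.2.1) h2.2.2)

lemma Conn.translate (g : G) (hA : ∀ z ∈ A, g * z ∈ A') (h : Conn T A x y) :
    Conn T A' (g * x) (g * y) := by
  induction h with
  | refl => exact Conn.refl _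
  | tail _ h2 ih =>
    rename_i b c _
    refine ih.trans (Conn.single (hA _ h2.1) (hA _ h2.2.1) ?_)
    have : (g * b)⁻¹ * (g * c) = b⁻¹ * c := by group
    rw [this]; exact h2.2.2

lemma Conn.change (hTA : ∀ x ∈ A, ∀ s ∈ T, x * s ∈ A → Conn T' A' x (x * s))
    (h : Conn T A x y) : Conn T' A' x y := by
  induction h with
  | refl => exact Conn.refl x
  | tail _ h2 ih =>
    rename_i b c _
    refine ih.trans ?_
    have h3 := hTA b h2.1 _ h2.2.2 (by rw [mul_inv_cancel_left]; exact h2.2.1)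
    rwa [mul_inv_cancel_left] at h3

lemma Conn.mem_right (h : Conn T A x y) (hx : x ∈ A) : y ∈ A := by
  induction h with
  | refl => exact hx
  | tail _ h2 ih => exact h2.2.1

/-- membership in a subgroup containing `T` propagates -/
lemma Conn.mem_subgroup {P : Subgroup G} (hT : T ⊆ P) (h : Conn T A x y) (hx : x ∈ P) :
    y ∈ P := by
  induction h with
  | refl => exact hx
  | tail _ h2 ih =>
    have := P.mul_mem ih (hT h2.2.2)
    simpa using this

lemma Conn.inter_subgroup {P : Subgroup G} (hT : T ⊆ P) (h : Conn T A x y) (hx : x ∈ P) :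
    Conn T {z | z ∈ P ∧ z ∈ A} x y := by
  induction h with
  | refl => exact Conn.refl x
  | tail h1 h2 ih =>
    rename_i b c
    have hb : b ∈ P := Conn.mem_subgroup hT h1 hx
    have hc : c ∈ P := Conn.mem_subgroup hT (Relation.ReflTransGen.tail h1 h2) hx
    exact ih.trans (Conn.single ⟨hb, h2.1⟩ ⟨hc, h2.2.1⟩ h2.2.2)

end conn

section words
variable {G : Type*} [Group G] {ι : Type*} [Fintype ι] [Nonempty ι]
variable {σ : ι → G} {h : G → ℝ}

lemma conn_of_pcost {x : G} {l : List ι} (hl : pcost σ h x l < 1) (hend : 0 ≤ h (x * wprod σ l)) :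
    Conn (Set.range σ) {z | 0 ≤ h z} x (x * wprod σ l) := by
  induction l generalizing x with
  | nil => simp only [wprod_nil, mul_one]; exact Conn.refl x
  | cons j l ih =>
    rw [pcost_cons] at hl
    have h0 := pcost_nonneg σ h (x * σ j) l
    have h1 : Real.exp (-h x) < 1 := by linarith
    rw [Real.exp_lt_one_iff] at h1
    have h2 : pcost σ h (x * σ j) l < 1 := by have := Real.exp_pos (-h x); linarith
    rw [wprod_cons, ← mul_assoc] at hend ⊢
    have h3 : 0 ≤ h (x * σ j) := by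
      cases l with
      | nil => simpa using hend
      | cons i l =>
        rw [pcost_cons] at h2
        have h4 := pcost_nonneg σ h (x * σ j * σ i) l
        have h5 : Real.exp (-h (x * σ j)) < 1 := by linarith
        rw [Real.exp_lt_one_iff] at h5; linarith
    refine Conn.trans (Conn.step ?_ ⟨j, rfl⟩ ?_) (ih h2 hend)
    · show 0 ≤ h x; linarith
    · exact h3

lemma conn_exists (h : G → ℝ) (hgen : ∀ g : G, ∃ l : List ι, wprod σ l = g) (x y : G) :
    ∃ D : ℝ, 0 ≤ D ∧ Conn (Set.range σ) {z | -D ≤ h z} x y := by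
  have key : ∀ (l : List ι) (x : G), ∃ D : ℝ, 0 ≤ D ∧
      Conn (Set.range σ) {z | -D ≤ h z} x (x * wprod σ l) := by
    intro l
    induction l with
    | nil => intro x; exact ⟨0, le_rfl, by simp only [wprod_nil, mul_one]; exact Conn.refl x⟩
    | cons j l ih =>
      intro x
      obtain ⟨D, hD0, hD⟩ := ih (x * σ j)
      refine ⟨D + |h x| + |h (x * σ j)|, by positivity, ?_⟩
      rw [wprod_cons, ← mul_assoc]
      refine Conn.trans (Conn.step ?_ ⟨j, rfl⟩ ?_) (hD.mono ?_)
      · show -(D + |h x| + |h (x * σ j)|) ≤ h x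
        have := neg_abs_le (h x); have := abs_nonneg (h (x * σ j)); linarith
      · show -(D + |h x| + |h (x * σ j)|) ≤ h (x * σ j)
        have := neg_abs_le (h (x * σ j)); have := abs_nonneg (h x); linarith
      · intro z hz
        have hz' : -D ≤ h z := hz
        show -(D + |h x| + |h (x * σ j)|) ≤ h z
        have := abs_nonneg (h (x * σ j)); have := abs_nonneg (h x); linarith
  obtain ⟨l, hl⟩ := hgen (x⁻¹ * y)
  obtain ⟨D, hD0, hD⟩ := key l x
  exact ⟨D, hD0, by rwa [hl, mul_inv_cancel_left] at hD⟩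

/-- reachability of the kernel in a half-space, in the ambient group -/
theorem reach_of_finHF (hFin : FinHF σ) {τ : ι ≃ ι} (hτ : ∀ j, σ (τ j) = (σ j)⁻¹) {i0 : ι}
    (hi0 : σ i0 = 1) (hgen : ∀ g : G, ∃ l : List ι, wprod σ l = g)
    {H : Subgroup G} (hH : H.FiniteIndex) (hharm : ∀ x, avg σ h x = h x)
    (heq : ∀ g ∈ H, ∀ x, h (g * x) = h g + h x) {t : G} (ht : t ∈ H) (htpos : 0 < h t) :
    ∃ D : ℝ, 0 ≤ D ∧ ∀ p ∈ H, h p = 0 → Conn (Set.range σ) {z | -D ≤ h z} 1 p := by
  have hsym : ∀ s ∈ Set.range σ, s⁻¹ ∈ Set.range σ := by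
    rintro _ ⟨j, rfl⟩; exact ⟨τ j, hτ j⟩
  obtain ⟨D, hD0, hD⟩ := conn_exists h hgen 1 t
  refine ⟨D, hD0, fun p hp hp0 => ?_⟩
  have htk : ∀ k : ℕ, t ^ k ∈ H := fun k => H.pow_mem ht k
  have hhk : ∀ k : ℕ, h (t ^ k) = k * h t := h_pow heq ht
  have h1 : ∀ k : ℕ, Conn (Set.range σ) {z | -D ≤ h z} 1 (t ^ k) := by
    intro k
    induction k with
    | zero => rw [pow_zero]; exact Conn.refl 1
    | succ k ih =>
      have h2 := hD.translate (A' := {z | -D ≤ h z}) (t ^ k) (by
        intro z hz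
        have hz' : -D ≤ h z := hz
        show -D ≤ h (t ^ k * z)
        rw [heq _ (htk k), hhk]
        have : (0 : ℝ) ≤ k * h t := by positivity
        linarith)
      rw [mul_one, ← pow_succ] at h2
      exact ih.trans h2
  have h2 : ¬ ∀ (k : ℕ) (l : List ι), t ^ k * wprod σ l = p * t ^ k → 1 ≤ pcost σ h (t ^ k) l := by
    intro hcon
    exact theoremU hτ hi0 hgen hH hharm heq ht hp htpos one_pos hcon hFin
  push Not at h2
  obtain ⟨k, l, hl, hcost⟩ := h2
  have h3 := conn_of_pcost hcost (by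
    rw [hl, heq p hp, hhk, hp0]; have : (0 : ℝ) ≤ k * h t := by positivity
    linarith)
  rw [hl] at h3
  have h4 : Conn (Set.range σ) {z | -D ≤ h z} (t ^ k) (p * t ^ k) := h3.mono (by
    intro z hz
    have hz' : 0 ≤ h z := hz
    show -D ≤ h z
    linarith)
  have h5 := (h1 k).symm hsym
  have h6 := h5.translate (A' := {z | -D ≤ h z}) p (by
    intro z hz
    have hz' : -D ≤ h z := hz
    show -D ≤ h (p * z)
    rw [heq p hp, hp0]; linarith)
  rw [mul_one] at h6
  exact (h1 k).trans (h4.trans h6)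

/-- A homomorphism `χ` (on the subgroup `P`) is good: commutators (in fact a given subset `K`)
are reachable in a half-space. -/
def Good (P : Subgroup G) (χ : G → ℝ) (K : Set G) : Prop :=
  ∃ T : Set G, T.Finite ∧ T ⊆ P ∧ ∃ D : ℝ, ∀ p ∈ K, Conn T {z | z ∈ P ∧ -D ≤ χ z} 1 p

theorem good_of_finHF (hFin : FinHF σ) {τ : ι ≃ ι} (hτ : ∀ j, σ (τ j) = (σ j)⁻¹) {i0 : ι}
    (hi0 : σ i0 = 1) (hgen : ∀ g : G, ∃ l : List ι, wprod σ l = g)
    {H : Subgroup G} (hH : H.FiniteIndex) {χ : G → ℝ}
    (hχ : ∀ a ∈ H, ∀ b ∈ H, χ (a * b) = χ a + χ b) (hne : ∃ t ∈ H, χ t ≠ 0) :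
    Good H χ {p | p ∈ H ∧ χ p = 0} := by
  classical
  obtain ⟨h, hharm, hres, heq⟩ := exists_harmonic_extension hτ hgen hH χ hχ
  obtain ⟨t, ht, htpos⟩ : ∃ t ∈ H, 0 < h t := by
    obtain ⟨t, ht, htne⟩ := hne
    rcases lt_or_gt_of_ne htne with hlt | hgt
    · refine ⟨t⁻¹, H.inv_mem ht, ?_⟩
      rw [h_inv heq ht, hres t ht]; linarith
    · exact ⟨t, ht, by rwa [hres t ht]⟩
  obtain ⟨D, hD0, hD⟩ := reach_of_finHF hFin hτ hi0 hgen hH hharm heq ht htpos
  obtain ⟨Rp, hRp⟩ := exists_reps H hH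
  -- decomposition sending elements of H to themselves
  have hdec : ∀ x : G, ∃ g ∈ H, ∃ r ∈ insert 1 Rp, x = g * r ∧ (x ∈ H → r = 1) := by
    intro x
    by_cases hx : x ∈ H
    · exact ⟨x, hx, 1, Finset.mem_insert_self _ _, by simp, fun _ => rfl⟩
    · obtain ⟨g, hg, r, hr, h1⟩ := hRp x
      exact ⟨g, hg, r, Finset.mem_insert_of_mem hr, h1, fun h => absurd h hx⟩
  choose g hg r hr hgr hr1 using hdec
  set B := ∑ r ∈ insert 1 Rp, |h r| with hB
  have hBr : ∀ x, |h (r x)| ≤ B := fun x =>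
    Finset.single_le_sum (f := fun r => |h r|) (fun _ _ => abs_nonneg _) (hr x)
  set T : Set G := {s | s ∈ H ∧ s ∈ Finset.image (fun q : (G × G) × ι =>
    q.1.1 * σ q.2 * q.1.2⁻¹) (((insert 1 Rp) ×ˢ (insert 1 Rp)) ×ˢ Finset.univ)} with hT
  refine ⟨T, ?_, fun s hs => hs.1, D + B, ?_⟩
  · exact (Finset.finite_toSet _).subset (fun s hs => hs.2)
  · rintro p ⟨hp, hp0⟩
    have hp0' : h p = 0 := by rw [hres p hp, hp0]
    have hconn := hD p hp hp0'
    have hgx : ∀ x, -D ≤ h x → g x ∈ {z | z ∈ H ∧ -(D + B) ≤ χ z} := by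
      intro x hx
      refine ⟨hg x, ?_⟩
      have h1 : h x = h (g x) + h (r x) := by
        conv_lhs => rw [hgr x]
        rw [heq _ (hg x)]
      rw [← hres _ (hg x)]
      have := (abs_le.mp (hBr x)).2
      linarith
    have key : ∀ {x y : G}, Conn (Set.range σ) {z | -D ≤ h z} x y →
        Conn T {z | z ∈ H ∧ -(D + B) ≤ χ z} (g x) (g y) := by
      intro x y hxy
      induction hxy with
      | refl => exact Conn.refl _
      | tail _ h2 ih =>
        rename_i b c _
        refine ih.trans (Conn.single (hgx b h2.1) (hgx c h2.2.1) ?_)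
        refine ⟨H.mul_mem (H.inv_mem (hg b)) (hg c), ?_⟩
        obtain ⟨j, hj⟩ := h2.2.2
        rw [Finset.mem_image]
        refine ⟨((r b, r c), j), ?_, ?_⟩
        · simp only [Finset.mem_product, Finset.mem_univ, and_true]
          exact ⟨hr b, hr c⟩
        · simp only
          have e1 : g b = b * (r b)⁻¹ := by rw [eq_mul_inv_iff_mul_eq]; exact (hgr b).symm
          have e2 : g c = c * (r c)⁻¹ := by rw [eq_mul_inv_iff_mul_eq]; exact (hgr c).symm
          rw [e1, e2, hj]; group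
    have h1 := key hconn
    have hgH : ∀ x ∈ H, g x = x := by
      intro x hx
      have := hgr x
      rw [hr1 x hx, mul_one] at this
      exact this.symm
    rwa [hgH 1 H.one_mem, hgH p hp] at h1

end words

end Pool.Agent.LHF
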