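import Pool.Agent.LHF.Basic

set_option autoImplicit false
set_option linter.unusedSectionVars false

namespace Pool.Agent.LHF

variable {G : Type*} [Group G] {ι : Type*} [Fintype ι] [Nonempty ι]

lemma exp_sub_one_sub_nonneg (y : ℝ) : 0 ≤ Real.exp y - 1 - y := by
  have := Real.add_one_le_exp y; linarith

lemma exp_sub_one_sub_ge (y b : ℝ) (hb : 0 ≤ b) (hy : b ≤ |y|) :
    min 1 (b ^ 2 / 4) ≤ Real.exp y - 1 - y := by
  by_cases h : -2 ≤ y
  · have h1 : 1 + y / 2 ≤ Real.exp (y / 2) := by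
      have := Real.add_one_le_exp (y / 2); linarith
    have h2 : Real.exp y = Real.exp (y / 2) ^ 2 := by
      rw [← Real.exp_nat_mul]; congr 1; push_cast; ring
    have h3 : (1 + y / 2) ^ 2 ≤ Real.exp (y / 2) ^ 2 := by
      apply pow_le_pow_left₀ (by linarith) h1
    have h4 : b ^ 2 ≤ y ^ 2 := by
      rw [← sq_abs y]; exact pow_le_pow_left₀ hb hy 2
    refine (min_le_right _ _).trans ?_
    rw [h2]; nlinarith
  · push Not at h
    refine (min_le_left _ _).trans ?_
    have := Real.exp_pos y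
    linarith

section core
variable (σ : ι → G) (h R : G → ℝ) (L C : ℝ)

/-- basic growth hypotheses -/
structure Growth : Prop where
  L0 : 0 ≤ L
  C0 : 0 ≤ C
  harm : ∀ x, avg σ h x = h x
  hlip : ∀ x j, |h (x * σ j) - h x| ≤ L
  R0 : ∀ x, 0 ≤ R x
  Rlip : ∀ x j, |R (x * σ j) - R x| ≤ C * Real.exp (-h x)

/-- `1 + R + e^{-h}` -/
noncomputable def FF (x : G) : ℝ := 1 + R x + Real.exp (-h x)
/-- its logarithm -/
noncomputable def DD (x : G) : ℝ := Real.log (FF h R x)
/-- `exp (-(D+h)/2)` -/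
noncomputable def YY (x : G) : ℝ := Real.exp (-(DD h R x + h x) / 2)
/-- constant `C3` -/
noncomputable def C3 : ℝ := (C + Real.exp L) * (1 + (C + Real.exp L) * Real.exp L)

variable {σ h R L C}
variable (hg : Growth σ h R L C)
include hg

lemma Growth.one_le_FF (x : G) : 1 ≤ FF h R x := by
  have := hg.R0 x; have := Real.exp_pos (-h x); unfold FF; linarith

lemma Growth.FF_pos (x : G) : 0 < FF h R x := lt_of_lt_of_le one_pos (hg.one_le_FF x)

lemma Growth.exp_le_FF (x : G) : Real.exp (-h x) ≤ FF h R x := by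
  have := hg.R0 x; unfold FF; linarith

lemma Growth.DD_nonneg (x : G) : 0 ≤ DD h R x := Real.log_nonneg (hg.one_le_FF x)

lemma Growth.exp_DD (x : G) : Real.exp (DD h R x) = FF h R x := Real.exp_log (hg.FF_pos x)

lemma Growth.neg_le_DD (x : G) : -h x ≤ DD h R x := by
  rw [← Real.exp_le_exp, hg.exp_DD]; exact hg.exp_le_FF x

lemma Growth.YY_pos (x : G) : 0 < YY h R x := Real.exp_pos _

lemma Growth.YY_le_one (x : G) : YY h R x ≤ 1 := by
  unfold YY
  rw [Real.exp_le_one_iff]
  have := hg.neg_le_DD x; linarith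

lemma Growth.YY_sq (x : G) : YY h R x ^ 2 * FF h R x = Real.exp (-h x) := by
  rw [YY, ← Real.exp_nat_mul, ← hg.exp_DD, ← Real.exp_add]
  congr 1; push_cast; ring

lemma Growth.YY_sq_le (x : G) : YY h R x ^ 2 ≤ YY h R x := by
  have h1 := hg.YY_le_one x; have h2 := hg.YY_pos x; nlinarith

lemma Growth.exp_step (x : G) (j : ι) :
    Real.exp (-h (x * σ j)) ≤ Real.exp L * Real.exp (-h x) := by
  rw [← Real.exp_add, Real.exp_le_exp]
  have := (abs_le.mp (hg.hlip x j)).1; linarith

lemma Growth.exp_step' (x : G) (j : ι) :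
    Real.exp (-h x) ≤ Real.exp L * Real.exp (-h (x * σ j)) := by
  rw [← Real.exp_add, Real.exp_le_exp]
  have := (abs_le.mp (hg.hlip x j)).2; linarith

lemma Growth.FF_step (x : G) (j : ι) :
    |FF h R (x * σ j) - FF h R x| ≤ (C + Real.exp L) * Real.exp (-h x) := by
  have h1 := hg.Rlip x j
  have h2 := hg.exp_step x j
  have h3 := Real.exp_pos (-h x)
  have h4 := Real.exp_pos (-h (x * σ j))
  have h5 : 1 ≤ Real.exp L := Real.one_le_exp hg.L0
  rw [abs_le] at h1 ⊢
  unfold FF
  constructor <;> nlinarith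

lemma Growth.C1_pos : 0 < C + Real.exp L := by
  have := hg.C0; have := Real.exp_pos L; linarith

lemma Growth.C3_pos : 0 < C3 L C := by
  have := hg.C1_pos; have := Real.exp_pos L; unfold C3; positivity

lemma Growth.FF_down (x : G) (j : ι) :
    FF h R x ≤ (1 + (C + Real.exp L) * Real.exp L) * FF h R (x * σ j) := by
  have h1 := (abs_le.mp (hg.FF_step x j)).1
  have h2 := hg.exp_step' x j
  have h3 := hg.exp_le_FF (x * σ j)
  have h4 := hg.C1_pos
  have h5 := Real.exp_pos L
  have h6 : (C + Real.exp L) * Real.exp (-h x) ≤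
      (C + Real.exp L) * (Real.exp L * FF h R (x * σ j)) := by
    gcongr
    exact h2.trans (by gcongr)
  nlinarith

lemma Growth.DD_step (x : G) (j : ι) :
    |DD h R (x * σ j) - DD h R x| ≤ C3 L C * YY h R x ^ 2 := by
  have hC1 := hg.C1_pos
  have hL := Real.exp_pos L
  have hF := hg.FF_pos x
  have hF' := hg.FF_pos (x * σ j)
  have hs := abs_le.mp (hg.FF_step x j)
  have hY := hg.YY_sq x
  have hY2 : YY h R x ^ 2 = Real.exp (-h x) / FF h R x := by
    field_simp; linarith
  have he := Real.exp_pos (-h x)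
  have hy0 : 0 ≤ YY h R x ^ 2 := by positivity
  rw [abs_le]
  constructor
  · -- D x - D(xs) ≤ F x / F (xs) - 1
    have h1 : DD h R x - DD h R (x * σ j) ≤ FF h R x / FF h R (x * σ j) - 1 := by
      unfold DD
      rw [← Real.log_div hF.ne' hF'.ne']
      have := Real.log_le_sub_one_of_pos (div_pos hF hF')
      linarith
    have h2 : FF h R x / FF h R (x * σ j) - 1 ≤
        ((C + Real.exp L) * Real.exp (-h x)) / FF h R (x * σ j) := by
      rw [div_sub_one hF'.ne']
      gcongr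
      linarith
    have h3 : ((C + Real.exp L) * Real.exp (-h x)) / FF h R (x * σ j) ≤
        C3 L C * YY h R x ^ 2 := by
      rw [div_le_iff₀ hF', hY2]
      have h4 := hg.FF_down x j
      have h5 : (C + Real.exp L) * Real.exp (-h x) =
        ((C + Real.exp L) * Real.exp (-h x)) / FF h R x * FF h R x := by field_simp
      rw [h5]
      have h6 : ((C + Real.exp L) * Real.exp (-h x)) / FF h R x * FF h R x ≤
        ((C + Real.exp L) * Real.exp (-h x)) / FF h R x *
          ((1 + (C + Real.exp L) * Real.exp L) * FF h R (x * σ j)) := by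
        gcongr
      refine h6.trans (le_of_eq ?_)
      unfold C3; ring
    linarith
  · have h1 : DD h R (x * σ j) - DD h R x ≤ FF h R (x * σ j) / FF h R x - 1 := by
      unfold DD
      rw [← Real.log_div hF'.ne' hF.ne']
      exact Real.log_le_sub_one_of_pos (div_pos hF' hF)
    have h2 : FF h R (x * σ j) / FF h R x - 1 ≤
        ((C + Real.exp L) * Real.exp (-h x)) / FF h R x := by
      rw [div_sub_one hF.ne']
      gcongr
      linarith
    have h3 : ((C + Real.exp L) * Real.exp (-h x)) / FF h R x =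
        (C + Real.exp L) * YY h R x ^ 2 := by
      rw [hY2]; ring
    have h4 : (C + Real.exp L) * YY h R x ^ 2 ≤ C3 L C * YY h R x ^ 2 := by
      apply mul_le_mul_of_nonneg_right _ hy0
      unfold C3
      nlinarith [mul_pos hC1 (mul_pos hC1 hL)]
    linarith

lemma Growth.DD_step_const (x : G) (j : ι) :
    |DD h R (x * σ j) - DD h R x| ≤ C3 L C := by
  have h1 := hg.DD_step x j
  have h2 := hg.YY_le_one x
  have h3 := hg.YY_pos x
  have h4 := hg.C3_pos
  have h5 : YY h R x ^ 2 ≤ 1 := by nlinarith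
  nlinarith

lemma Growth.YY_step_up (x : G) (j : ι) :
    YY h R (x * σ j) ≤ Real.exp ((L + C3 L C) / 2) * YY h R x := by
  unfold YY
  rw [← Real.exp_add, Real.exp_le_exp]
  have h1 := abs_le.mp (hg.DD_step_const x j)
  have h2 := abs_le.mp (hg.hlip x j)
  linarith [h1.1, h1.2, h2.1, h2.2]

lemma Growth.YY_step_low (x : G) (j : ι) :
    YY h R x * Real.exp (-(C3 L C * YY h R x ^ 2) / 2) *
      Real.exp (-(h (x * σ j) - h x) / 2) ≤ YY h R (x * σ j) := by
  have h1 := abs_le.mp (hg.DD_step x j)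
  have h2 : YY h R x * Real.exp (-(C3 L C * YY h R x ^ 2) / 2) *
      Real.exp (-(h (x * σ j) - h x) / 2) =
      Real.exp (-(DD h R x + h x) / 2 + -(C3 L C * YY h R x ^ 2) / 2 +
        -(h (x * σ j) - h x) / 2) := by
    rw [Real.exp_add, Real.exp_add]; rfl
  rw [h2]
  conv_rhs => rw [YY]
  rw [Real.exp_le_exp]
  linarith [h1.1, h1.2]

omit hg in
/-- The strict Jensen inequality for the increments of `h`. -/
lemma jensen (hharm : ∀ x, avg σ h x = h x) {a : ℝ} (ha : 0 < a) (x : G)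
    (hx : ∃ j, a ≤ |h (x * σ j) - h x|) :
    1 + min 1 (a ^ 2 / 16) / (Fintype.card ι : ℝ) ≤
      (∑ j, Real.exp (-(h (x * σ j) - h x) / 2)) / (Fintype.card ι : ℝ) := by
  have hc := card_pos' (ι := ι)
  obtain ⟨j0, hj0⟩ := hx
  have h1 : ∑ j, (h (x * σ j) - h x) = 0 := by
    have := hharm x
    rw [avg_def, div_eq_iff hc.ne'] at this
    rw [Finset.sum_sub_distrib, this]
    simp; ring
  have h2 : min 1 (a ^ 2 / 16) ≤
      ∑ j, (Real.exp (-(h (x * σ j) - h x) / 2) - 1 - (-(h (x * σ j) - h x) / 2)) := by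
    refine le_trans ?_ (Finset.single_le_sum
      (f := fun j => (Real.exp (-(h (x * σ j) - h x) / 2) - 1 - (-(h (x * σ j) - h x) / 2)))
      (fun i _ => exp_sub_one_sub_nonneg _) (Finset.mem_univ j0))
    have h3 := exp_sub_one_sub_ge (-(h (x * σ j0) - h x) / 2) (a / 2) (by positivity)
      (by rw [abs_div, abs_neg, abs_two]; linarith)
    refine le_trans (le_of_eq ?_) h3
    congr 1; ring
  have h4 : ∑ j, (Real.exp (-(h (x * σ j) - h x) / 2) - 1 - (-(h (x * σ j) - h x) / 2)) =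
      (∑ j, Real.exp (-(h (x * σ j) - h x) / 2)) - Fintype.card ι := by
    rw [Finset.sum_sub_distrib, Finset.sum_sub_distrib]
    have : ∑ j, (-(h (x * σ j) - h x) / 2) = 0 := by
      rw [← Finset.sum_div, Finset.sum_neg_distrib, h1]; simp
    rw [this]; simp
  rw [h4] at h2
  rw [le_div_iff₀ hc, add_mul, div_mul_cancel₀ _ hc.ne']
  linarith

lemma Growth.avg_YY {ca : ℝ} (x : G)
    (hJ : 1 + ca ≤ (∑ j, Real.exp (-(h (x * σ j) - h x) / 2)) / (Fintype.card ι : ℝ)) 
    (hca : 0 ≤ ca) :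
    YY h R x * (1 - C3 L C * YY h R x ^ 2 / 2) * (1 + ca) ≤ avg σ (YY h R) x := by
  have hc := card_pos' (ι := ι)
  have hY := hg.YY_pos x
  have h1 : YY h R x * Real.exp (-(C3 L C * YY h R x ^ 2) / 2) *
      ((∑ j, Real.exp (-(h (x * σ j) - h x) / 2)) / (Fintype.card ι : ℝ)) ≤
      avg σ (YY h R) x := by
    rw [avg_def, ← mul_div_assoc, Finset.mul_sum]
    gcongr with j hj
    exact hg.YY_step_low x j
  refine le_trans ?_ h1
  have h2 : (1 - C3 L C * YY h R x ^ 2 / 2) ≤ Real.exp (-(C3 L C * YY h R x ^ 2) / 2) := by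
    have := Real.add_one_le_exp (-(C3 L C * YY h R x ^ 2) / 2); linarith
  have h3 : 0 < Real.exp (-(C3 L C * YY h R x ^ 2) / 2) := Real.exp_pos _
  calc YY h R x * (1 - C3 L C * YY h R x ^ 2 / 2) * (1 + ca)
      ≤ YY h R x * Real.exp (-(C3 L C * YY h R x ^ 2) / 2) * (1 + ca) := by gcongr
    _ ≤ _ := by gcongr

/-- `D + Y` has positive drift where `Y` is small. -/
lemma Growth.drift_D1 {ca : ℝ} (hca : 0 < ca) (x : G)
    (hJ : 1 + ca ≤ (∑ j, Real.exp (-(h (x * σ j) - h x) / 2)) / (Fintype.card ι : ℝ))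
    (hY1 : C3 L C * YY h R x * (1 + (1 + ca) / 2) ≤ ca / 2) :
    DD h R x + YY h R x + ca / 2 * YY h R x ≤ avg σ (fun y => DD h R y + YY h R y) x := by
  rw [avg_add]
  have h1 := hg.avg_YY x hJ hca.le
  have h2 : DD h R x - C3 L C * YY h R x ^ 2 ≤ avg σ (DD h R) x := by
    apply le_avg
    intro j
    have := (abs_le.mp (hg.DD_step x j)).1; linarith
  have hY := hg.YY_pos x
  have hYl := hg.YY_sq_le x
  have hC := hg.C3_pos
  have h3 : C3 L C * YY h R x ^ 2 * YY h R x ≤ C3 L C * YY h R x ^ 2 := by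
    have := hg.YY_le_one x
    have h0 : 0 ≤ C3 L C * YY h R x ^ 2 := by positivity
    nlinarith
  have h4 : (C3 L C * YY h R x * (1 + (1 + ca) / 2)) * YY h R x ≤ ca / 2 * YY h R x := by
    gcongr
  nlinarith [mul_le_mul_of_nonneg_left h3 (by positivity : 0 ≤ (1 + ca) / 2)]

end core

end Pool.Agent.LHF
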