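import Pool.Agent.LHF.Harm

set_option autoImplicit false
set_option linter.unusedSectionVars false
set_option linter.unusedVariables false

namespace Pool.Agent.LHF

variable {G : Type*} [Group G] {ι : Type*} [Fintype ι]

/-- cost of the path starting at `x` and following the word `l` -/
noncomputable def pcost (σ : ι → G) (h : G → ℝ) : G → List ι → ℝ
  | _, [] => 0
  | x, j :: l => Real.exp (-h x) + pcost σ h (x * σ j) l

section
variable (σ : ι → G) (h : G → ℝ)

@[simp] lemma pcost_nil (x : G) : pcost σ h x [] = 0 := rfl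

lemma pcost_cons (x : G) (j : ι) (l : List ι) :
    pcost σ h x (j :: l) = Real.exp (-h x) + pcost σ h (x * σ j) l := rfl

lemma pcost_nonneg (x : G) (l : List ι) : 0 ≤ pcost σ h x l := by
  induction l generalizing x with
  | nil => simp
  | cons j l ih =>
    rw [pcost_cons]
    have := Real.exp_pos (-h x); have := ih (x * σ j); linarith

lemma pcost_append (x : G) (l l' : List ι) :
    pcost σ h x (l ++ l') = pcost σ h x l + pcost σ h (x * wprod σ l) l' := by
  induction l generalizing x with
  | nil => simp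
  | cons j l ih =>
    rw [List.cons_append, pcost_cons, pcost_cons, ih, wprod_cons, mul_assoc x, add_assoc]

/-- the cost distance -/
noncomputable def dc (x y : G) : ℝ :=
  sInf {c | ∃ l : List ι, x * wprod σ l = y ∧ pcost σ h x l = c}

lemma dc_bdd (x y : G) : BddBelow {c | ∃ l : List ι, x * wprod σ l = y ∧ pcost σ h x l = c} :=
  ⟨0, by rintro _ ⟨l, -, rfl⟩; exact pcost_nonneg σ h x l⟩

lemma dc_nonneg (x y : G) : 0 ≤ dc σ h x y :=
  Real.sInf_nonneg (by rintro _ ⟨l, -, rfl⟩; exact pcost_nonneg σ h x l)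

lemma dc_le (x : G) (l : List ι) : dc σ h x (x * wprod σ l) ≤ pcost σ h x l :=
  csInf_le (dc_bdd σ h x _) ⟨l, rfl, rfl⟩

lemma dc_self (x : G) : dc σ h x x = 0 := by
  apply le_antisymm
  · have := dc_le σ h x []
    simpa using this
  · exact dc_nonneg σ h x x

variable {σ}
variable (hgen : ∀ g : G, ∃ l : List ι, wprod σ l = g)
include hgen

lemma dc_nonempty (x y : G) :
    {c | ∃ l : List ι, x * wprod σ l = y ∧ pcost σ h x l = c}.Nonempty := by
  obtain ⟨l, hl⟩ := hgen (x⁻¹ * y)
  exact ⟨_, l, by rw [hl]; group, rfl⟩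

lemma dc_exists (x y : G) {ε : ℝ} (hε : 0 < ε) :
    ∃ l : List ι, x * wprod σ l = y ∧ pcost σ h x l < dc σ h x y + ε := by
  obtain ⟨_, ⟨l, hl, rfl⟩, hlt⟩ := exists_lt_of_csInf_lt (dc_nonempty h hgen x y)
    (show sInf _ < dc σ h x y + ε by unfold dc; linarith)
  exact ⟨l, hl, hlt⟩

lemma le_dc {x y : G} {c : ℝ} (hc : ∀ l : List ι, x * wprod σ l = y → c ≤ pcost σ h x l) :
    c ≤ dc σ h x y :=
  le_csInf (dc_nonempty h hgen x y) (by rintro _ ⟨l, hl, rfl⟩; exact hc l hl)

lemma dc_triangle (x y z : G) : dc σ h x z ≤ dc σ h x y + dc σ h y z := by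
  apply le_of_forall_pos_le_add
  intro ε hε
  obtain ⟨l, hl, hl'⟩ := dc_exists h hgen x y (half_pos hε)
  obtain ⟨m, hm, hm'⟩ := dc_exists h hgen y z (half_pos hε)
  have h1 := dc_le σ h x (l ++ m)
  rw [pcost_append, wprod_append, ← mul_assoc, hl, hm] at h1
  linarith

lemma dc_step (x y : G) (j : ι) : dc σ h x (y * σ j) ≤ dc σ h x y + Real.exp (-h y) := by
  refine (dc_triangle h hgen x y _).trans ?_
  have := dc_le σ h y [j]
  simp only [wprod_cons, wprod_nil, mul_one, pcost_cons, pcost_nil, add_zero] at this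
  linarith

variable {h}

lemma dc_symm {τ : ι → ι} (hτ : ∀ j, σ (τ j) = (σ j)⁻¹) {L : ℝ}
    (hL : ∀ x j, |h (x * σ j) - h x| ≤ L) (x y : G) :
    dc σ h y x ≤ Real.exp L * dc σ h x y := by
  have key : ∀ (l : List ι) (x : G), dc σ h (x * wprod σ l) x ≤ Real.exp L * pcost σ h x l := by
    intro l
    induction l with
    | nil => intro x; simp [dc_self]
    | cons j l ih =>
      intro x
      have h1 := dc_step h hgen (x * wprod σ (j :: l)) (x * σ j) (τ j)
      rw [hτ, mul_inv_cancel_right] at h1
      have h2 := ih (x * σ j)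
      rw [mul_assoc, ← wprod_cons] at h2
      rw [pcost_cons]
      have h3 : Real.exp (-h (x * σ j)) ≤ Real.exp L * Real.exp (-h x) := by
        rw [← Real.exp_add]
        apply Real.exp_le_exp.mpr
        have := (abs_le.mp (hL x j)).1; linarith
      linarith
  apply le_of_forall_pos_le_add
  intro ε hε
  obtain ⟨l, hl, hl'⟩ := dc_exists h hgen x y (ε := ε * Real.exp (-L)) (by positivity)
  have h1 := key l x
  rw [hl] at h1
  refine h1.trans ?_
  calc Real.exp L * pcost σ h x l ≤ Real.exp L * (dc σ h x y + ε * Real.exp (-L)) := by gcongr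
    _ = Real.exp L * dc σ h x y + ε * (Real.exp L * Real.exp (-L)) := by ring
    _ = Real.exp L * dc σ h x y + ε := by rw [← Real.exp_add]; simp

lemma pcost_translate {g : G} (hg : ∀ x, h (g * x) = h g + h x) (x : G) (l : List ι) :
    pcost σ h (g * x) l = Real.exp (-h g) * pcost σ h x l := by
  induction l generalizing x with
  | nil => simp
  | cons j l ih =>
    rw [pcost_cons, pcost_cons, mul_assoc, ih, hg, neg_add, Real.exp_add]; ring

lemma dc_translate_ge {g : G} (hg : ∀ x, h (g * x) = h g + h x) (x y : G) :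
    Real.exp (-h g) * dc σ h x y ≤ dc σ h (g * x) (g * y) := by
  apply le_dc h hgen
  intro l hl
  rw [pcost_translate hgen hg]
  have h1 := dc_le σ h x l
  have h2 : x * wprod σ l = y := by
    rw [mul_assoc] at hl; exact mul_left_cancel hl
  rw [h2] at h1
  gcongr

lemma dc_translate {g : G} (hg : ∀ x, h (g * x) = h g + h x) (x y : G) :
    dc σ h (g * x) (g * y) = Real.exp (-h g) * dc σ h x y := by
  apply le_antisymm
  · have h1 : h 1 = 0 := by have := hg 1; rw [mul_one] at this; linarith
    have hinv : h g⁻¹ = - h g := by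
      have := hg g⁻¹; rw [mul_inv_cancel] at this; linarith
    have hg' : ∀ x, h (g⁻¹ * x) = h g⁻¹ + h x := by
      intro x
      have := hg (g⁻¹ * x)
      rw [mul_inv_cancel_left] at this; linarith
    have h2 := dc_translate_ge hgen hg' (g * x) (g * y)
    rw [inv_mul_cancel_left, inv_mul_cancel_left, hinv, neg_neg] at h2
    calc dc σ h (g * x) (g * y)
        = Real.exp (-h g) * (Real.exp (h g) * dc σ h (g * x) (g * y)) := by
          rw [← mul_assoc, ← Real.exp_add]; simp
      _ ≤ _ := by gcongr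
  · exact dc_translate_ge hgen hg x y

end

/-- `Fin` property: all Lipschitz harmonic functions live in a finite-dimensional space -/
def FinHF (σ : ι → G) : Prop :=
  ∃ V : Submodule ℝ (G → ℝ), FiniteDimensional ℝ V ∧
    ∀ f : G → ℝ, avg σ f = f → (∃ K, ∀ x j, |f (x * σ j) - f x| ≤ K) → f ∈ V

end Pool.Agent.LHF
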