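import Pool.Agent.LHF.Affine

set_option autoImplicit false
set_option linter.unusedSectionVars false
set_option linter.unusedVariables false
set_option linter.style.haveILetI false

namespace Pool.Agent.LHF

open scoped commutatorElement

variable {G : Type*} [Group G] {K : Type*} [Field K]

section
variable {H : Subgroup G} {lam : G → K}
  (hlam : ∀ g ∈ H, ∀ h ∈ H, lam (g * h) = lam g * lam h) (hlam1 : lam 1 = 1)

include hlam hlam1

lemma lam_inv {g : G} (hg : g ∈ H) : lam g * lam g⁻¹ = 1 := by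
  rw [← hlam g hg _ (H.inv_mem hg), mul_inv_cancel, hlam1]

lemma lam_inv' {g : G} (hg : g ∈ H) : lam g⁻¹ * lam g = 1 := by
  rw [← hlam _ (H.inv_mem hg) g hg, inv_mul_cancel, hlam1]

lemma lam_comm {g h : G} (hg : g ∈ H) (hh : h ∈ H) : lam ⁅g, h⁆ = 1 := by
  rw [commutatorElement_def, hlam _ (H.mul_mem (H.mul_mem hg hh) (H.inv_mem hg)) _ (H.inv_mem hh),
    hlam _ (H.mul_mem hg hh) _ (H.inv_mem hg), hlam g hg h hh]
  have h1 := lam_inv hlam hlam1 hg
  have h2 := lam_inv hlam hlam1 hh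
  calc lam g * lam h * lam g⁻¹ * lam h⁻¹ = (lam g * lam g⁻¹) * (lam h * lam h⁻¹) := by ring
    _ = 1 := by rw [h1, h2, one_mul]

/-- crossed homomorphisms vanishing on `L k` are coboundaries -/
lemma crossed_coboundary {L : ℕ → Subgroup G} {k : ℕ} (hL0 : L 0 = H)
    (hLH : ∀ i, L i ≤ H)
    (hLcomm : ∀ i < k, ∀ h ∈ H, ∀ u ∈ L i, ⁅h, u⁆ ∈ L (i + 1))
    (hlamB : ∀ a ∈ L k, lam a = 1)
    {φ : G → K} (hφ : ∀ g ∈ H, ∀ h ∈ H, φ (g * h) = φ g + lam g * φ h)
    (hφB : ∀ a ∈ L k, φ a = 0) {z : G} (hz : z ∈ H) (hz1 : lam z ≠ 1) :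
    ∀ h ∈ H, φ h = (lam h - 1) * (φ z / (lam z - 1)) := by
  have hμ : lam z - 1 ≠ 0 := sub_ne_zero.mpr hz1
  set c := φ z / (lam z - 1) with hc
  set ψ : G → K := fun h => φ h - (lam h - 1) * c with hψdef
  have hψ : ∀ g ∈ H, ∀ h ∈ H, ψ (g * h) = ψ g + lam g * ψ h := by
    intro g hg h hh
    simp only [hψdef]
    rw [hφ g hg h hh, hlam g hg h hh]; ring
  have hψz : ψ z = 0 := by
    simp only [hψdef, hc]; field_simp; ring
  have hψ1 : ψ 1 = 0 := by
    have := hψ 1 H.one_mem 1 H.one_mem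
    rw [mul_one, hlam1, one_mul] at this
    have h2 : ψ 1 + ψ 1 = ψ 1 + 0 := by rw [add_zero]; exact this.symm
    exact add_left_cancel h2
  have hψzi : ψ z⁻¹ = 0 := by
    have := hψ z⁻¹ (H.inv_mem hz) z hz
    rw [inv_mul_cancel, hψ1, hψz, mul_zero, add_zero] at this
    exact this.symm
  have key : ∀ g ∈ H, ψ ⁅z, g⁆ = (lam z - 1) * ψ g := by
    intro g hg
    have hcH : ⁅z, g⁆ ∈ H := by
      rw [commutatorElement_def]
      exact H.mul_mem (H.mul_mem (H.mul_mem hz hg) (H.inv_mem hz)) (H.inv_mem hg)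
    have h1 : ψ (z * g * z⁻¹) = lam z * ψ g := by
      rw [hψ _ (H.mul_mem hz hg) _ (H.inv_mem hz), hψzi, mul_zero, add_zero, hψ z hz g hg, hψz,
        zero_add]
    have h2 : z * g * z⁻¹ = ⁅z, g⁆ * g := by simp [commutatorElement_def]
    rw [h2, hψ _ hcH g hg, lam_comm hlam hlam1 hz hg, one_mul] at h1
    rw [sub_mul, one_mul, ← h1]; ring
  have down : ∀ j, j ≤ k → ∀ u ∈ L (k - j), ψ u = 0 := by
    intro j
    induction j with
    | zero =>
      intro _ u hu
      rw [Nat.sub_zero] at hu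
      simp only [hψdef]
      rw [hφB u hu, hlamB u hu]; ring
    | succ j ih =>
      intro hj u hu
      have h1 : ⁅z, u⁆ ∈ L (k - j) := by
        have := hLcomm (k - (j + 1)) (by omega) z hz u hu
        have e : k - (j + 1) + 1 = k - j := by omega
        rwa [e] at this
      have h2 := ih (by omega) _ h1
      rw [key u (hLH _ hu)] at h2
      exact (mul_eq_zero.mp h2).resolve_left hμ
  intro h hh
  have := down k le_rfl h (by rw [Nat.sub_self, hL0]; exact hh)
  simp only [hψdef] at this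
  exact sub_eq_zero.mp this

/-- extension of an equivariant homomorphism to a crossed homomorphism -/
theorem exists_crossed {L : ℕ → Subgroup G} {k : ℕ} (hL0 : L 0 = H)
    (hLanti : ∀ i, L (i + 1) ≤ L i)
    (hLcomm : ∀ i < k, ∀ h ∈ H, ∀ u ∈ L i, ⁅h, u⁆ ∈ L (i + 1))
    (hBn : ∀ h ∈ H, ∀ a ∈ L k, h * a * h⁻¹ ∈ L k)
    (hlamL : ∀ a ∈ L 1, lam a = 1)
    {π : G → K} (hπ : ∀ a ∈ L k, ∀ b ∈ L k, π (a * b) = π a + π b)
    (hπe : ∀ h ∈ H, ∀ a ∈ L k, π (h * a * h⁻¹) = lam h * π a)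
    (hlamB : ∀ a ∈ L k, lam a = 1) {z : G} (hz : z ∈ H) (hz1 : lam z ≠ 1) :
    ∃ b : G → K, (∀ g ∈ H, ∀ h ∈ H, b (g * h) = b g + lam g * b h) ∧ ∀ a ∈ L k, b a = π a := by
  have hμ : lam z - 1 ≠ 0 := sub_ne_zero.mpr hz1
  have hanti : Antitone L := antitone_nat_of_succ_le hLanti
  have hLH : ∀ i, L i ≤ H := fun i => by rw [← hL0]; exact hanti (Nat.zero_le i)
  have hk : 1 ≤ k := by
    rcases Nat.eq_zero_or_pos k with h | h
    · subst h
      exact absurd (hlamB z (by rw [hL0]; exact hz)) hz1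
    · exact h
  have hnorm : ∀ i ≤ k, ∀ h ∈ H, ∀ u ∈ L i, h * u * h⁻¹ ∈ L i := by
    intro i hi h hh u hu
    rcases Nat.lt_or_ge i k with hlt | hge
    · have e : h * u * h⁻¹ = ⁅h, u⁆ * u := by simp [commutatorElement_def]
      rw [e]
      exact (L i).mul_mem (hLanti i (hLcomm i hlt h hh u hu)) hu
    · have : i = k := le_antisymm hi hge
      subst this
      exact hBn h hh u hu
  have hlamLi : ∀ i, 1 ≤ i → ∀ u ∈ L i, lam u = 1 := fun i hi u hu => hlamL u (hanti hi hu)
  -- generic computation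
  have hcomp : ∀ (i : ℕ) (b : G → K), i < k → (∀ u ∈ L (i + 1), ∀ v ∈ L (i + 1),
      b (u * v) = b u + b v) → (∀ h ∈ H, ∀ u ∈ L (i + 1), b (h * u * h⁻¹) = lam h * b u) →
      (∀ h ∈ H, ∀ u ∈ L i, ∀ v ∈ L i, b ⁅h, u * v⁆ = b ⁅h, u⁆ + lam u * b ⁅h, v⁆) ∧
      (∀ u ∈ L (i + 1), b ⁅z, u⁆ = (lam z - 1) * b u) := by
    intro i b hi hadd heqv
    constructor
    · intro h hh u hu v hv
      have e : ⁅h, u * v⁆ = ⁅h, u⁆ * (u * ⁅h, v⁆ * u⁻¹) := by
        simp only [commutatorElement_def]; group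
      have h1 := hLcomm i hi h hh u hu
      have h2 := hLcomm i hi h hh v hv
      rw [e, hadd _ h1 _ (hnorm (i + 1) (by omega) u (hLH i hu) _ h2), heqv u (hLH i hu) _ h2]
    · intro u hu
      have e : ⁅z, u⁆ = (z * u * z⁻¹) * u⁻¹ := by simp [commutatorElement_def]
      have h1 := hnorm (i + 1) (by omega) z hz u hu
      have hinv : b u⁻¹ = - b u := by
        have h2 := hadd u hu u⁻¹ ((L (i + 1)).inv_mem hu)
        have h3 := hadd 1 (L (i + 1)).one_mem 1 (L (i + 1)).one_mem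
        rw [mul_one] at h3
        have h4 : b 1 = 0 := by
          have : b 1 + b 1 = b 1 + 0 := by rw [add_zero]; exact h3.symm
          exact add_left_cancel this
        rw [mul_inv_cancel, h4] at h2
        exact eq_neg_of_add_eq_zero_right h2.symm
      rw [e, hadd _ h1 _ ((L (i + 1)).inv_mem hu), heqv z hz u hu, hinv]; ring
  have main : ∀ j, j + 1 ≤ k → ∃ b : G → K,
      (∀ u ∈ L (k - j), ∀ v ∈ L (k - j), b (u * v) = b u + b v) ∧
      (∀ h ∈ H, ∀ u ∈ L (k - j), b (h * u * h⁻¹) = lam h * b u) ∧ ∀ a ∈ L k, b a = π a := by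
    intro j
    induction j with
    | zero => intro _; exact ⟨π, hπ, hπe, fun a _ => rfl⟩
    | succ j ih =>
      intro hj
      obtain ⟨b, hadd, heqv, hext⟩ := ih (by omega)
      obtain ⟨i, hi⟩ : ∃ i, i = k - (j + 1) := ⟨_, rfl⟩
      have hi1 : k - j = i + 1 := by omega
      have hik : i < k := by omega
      have hi0 : 1 ≤ i := by omega
      rw [hi1] at hadd heqv
      rw [← hi]
      obtain ⟨hc1, hc2⟩ := hcomp i b hik hadd heqv
      have hext' : ∀ u ∈ L (i + 1), b ⁅z, u⁆ / (lam z - 1) = b u := by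
        intro u hu
        rw [hc2 u hu]; field_simp
      refine ⟨fun u => b ⁅z, u⁆ / (lam z - 1), ?_, ?_, ?_⟩
      · intro u hu v hv
        simp only
        rw [hc1 z hz u hu v hv, hlamLi i hi0 u hu]; ring
      · intro h hh u hu
        simp only
        -- the crossed homomorphism `h ↦ b ⁅h, u⁆`
        have hφ : ∀ g ∈ H, ∀ h ∈ H, b ⁅g * h, u⁆ = b ⁅g, u⁆ + lam g * b ⁅h, u⁆ := by
          intro g hg h hh
          have e : ⁅g * h, u⁆ = (g * ⁅h, u⁆ * g⁻¹) * ⁅g, u⁆ := by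
            simp only [commutatorElement_def]; group
          have h1 := hLcomm i hik g hg u hu
          have h2 := hLcomm i hik h hh u hu
          rw [e, hadd _ (hnorm (i + 1) (by omega) g hg _ h2) _ h1, heqv g hg _ h2]; ring
        have hφB : ∀ a ∈ L k, b ⁅a, u⁆ = 0 := by
          intro a ha
          have ha' : a ∈ L (i + 1) := hanti (by omega : i + 1 ≤ k) ha
          have e : ⁅a, u⁆ = a * (u * a⁻¹ * u⁻¹) := by
            simp only [commutatorElement_def]; group
          have hai := (L (i + 1)).inv_mem ha'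
          rw [e, hadd _ ha' _ (hnorm (i + 1) (by omega) u (hLH i hu) _ hai),
            heqv u (hLH i hu) _ hai, hlamLi i hi0 u hu, one_mul, ← hadd _ ha' _ hai,
            mul_inv_cancel]
          have h3 := hadd 1 (L (i + 1)).one_mem 1 (L (i + 1)).one_mem
          rw [mul_one] at h3
          have : b 1 + b 1 = b 1 + 0 := by rw [add_zero]; exact h3.symm
          exact add_left_cancel this
        have h4 := crossed_coboundary (φ := fun h => b ⁅h, u⁆) hlam hlam1 hL0 hLH hLcomm hlamB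
          hφ hφB hz hz1 h hh
        have h5 := hLcomm i hik h hh u hu
        have e : h * u * h⁻¹ = ⁅h, u⁆ * u := by simp [commutatorElement_def]
        rw [e, hc1 z hz _ (hLanti i h5) u hu, add_div, hext' _ h5, h4,
          hlamLi (i + 1) (by omega) _ h5]
        field_simp
        ring
      · intro a ha
        simp only
        rw [hext' a (hanti (by omega : i + 1 ≤ k) ha), hext a ha]
  obtain ⟨b, hadd, heqv, hext⟩ := main (k - 1) (by omega)
  have e : k - (k - 1) = 0 + 1 := by omega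
  rw [e] at hadd heqv
  obtain ⟨hc1, hc2⟩ := hcomp 0 b (by omega) hadd heqv
  refine ⟨fun u => b ⁅z, u⁆ / (lam z - 1), ?_, ?_⟩
  · intro g hg h hh
    simp only
    rw [hc1 z hz g (by rw [hL0]; exact hg) h (by rw [hL0]; exact hh)]; ring
  · intro a ha
    simp only
    rw [hc2 a (hanti (by omega : 0 + 1 ≤ k) ha), hext a ha]
    field_simp

end

end Pool.Agent.LHF
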