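import Mathlib

set_option autoImplicit false

namespace Pool.Agent.LHF

/-- Elementary amenable groups: the smallest class of groups containing the finite and the
abelian groups and closed under passing to subgroups (more precisely to groups that embed),
quotients (surjective images), extensions and directed unions. -/
inductive ElementaryAmenable : (G : Type) → Group G → Prop
  | finite (G : Type) (i : Group G) (h : Finite G) : ElementaryAmenable G i
  | abelian (G : Type) (i : Group G) (h : ∀ a b : G, a * b = b * a) : ElementaryAmenable G i
  | embeds (G H : Type) (i : Group G) (j : Group H) (f : H →* G) (hf : Function.Injective f)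
      (hG : ElementaryAmenable G i) : ElementaryAmenable H j
  | image (G H : Type) (i : Group G) (j : Group H) (f : G →* H) (hf : Function.Surjective f)
      (hG : ElementaryAmenable G i) : ElementaryAmenable H j
  | extension (G : Type) (i : Group G) (N : Subgroup G) (hN : N.Normal)
      (h1 : ElementaryAmenable N inferInstance)
      (h2 : ElementaryAmenable (G ⧸ N) (QuotientGroup.Quotient.group N)) :
      ElementaryAmenable G i
  | directedUnion (G : Type) (i : Group G) (I : Type) (K : I → Subgroup G)
      (hdir : Directed (· ≤ ·) K) (hun : ∀ g : G, ∃ k, g ∈ K k)
      (h : ∀ k, ElementaryAmenable (K k) inferInstance) : ElementaryAmenable G i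

end Pool.Agent.LHF
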