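import Pool.Agent.LHF.QQ
import Pool.Agent.LHF.EADefs

set_option autoImplicit false
set_option linter.unusedSectionVars false
set_option linter.unusedVariables false
set_option linter.style.haveILetI false

namespace Pool.Agent.LHF

open scoped commutatorElement

/-- `Q` is a quotient of a subgroup of `G` -/
def IsSection (Q G : Type*) [Group Q] [Group G] : Prop :=
  ∃ (H : Subgroup G) (f : H →* Q), Function.Surjective f

lemma IsSection.of_injective {Q G G' : Type*} [Group Q] [Group G] [Group G']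
    (h : IsSection Q G') (f : G' →* G) (hf : Function.Injective f) : IsSection Q G := by
  obtain ⟨H, g, hg⟩ := h
  refine ⟨H.map f, g.comp (H.equivMapOfInjective f hf).symm.toMonoidHom, ?_⟩
  exact hg.comp (H.equivMapOfInjective f hf).symm.surjective

lemma IsSection.of_surjective {Q G G' : Type*} [Group Q] [Group G] [Group G']
    (h : IsSection Q G') (f : G →* G') (hf : Function.Surjective f) : IsSection Q G := by
  obtain ⟨H, g, hg⟩ := h
  refine ⟨H.comap f, g.comp (f.subgroupComap H), ?_⟩
  apply hg.comp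
  intro y
  obtain ⟨x, hx⟩ := hf y
  refine ⟨⟨x, ?_⟩, Subtype.ext hx⟩
  rw [Subgroup.mem_comap, hx]; exact y.2

lemma vnm_bot_of_finite {Q : Type*} [Group Q] [Finite Q] : VNm (⊥ : Subgroup Q) :=
  ⟨⊥, inferInstance, 0, le_rfl⟩

lemma vnm_bot_of_comm {Q : Type*} [Group Q] (h : ∀ a b : Q, a * b = b * a) :
    VNm (⊥ : Subgroup Q) := by
  refine ⟨⊤, inferInstance, 1, ?_⟩
  rw [Subgroup.lowerCentralSeries_succ, Subgroup.commutator_le]
  intro a _ b _
  rw [Subgroup.mem_bot, commutatorElement_eq_one_iff_mul_comm]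
  exact h a b

/-- the section of an extension -/
lemma IsSection.extension {Q G : Type*} [Group Q] [Group G] (h : IsSection Q G)
    (N : Subgroup G) (hN : N.Normal) :
    ∃ A : Subgroup Q, ∃ _ : A.Normal, IsSection A N ∧ IsSection (Q ⧸ A) (G ⧸ N) := by
  obtain ⟨H, f, hf⟩ := h
  have hn : (N.subgroupOf H).Normal := inferInstance
  have hA : ((N.subgroupOf H).map f).Normal := hn.map f hf
  refine ⟨(N.subgroupOf H).map f, hA, ?_, ?_⟩
  · -- section of N
    refine ⟨H.subgroupOf N,
      { toFun := fun x => ⟨f ⟨((x : N) : G), x.2⟩, ⟨⟨((x : N) : G), x.2⟩, (x : N).2, rfl⟩⟩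
        map_one' := by
          apply Subtype.ext
          exact map_one f
        map_mul' := by
          intro a b
          apply Subtype.ext
          exact map_mul f ⟨((a : N) : G), a.2⟩ ⟨((b : N) : G), b.2⟩ }, ?_⟩
    rintro ⟨_, ⟨x, hx, rfl⟩⟩
    refine ⟨⟨⟨(x : G), hx⟩, x.2⟩, ?_⟩
    apply Subtype.ext
    rfl
  · -- section of G ⧸ N
    set φ : H →* (H.map (QuotientGroup.mk' N)) :=
      (QuotientGroup.mk' N).subgroupMap H with hφ
    have hφs : Function.Surjective φ := (QuotientGroup.mk' N).subgroupMap_surjective H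
    set ψ : H →* (Q ⧸ (N.subgroupOf H).map f) := (QuotientGroup.mk' _).comp f with hψ
    have hker : φ.ker ≤ ψ.ker := by
      intro x hx
      rw [MonoidHom.mem_ker] at hx
      have h1 : (QuotientGroup.mk' N) (x : G) = 1 := congrArg Subtype.val hx
      have h2 : (x : G) ∈ N := by
        rwa [QuotientGroup.mk'_apply, QuotientGroup.eq_one_iff] at h1
      rw [MonoidHom.mem_ker]
      show QuotientGroup.mk (f x) = _
      rw [QuotientGroup.eq_one_iff]
      exact ⟨x, h2, rfl⟩
    refine ⟨H.map (QuotientGroup.mk' N), φ.liftOfSurjective hφs ⟨ψ, hker⟩, ?_⟩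
    intro y
    obtain ⟨z, rfl⟩ := QuotientGroup.mk'_surjective _ y
    obtain ⟨x, rfl⟩ := hf z
    refine ⟨φ x, ?_⟩
    have := φ.liftOfRightInverse_comp_apply (Function.surjInv hφs)
      (Function.rightInverse_surjInv hφs) ⟨ψ, hker⟩ x
    exact this

theorem ea_main {G : Type} (i : Group G) (hG : ElementaryAmenable G i) :
    ∀ (Q : Type) [Group Q], IsSection Q G → Group.FG Q → QQ Q → VNm (⊥ : Subgroup Q) := by
  induction hG with
  | finite G i h =>
    intro Q _ hs _ _
    obtain ⟨H, f, hf⟩ := hs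
    haveI : Finite Q := Finite.of_surjective f hf
    exact vnm_bot_of_finite
  | abelian G i h =>
    intro Q _ hs _ _
    obtain ⟨H, f, hf⟩ := hs
    apply vnm_bot_of_comm
    intro a b
    obtain ⟨x, rfl⟩ := hf a
    obtain ⟨y, rfl⟩ := hf b
    rw [← map_mul, ← map_mul]
    congr 1
    exact Subtype.ext (h _ _)
  | embeds G H i j f hf _ ih =>
    intro Q _ hs hfg hq
    exact ih Q (hs.of_injective f hf) hfg hq
  | image G H i j f hf _ ih =>
    intro Q _ hs hfg hq
    exact ih Q (hs.of_surjective f hf) hfg hq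
  | extension G i N hN _ _ ih1 ih2 =>
    intro Q _ hs hfg hq
    obtain ⟨A, hA, hs1, hs2⟩ := hs.extension N hN
    haveI := hfg
    have hsurj : Function.Surjective (QuotientGroup.mk' A) := QuotientGroup.mk'_surjective A
    have h1 : VNm (⊥ : Subgroup (Q ⧸ A)) :=
      ih2 (Q ⧸ A) hs2 inferInstance (hq.of_surjective (QuotientGroup.mk' A) hsurj)
    have h2 : VNm A := by
      have := h1.comap (QuotientGroup.mk' A)
      rwa [MonoidHom.comap_bot, QuotientGroup.ker_mk'] at this
    have hAfg : Group.FG A := (Group.fg_iff_subgroup_fg A).mpr (hq A hA h2).1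
    have h3 : VNm (⊥ : Subgroup A) := ih1 A hs1 hAfg (hq.of_normal hA h2)
    exact hq.vn_of_ext hA h2 h3
  | directedUnion G i I K hdir hun _ ih =>
    classical
    intro Q _ hs hfg hq
    obtain ⟨H, f, hf⟩ := hs
    obtain ⟨S, hS, hSf⟩ := Group.fg_iff.mp hfg
    -- lift generators
    choose g hg using hf
    have hne : Nonempty I := ⟨(hun 1).choose⟩
    choose k hk using hun
    obtain ⟨m, hm⟩ : ∃ m, ∀ s ∈ S, K (k (g s)) ≤ K m := by
      have := hdir.finset_le (hSf.toFinset.image fun s => k (g s))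
      obtain ⟨m, hm⟩ := this
      refine ⟨m, fun s hs => hm _ ?_⟩
      exact Finset.mem_image_of_mem _ (hSf.mem_toFinset.mpr hs)
    refine ih m Q ?_ hfg hq
    refine ⟨H.subgroupOf (K m),
      { toFun := fun x => f ⟨((x : K m) : G), x.2⟩
        map_one' := map_one f
        map_mul' := fun a b => map_mul f ⟨((a : K m) : G), a.2⟩ ⟨((b : K m) : G), b.2⟩ }, ?_⟩
    rw [← MonoidHom.range_eq_top, eq_top_iff, ← hS, Subgroup.closure_le]
    intro s hs
    refine ⟨⟨⟨(g s : G), hm s hs (hk _)⟩, (g s).2⟩, ?_⟩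
    exact hg s

end Pool.Agent.LHF
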