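import Mathlib

set_option autoImplicit false
set_option linter.unusedSectionVars false
set_option linter.unusedVariables false
set_option linter.style.haveILetI false

namespace Pool.Agent.LHF

open scoped commutatorElement

variable {G : Type*} [Group G]

/-- criterion for finite index -/
lemma finiteIndex_of_finite_image {X : Type*} {F H1 : Subgroup G} (hF : F.FiniteIndex)
    (f : G → X) (hfin : (f '' F).Finite)
    (hf : ∀ x ∈ F, ∀ y ∈ F, f x = f y → x⁻¹ * y ∈ H1) : H1.FiniteIndex := by
  classical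
  have hrel : (H1.subgroupOf F).FiniteIndex := by
    rw [Subgroup.finiteIndex_iff_finite_quotient]
    have h1 : ∀ v : X, ∃ x : F, v ∈ f '' F → f x = v := by
      intro v
      by_cases hv : v ∈ f '' F
      · obtain ⟨x, hx, rfl⟩ := hv
        exact ⟨⟨x, hx⟩, fun _ => rfl⟩
      · exact ⟨1, fun h => absurd h hv⟩
    choose g hg using h1
    have hsub : (Set.univ : Set (F ⧸ H1.subgroupOf F)) ⊆
        (fun v => (QuotientGroup.mk (g v) : F ⧸ H1.subgroupOf F)) '' (f '' F) := by
      intro q _
      induction q using QuotientGroup.induction_on with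
      | H y =>
        refine ⟨f y, ⟨y, y.2, rfl⟩, ?_⟩
        have h2 := hg (f y) ⟨y, y.2, rfl⟩
        simp only
        rw [QuotientGroup.eq, Subgroup.mem_subgroupOf]
        exact hf _ (g (f y)).2 _ y.2 h2
    exact Set.finite_univ_iff.mp ((hfin.image _).subset hsub)
  have h1 : H1.relIndex F ≠ 0 := hrel.index_ne_zero
  have h2 : (H1 ⊓ F).relIndex F ≠ 0 := by rwa [Subgroup.inf_relIndex_right]
  have h3 := Subgroup.relIndex_mul_index (show H1 ⊓ F ≤ F from inf_le_right)
  have h4 : (H1 ⊓ F).FiniteIndex := ⟨by rw [← h3]; exact mul_ne_zero h2 hF.index_ne_zero⟩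
  exact Subgroup.finiteIndex_of_le (H := H1 ⊓ F) inf_le_left

section eigen
variable {K V : Type*} [Field K] [IsAlgClosed K] [AddCommGroup V] [Module K V]
  [FiniteDimensional K V]

/-- A linear action that is virtually nilpotent has a common eigenvector for a finite-index
subgroup. -/
theorem exists_eigen_aux (ρ : G →* Module.End K V) (k n : ℕ) :
    ∀ (W : Submodule K V), W ≠ ⊥ → Module.finrank K W = n → ∀ F : Subgroup G, F.FiniteIndex →
      (∀ g ∈ F, ∀ w ∈ W, ρ g w ∈ W) → (∀ g ∈ F.lowerCentralSeries k, ∀ w ∈ W, ρ g w = w) →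
      ∃ H : Subgroup G, H.FiniteIndex ∧ H ≤ F ∧ ∃ v ∈ W, v ≠ 0 ∧ ∃ lam : G → K,
        ∀ h ∈ H, ρ h v = lam h • v := by
  classical
  induction n using Nat.strong_induction_on with
  | _ n ih =>
  intro W hW hn F hF hinv hk
  have hρinv : ∀ g : G, ∀ w : V, ρ g⁻¹ (ρ g w) = w := by
    intro g w
    rw [← Module.End.mul_apply, ← map_mul, inv_mul_cancel, map_one]; rfl
  by_cases hA : ∀ g ∈ F, ∃ c : K, ∀ w ∈ W, ρ g w = c • w
  · obtain ⟨v, hv, hv0⟩ := Submodule.exists_mem_ne_zero_of_ne_bot hW
    choose! c hc using hA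
    exact ⟨F, hF, le_rfl, v, hv, hv0, c, fun h hh => hc h hh v hv⟩
  · -- the last term with a non-scalar element
    have hex : ∃ m : ℕ, ∀ g ∈ F.lowerCentralSeries m, ∃ c : K, ∀ w ∈ W, ρ g w = c • w :=
      ⟨k, fun g hg => ⟨1, fun w hw => by rw [one_smul]; exact hk g hg w hw⟩⟩
    set m := Nat.find hex with hm
    have hm1 := Nat.find_spec hex
    rw [← hm] at hm1
    have hm0 : m ≠ 0 := by
      intro h0
      rw [h0] at hm1
      exact hA hm1
    obtain ⟨j, hj⟩ := Nat.exists_eq_succ_of_ne_zero hm0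
    have hj2 := Nat.find_min hex (m := j) (by rw [← hm]; omega)
    push Not at hj2
    obtain ⟨g, hg, hgns⟩ := hj2
    have hgF : g ∈ F := F.lowerCentralSeries_le_self j hg
    have hcomm : ∀ h ∈ F, ∃ c : K, ∀ w ∈ W, ρ ⁅h, g⁆ w = c • w := by
      intro h hh
      apply hm1
      rw [hj, Nat.succ_eq_add_one, F.lowerCentralSeries_succ, Subgroup.commutator_comm]
      exact Subgroup.commutator_mem_commutator hh hg
    choose! c hc using hcomm
    -- eigenvalue of g on W
    haveI : Nontrivial W := Submodule.nontrivial_iff_ne_bot.mpr hW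
    set f : Module.End K W := (ρ g).restrict (fun w hw => hinv g hgF w hw) with hf
    have hfapp : ∀ w : W, ((f w : W) : V) = ρ g w := fun w => rfl
    obtain ⟨μ, hμ⟩ := Module.End.exists_eigenvalue f
    obtain ⟨w0, hw0⟩ := hμ.exists_hasEigenvector
    have hw0e : ρ g (w0 : V) = μ • (w0 : V) := by
      have := hw0.apply_eq_smul
      rw [← hfapp, this]; rfl
    have hw0ne : (w0 : V) ≠ 0 := by
      intro h
      exact hw0.2 (Subtype.ext h)
    have hμ0 : μ ≠ 0 := by
      intro h0
      rw [h0, zero_smul] at hw0e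
      have := hρinv g w0
      rw [hw0e, map_zero] at this
      exact hw0ne this.symm
    -- relations
    have hrel : ∀ h ∈ F, ∀ w ∈ W, ρ h (ρ g w) = c h • ρ g (ρ h w) := by
      intro h hh w hw
      have e : h * g = ⁅h, g⁆ * (g * h) := by simp only [commutatorElement_def]; group
      have h1 : ρ (h * g) w = ρ (⁅h, g⁆ * (g * h)) w := by rw [← e]
      rw [map_mul, map_mul, map_mul] at h1
      simp only [Module.End.mul_apply] at h1
      rw [h1, hc h hh _ (hinv g hgF _ (hinv h hh w hw))]
    have hc0 : ∀ h ∈ F, c h ≠ 0 := by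
      intro h hh h0
      have := hrel h hh w0 w0.2
      rw [h0, zero_smul, hw0e, map_smul] at this
      have h2 : ρ h (w0 : V) = 0 := (smul_eq_zero.mp this).resolve_left hμ0
      have h3 := hρinv h w0
      rw [h2, map_zero] at h3
      exact hw0ne h3.symm
    have heig : ∀ h ∈ F, ∀ ν : K, ∀ w ∈ W, ρ g w = ν • w → ρ g (ρ h w) = ((c h)⁻¹ * ν) • ρ h w := by
      intro h hh ν w hw hwν
      have h1 := hrel h hh w hw
      rw [hwν, map_smul] at h1
      rw [mul_smul, h1, smul_smul, inv_mul_cancel₀ (hc0 h hh), one_smul]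
    have hcmul : ∀ a ∈ F, ∀ b ∈ F, c (a * b) = c a * c b := by
      intro a ha b hb
      have h1 := heig _ (F.mul_mem ha hb) μ w0 w0.2 hw0e
      have h2 := heig b hb μ w0 w0.2 hw0e
      have h3 := heig a ha _ _ (hinv b hb w0 w0.2) h2
      have hne : ρ a (ρ b (w0 : V)) ≠ 0 := by
        intro h0
        have h4 := hρinv a (ρ b w0)
        rw [h0, map_zero] at h4
        have h5 := hρinv b w0
        rw [← h4, map_zero] at h5
        exact hw0ne h5.symm
      rw [map_mul, Module.End.mul_apply, h3] at h1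
      have h6 := smul_left_injective K hne h1
      rw [← mul_assoc] at h6
      have h7 := mul_right_cancel₀ hμ0 h6
      rw [← mul_inv, inv_inj] at h7
      exact h7.symm
    have hc1 : c 1 = 1 := by
      have h1 := hcmul 1 F.one_mem 1 F.one_mem
      rw [mul_one] at h1
      exact (mul_eq_left₀ (hc0 1 F.one_mem)).mp h1.symm
    let H1 : Subgroup G :=
      { carrier := {h | h ∈ F ∧ c h = 1}
        one_mem' := ⟨F.one_mem, hc1⟩
        mul_mem' := by
          rintro a b ⟨ha, ha1⟩ ⟨hb, hb1⟩
          exact ⟨F.mul_mem ha hb, by rw [hcmul a ha b hb, ha1, hb1, one_mul]⟩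
        inv_mem' := by
          rintro a ⟨ha, ha1⟩
          refine ⟨F.inv_mem ha, ?_⟩
          have h1 := hcmul a ha a⁻¹ (F.inv_mem ha)
          rw [mul_inv_cancel, hc1, ha1, one_mul] at h1
          exact h1.symm }
    have hH1F : H1 ≤ F := fun h hh => hh.1
    have hH1 : H1.FiniteIndex := by
      apply finiteIndex_of_finite_image hF c
      · refine ((Module.End.finite_hasEigenvalue f).image (fun ν => μ * ν⁻¹)).subset ?_
        rintro _ ⟨h, hh, rfl⟩
        refine ⟨(c h)⁻¹ * μ, ?_, ?_⟩
        · have h1 := heig h hh μ w0 w0.2 hw0e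
          have hmem := hinv h hh w0 w0.2
          have hne : ρ h (w0 : V) ≠ 0 := by
            intro h0
            have h4 := hρinv h w0
            rw [h0, map_zero] at h4
            exact hw0ne h4.symm
          apply Module.End.hasEigenvalue_of_hasEigenvector (x := ⟨ρ h w0, hmem⟩)
          refine ⟨?_, ?_⟩
          · rw [Module.End.mem_eigenspace_iff]
            apply Subtype.ext
            exact h1
          · intro h0
            exact hne (congrArg Subtype.val h0)
        · simp only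
          rw [mul_inv, inv_inv, mul_comm (c h), ← mul_assoc, mul_inv_cancel₀ hμ0, one_mul]
      · intro x hx y hy hxy
        refine ⟨F.mul_mem (F.inv_mem hx) hy, ?_⟩
        rw [hcmul _ (F.inv_mem hx) y hy, ← hxy, ← hcmul _ (F.inv_mem hx) x hx, inv_mul_cancel,
          hc1]
    -- the eigenspace
    set W' : Submodule K V := W ⊓ LinearMap.ker (ρ g - μ • (1 : Module.End K V)) with hW'
    have hW'mem : ∀ w, w ∈ W' ↔ w ∈ W ∧ ρ g w = μ • w := by
      intro w
      rw [hW', Submodule.mem_inf, LinearMap.mem_ker, LinearMap.sub_apply, sub_eq_zero]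
      rfl
    have hW'ne : W' ≠ ⊥ := by
      intro h0
      have : (w0 : V) ∈ W' := (hW'mem _).mpr ⟨w0.2, hw0e⟩
      rw [h0, Submodule.mem_bot] at this
      exact hw0ne this
    have hlt : W' < W := by
      refine lt_of_le_of_ne inf_le_left ?_
      intro h0
      obtain ⟨w, hw, hwne⟩ := hgns μ
      apply hwne
      rw [← h0] at hw
      exact ((hW'mem w).mp hw).2
    have hfr : Module.finrank K W' < n := by
      rw [← hn]; exact Submodule.finrank_lt_finrank_of_lt hlt
    obtain ⟨H, hH, hHF, v, hv, hv0, lam, hlam⟩ := ih _ hfr W' hW'ne rfl H1 hH1 (by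
      intro h hh w hw
      obtain ⟨hw1, hw2⟩ := (hW'mem w).mp hw
      refine (hW'mem _).mpr ⟨hinv h hh.1 w hw1, ?_⟩
      rw [heig h hh.1 μ w hw1 hw2, hh.2, inv_one, one_mul]) (by
      intro h hh w hw
      exact hk h (Subgroup.lowerCentralSeries_mono k hH1F hh) w ((hW'mem w).mp hw).1)
    exact ⟨H, hH, hHF.trans hH1F, v, ((hW'mem v).mp hv).1, hv0, lam, hlam⟩

/-- A linear action that is virtually nilpotent has a common eigenvector for a finite-index
subgroup. -/
theorem exists_eigen [Nontrivial V] (ρ : G →* Module.End K V) {F : Subgroup G}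
    (hF : F.FiniteIndex) {k : ℕ} (hk : ∀ g ∈ F.lowerCentralSeries k, ρ g = 1) :
    ∃ H : Subgroup G, H.FiniteIndex ∧ H ≤ F ∧ ∃ v : V, v ≠ 0 ∧ ∃ lam : G → K,
      ∀ h ∈ H, ρ h v = lam h • v := by
  obtain ⟨H, h1, h2, v, -, h3, h4⟩ := exists_eigen_aux ρ k _ ⊤ top_ne_bot rfl F hF
    (fun _ _ _ _ => trivial) (fun g hg w _ => by rw [hk g hg]; rfl)
  exact ⟨H, h1, h2, v, h3, h4⟩

end eigen

end Pool.Agent.LHF
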