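import Pool.Agent.LHF.TheoremU

set_option autoImplicit false
set_option linter.unusedSectionVars false
set_option linter.unusedVariables false
set_option linter.style.haveILetI false

namespace Pool.Agent.LHF

variable {G : Type*} [Group G] {ι : Type*} [Fintype ι] [Nonempty ι]

section
variable {σ : ι → G}

/-- maximum principle on a finite transitive quotient -/
lemma const_of_harm {Q : Type*} [Finite Q] [MulAction G Q] [MulAction.IsPretransitive G Q]
    (hgen : ∀ g : G, ∃ l : List ι, wprod σ l = g) (c : Q → ℝ)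
    (hc : ∀ q, (∑ j, c ((σ j)⁻¹ • q)) / (Fintype.card ι : ℝ) = c q) (q q' : Q) : c q = c q' := by
  classical
  haveI : Nonempty Q := ⟨q⟩
  obtain ⟨q0, hq0⟩ := Finite.exists_max c
  have hcard := card_pos' (ι := ι)
  have step : ∀ q, c q = c q0 → ∀ j, c ((σ j)⁻¹ • q) = c q0 := by
    intro q hq j
    have h1 := hc q
    rw [hq, div_eq_iff hcard.ne'] at h1
    have h2 : ∑ j, (c q0 - c ((σ j)⁻¹ • q)) = 0 := by
      rw [Finset.sum_sub_distrib, h1]; simp; ring
    have h3 := (Finset.sum_eq_zero_iff_of_nonneg (fun j _ => sub_nonneg.mpr (hq0 _))).mp h2 j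
      (Finset.mem_univ j)
    linarith
  have word : ∀ (l : List ι) (q : Q), c q = c q0 → c ((wprod σ l)⁻¹ • q) = c q0 := by
    intro l
    induction l with
    | nil => intro q hq; simpa using hq
    | cons j l ih =>
      intro q hq
      have := ih _ (step q hq j)
      rw [wprod_cons, mul_inv_rev, mul_smul]
      exact this
  have all : ∀ q, c q = c q0 := by
    intro q
    obtain ⟨g, hg⟩ := MulAction.exists_smul_eq G q0 q
    obtain ⟨l, hl⟩ := hgen g⁻¹
    have := word l q0 rfl
    rw [hl, inv_inv, hg] at this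
    exact this
  rw [all q, all q']

/-- harmonic extension of a homomorphism of a finite-index subgroup -/
theorem exists_harmonic_extension {τ : ι ≃ ι} (hτ : ∀ j, σ (τ j) = (σ j)⁻¹)
    (hgen : ∀ g : G, ∃ l : List ι, wprod σ l = g)
    {H : Subgroup G} (hH : H.FiniteIndex) (χ : G → ℝ)
    (hχ : ∀ a ∈ H, ∀ b ∈ H, χ (a * b) = χ a + χ b) :
    ∃ h : G → ℝ, (∀ x, avg σ h x = h x) ∧ (∀ g ∈ H, h g = χ g) ∧
      ∀ g ∈ H, ∀ x, h (g * x) = h g + h x := by
  classical
  haveI := hH
  haveI : Finite (G ⧸ H) := H.finite_quotient_of_finiteIndex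
  letI := Fintype.ofFinite (G ⧸ H)
  have hcard := card_pos' (ι := ι)
  set o : (G ⧸ H) → G := fun q => Quotient.out q with ho
  set m : G → (G ⧸ H) := fun x => QuotientGroup.mk x⁻¹ with hm
  have hmo : ∀ x, x * o (m x) ∈ H := by
    intro x
    have h1 : (QuotientGroup.mk (o (m x)) : G ⧸ H) = QuotientGroup.mk x⁻¹ :=
      Quotient.out_eq' _
    have h2 := QuotientGroup.eq.mp h1.symm
    simpa using h2
  have hmg : ∀ g ∈ H, ∀ x, m (g * x) = m x := by
    intro g hg x
    simp only [hm]
    rw [QuotientGroup.eq]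
    have : ((g * x)⁻¹)⁻¹ * x⁻¹ = g := by group
    rwa [this]
  have hms : ∀ x j, m (x * σ j) = (σ j)⁻¹ • m x := by
    intro x j
    simp only [hm, mul_inv_rev]
    rfl
  have hom : ∀ q, m (o q)⁻¹ = q := by
    intro q
    simp only [hm, inv_inv]
    exact Quotient.out_eq' q
  set f0 : G → ℝ := fun x => χ (x * o (m x)) with hf0
  have hf0g : ∀ g ∈ H, ∀ x, f0 (g * x) = χ g + f0 x := by
    intro g hg x
    simp only [hf0]
    rw [hmg g hg, mul_assoc, hχ g hg _ (hmo x)]
  set ρ : G → ℝ := fun x => avg σ f0 x - f0 x with hρ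
  have hρg : ∀ g ∈ H, ∀ x, ρ (g * x) = ρ x := by
    intro g hg x
    simp only [hρ]
    rw [hf0g g hg, ← avg_translate]
    have : (fun y => f0 (g * y)) = fun y => χ g + f0 y := funext fun y => hf0g g hg y
    rw [this, avg_add, avg_const]; ring
  have hinv : ∀ F : G → ℝ, (∀ g ∈ H, ∀ x, F (g * x) = F x) → ∀ x, F x = F (o (m x))⁻¹ := by
    intro F hF x
    have := hF _ (hmo x) (o (m x))⁻¹
    rw [mul_inv_cancel_right] at this
    exact this
  -- the sum of ρ vanishes
  set d : (G ⧸ H) → ι → ℝ := fun q j => f0 ((o q)⁻¹ * σ j) - f0 (o q)⁻¹ with hd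
  have hd' : ∀ x j, f0 (x * σ j) - f0 x = d (m x) j := by
    intro x j
    refine hinv (fun x => f0 (x * σ j) - f0 x) ?_ x
    intro g hg x
    rw [mul_assoc, hf0g g hg, hf0g g hg]; ring
  have hdτ : ∀ q j, d ((σ j)⁻¹ • q) (τ j) = - d q j := by
    intro q j
    have h1 := hd' ((o q)⁻¹ * σ j) (τ j)
    rw [hms, hom, hτ, mul_inv_cancel_right] at h1
    rw [← h1]
    simp only [hd]; ring
  have hD : ∀ j, ∑ q, d q j = - ∑ q, d q (τ j) := by
    intro j
    rw [← Equiv.sum_comp (MulAction.toPerm (σ j)⁻¹) (fun q => d q (τ j)), ← Finset.sum_neg_distrib]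
    apply Finset.sum_congr rfl
    intro q _
    rw [MulAction.toPerm_apply, hdτ]; ring
  have hDs : ∑ j, ∑ q, d q j = 0 := by
    have h1 : ∑ j, ∑ q, d q j = - ∑ j, ∑ q, d q j := by
      calc ∑ j, ∑ q, d q j = ∑ j, - ∑ q, d q (τ j) := Finset.sum_congr rfl fun j _ => hD j
        _ = - ∑ j, ∑ q, d q (τ j) := Finset.sum_neg_distrib _
        _ = - ∑ j, ∑ q, d q j := by
            rw [Equiv.sum_comp τ (fun j => ∑ q, d q j)]
    linarith
  have hρd : ∀ x, ρ x = (∑ j, d (m x) j) / (Fintype.card ι : ℝ) := by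
    intro x
    simp only [hρ]
    have h1 : avg σ f0 x - f0 x = avg σ (fun y => f0 y - f0 x) x := by
      rw [avg_sub, avg_const]
    rw [h1, avg_def]
    congr 1
    exact Finset.sum_congr rfl fun j _ => hd' x j
  -- linear algebra on the quotient
  let T : ((G ⧸ H) → ℝ) →ₗ[ℝ] ((G ⧸ H) → ℝ) :=
    { toFun := fun c q => c q - (∑ j, c ((σ j)⁻¹ • q)) / (Fintype.card ι : ℝ)
      map_add' := by
        intro c c'; funext q
        simp only [Pi.add_apply, Finset.sum_add_distrib]; ring
      map_smul' := by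
        intro a c; funext q
        simp only [Pi.smul_apply, smul_eq_mul, RingHom.id_apply, ← Finset.mul_sum]; ring }
  let S : ((G ⧸ H) → ℝ) →ₗ[ℝ] ℝ :=
    { toFun := fun c => ∑ q, c q
      map_add' := by intro c c'; simp [Finset.sum_add_distrib]
      map_smul' := by intro a c; simp [Finset.mul_sum] }
  have hTapp : ∀ c q, T c q = c q - (∑ j, c ((σ j)⁻¹ • q)) / (Fintype.card ι : ℝ) :=
    fun c q => rfl
  have hSapp : ∀ c, S c = ∑ q, c q := fun c => rfl
  have hTS : LinearMap.range T ≤ LinearMap.ker S := by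
    rintro _ ⟨c, rfl⟩
    rw [LinearMap.mem_ker, hSapp]
    simp only [hTapp]
    rw [Finset.sum_sub_distrib, ← Finset.sum_div, Finset.sum_comm]
    have h1 : ∀ j, ∑ q, c ((σ j)⁻¹ • q) = ∑ q, c q := fun j =>
      Equiv.sum_comp (MulAction.toPerm (σ j)⁻¹) c
    simp only [h1, Finset.sum_const, Finset.card_univ, nsmul_eq_mul]
    field_simp
    ring
  have hker : Module.finrank ℝ (LinearMap.ker T) ≤ 1 := by
    have hone : (fun _ => 1 : (G ⧸ H) → ℝ) ∈ LinearMap.ker T := by
      rw [LinearMap.mem_ker]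
      funext q
      rw [hTapp]
      simp [hcard.ne']
    apply finrank_le_one (⟨fun _ => 1, hone⟩ : LinearMap.ker T)
    rintro ⟨c, hc⟩
    rw [LinearMap.mem_ker] at hc
    have h1 : ∀ q, (∑ j, c ((σ j)⁻¹ • q)) / (Fintype.card ι : ℝ) = c q := by
      intro q
      have := congrFun hc q
      rw [hTapp, Pi.zero_apply] at this
      linarith
    refine ⟨c (m 1), ?_⟩
    apply Subtype.ext
    funext q
    have h2 := const_of_harm hgen c h1 (m 1) q
    simpa using h2
  have hrank := LinearMap.finrank_range_add_finrank_ker T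
  have hrankS := LinearMap.finrank_range_add_finrank_ker S
  have hSrange : 1 ≤ Module.finrank ℝ (LinearMap.range S) := by
    rw [Nat.one_le_iff_ne_zero]
    intro h0
    have h1 : LinearMap.range S = ⊥ := Submodule.finrank_eq_zero.mp h0
    rw [LinearMap.range_eq_bot] at h1
    have h2 : S (Pi.single (m 1) 1) = 1 := by rw [hSapp]; simp
    rw [h1] at h2
    simp at h2
  have heqr : LinearMap.range T = LinearMap.ker S := by
    apply Submodule.eq_of_le_of_finrank_le hTS
    omega
  have hρS : (fun q => (∑ j, d q j) / (Fintype.card ι : ℝ)) ∈ LinearMap.ker S := by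
    rw [LinearMap.mem_ker, hSapp, ← Finset.sum_div, Finset.sum_comm, hDs, zero_div]
  rw [← heqr] at hρS
  obtain ⟨c, hc⟩ := hρS
  have hcx : ∀ x, c (m x) - avg σ (fun y => c (m y)) x = ρ x := by
    intro x
    have h1 := congrFun hc (m x)
    rw [hTapp] at h1
    rw [hρd, ← h1, avg_def]
    simp only [hms]
  refine ⟨fun x => f0 x + c (m x) - (f0 1 + c (m 1)), fun x => ?_, fun g hg => ?_,
    fun g hg x => ?_⟩
  · rw [avg_sub, avg_add, avg_const]
    have h1 := hcx x
    simp only [hρ] at h1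
    linarith
  · have h1 := hf0g g hg 1
    have h2 := hmg g hg 1
    rw [mul_one] at h1 h2
    simp only [h1, h2]; ring
  · have h1 := hf0g g hg 1
    have h2 := hmg g hg 1
    rw [mul_one] at h1 h2
    simp only [h1, h2, hf0g g hg x, hmg g hg x]; ring

end

end Pool.Agent.LHF
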