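import Pool.Agent.LHF.EA

set_option autoImplicit false
set_option linter.unusedSectionVars false
set_option linter.unusedVariables false
set_option linter.style.haveILetI false

namespace Pool.Agent.LHF

open scoped commutatorElement

/-- conversion of the hypothesis of the problem -/
theorem finG_of_lhf {G : Type} [Group G] (S : Finset G) (hsym : ∀ s ∈ S, s⁻¹ ∈ S)
    (hgen : Subgroup.closure (S : Set G) = ⊤)
    (hfin : ∃ V : Submodule ℝ (G → ℝ), FiniteDimensional ℝ V ∧
        ∀ f : G → ℝ,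
          (∀ g : G, ∑ s ∈ S, f (g * s) = (S.card : ℝ) * f g) →
          (∃ C : ℝ, ∀ g : G, ∀ s ∈ S, |f (g * s) - f g| ≤ C) →
          f ∈ V) : FinG G := by
  classical
  obtain ⟨V, hV, hVm⟩ := hfin
  let σ : Option S → G := fun j => j.elim 1 (fun s => (s : G))
  let inv : S ≃ S :=
    { toFun := fun s => ⟨(s : G)⁻¹, hsym s s.2⟩
      invFun := fun s => ⟨(s : G)⁻¹, hsym s s.2⟩
      left_inv := fun s => by simp
      right_inv := fun s => by simp }
  refine ⟨Option S, inferInstance, σ, ⟨⟨Equiv.optionCongr inv, ?_⟩, ⟨none, rfl⟩, ?_⟩, V, hV, ?_⟩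
  · intro j
    cases j with
    | none => simp [σ]
    | some s => simp [σ, inv]
  · intro g
    have hg : g ∈ Subgroup.closure (S : Set G) := by rw [hgen]; trivial
    have hinv : ∀ l : List (Option S), ∃ l' : List (Option S), wprod σ l' = (wprod σ l)⁻¹ := by
      intro l
      induction l with
      | nil => exact ⟨[], by simp⟩
      | cons j l ih =>
        obtain ⟨l', hl'⟩ := ih
        refine ⟨l' ++ [Equiv.optionCongr inv j], ?_⟩
        rw [wprod_append, hl', wprod_cons, wprod_cons, wprod_nil, mul_one, mul_inv_rev]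
        congr 1
        cases j with
        | none => simp [σ]
        | some s => simp [σ, inv]
    induction hg using Subgroup.closure_induction with
    | mem s hs => exact ⟨[some ⟨s, hs⟩], by simp [σ]⟩
    | one => exact ⟨[], rfl⟩
    | mul a b _ _ iha ihb =>
      obtain ⟨l, rfl⟩ := iha
      obtain ⟨l', rfl⟩ := ihb
      exact ⟨l ++ l', wprod_append σ l l'⟩
    | inv a _ iha =>
      obtain ⟨l, rfl⟩ := iha
      exact hinv l
  · intro f hf hL
    apply hVm
    · intro g
      have h1 := congrFun hf g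
      rw [avg_def, Fintype.sum_option, Fintype.card_option, Fintype.card_coe] at h1
      have hpos : (0 : ℝ) < ((S.card + 1 : ℕ) : ℝ) := by positivity
      rw [div_eq_iff hpos.ne'] at h1
      have h2 : ∑ s : S, f (g * σ (some s)) = ∑ s ∈ S, f (g * s) := by
        rw [← Finset.sum_coe_sort S (fun s => f (g * s))]
        rfl
      have h3 : σ none = 1 := rfl
      rw [h2, h3, mul_one] at h1
      push_cast at h1
      linarith
    · obtain ⟨K, hK⟩ := hL
      exact ⟨K, fun g s hs => hK g (some ⟨s, hs⟩)⟩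

lemma exists_nilpotent_of_vnm {G : Type*} [Group G] (h : VNm (⊥ : Subgroup G)) :
    ∃ H : Subgroup G, H.FiniteIndex ∧ Group.IsNilpotent ↥H := by
  obtain ⟨F, hF, k, hk⟩ := h
  exact ⟨F, hF, (Subgroup.isNilpotent_iff_lowerCentralSeries F).mpr ⟨k, le_bot_iff.mp hk⟩⟩

lemma vnm_of_nilpotent_quotient {G : Type*} [Group G] {N : Subgroup G} [N.Normal]
    (h : ∃ H : Subgroup (G ⧸ N), H.FiniteIndex ∧ Group.IsNilpotent ↥H) : VNm N := by
  obtain ⟨H, hH, hn⟩ := h
  obtain ⟨k, hk⟩ := (Subgroup.isNilpotent_iff_lowerCentralSeries H).mp hn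
  have h1 : VNm (⊥ : Subgroup (G ⧸ N)) := ⟨H, hH, k, hk.le⟩
  have := h1.comap (QuotientGroup.mk' N)
  rwa [MonoidHom.comap_bot, QuotientGroup.ker_mk'] at this

lemma nilpotent_quotient_of_vnm {G : Type*} [Group G] {N : Subgroup G} [N.Normal]
    (h : VNm N) : ∃ H : Subgroup (G ⧸ N), H.FiniteIndex ∧ Group.IsNilpotent ↥H := by
  have h1 := h.map (QuotientGroup.mk' N) (QuotientGroup.mk'_surjective N)
  rw [QuotientGroup.map_mk'_self] at h1
  exact exists_nilpotent_of_vnm h1

/-- **Theorem A.** The conjecture holds for elementary amenable groups. -/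
theorem theoremA (G : Type) [Group G] (hEA : ElementaryAmenable G inferInstance) (S : Finset G)
    (hsym : ∀ s ∈ S, s⁻¹ ∈ S)
    (hgen : Subgroup.closure (S : Set G) = ⊤)
    (hfin : ∃ V : Submodule ℝ (G → ℝ), FiniteDimensional ℝ V ∧
        ∀ f : G → ℝ,
          (∀ g : G, ∑ s ∈ S, f (g * s) = (S.card : ℝ) * f g) →
          (∃ C : ℝ, ∀ g : G, ∀ s ∈ S, |f (g * s) - f g| ≤ C) →
          f ∈ V) :
    ∃ H : Subgroup G, H.FiniteIndex ∧ Group.IsNilpotent ↥H := by
  have h1 := finG_of_lhf S hsym hgen hfin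
  apply exists_nilpotent_of_vnm
  have hs : IsSection G G := ⟨⊤, (⊤ : Subgroup G).subtype, fun x => ⟨⟨x, trivial⟩, rfl⟩⟩
  exact ea_main _ hEA G hs h1.fg h1.qq

/-- **Theorem B.** Structure of arbitrary groups. -/
theorem theoremB (G : Type) [Group G] (S : Finset G)
    (hsym : ∀ s ∈ S, s⁻¹ ∈ S)
    (hgen : Subgroup.closure (S : Set G) = ⊤)
    (hfin : ∃ V : Submodule ℝ (G → ℝ), FiniteDimensional ℝ V ∧
        ∀ f : G → ℝ,
          (∀ g : G, ∑ s ∈ S, f (g * s) = (S.card : ℝ) * f g) →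
          (∃ C : ℝ, ∀ g : G, ∀ s ∈ S, |f (g * s) - f g| ≤ C) →
          f ∈ V) (N : Subgroup G) [N.Normal]
    (hN : ∃ H : Subgroup (G ⧸ N), H.FiniteIndex ∧ Group.IsNilpotent ↥H) :
    N.FG ∧ ∃ H : Subgroup (G ⧸ ⁅N, N⁆), H.FiniteIndex ∧ Group.IsNilpotent ↥H := by
  have h1 := finG_of_lhf S hsym hgen hfin
  obtain ⟨h2, h3⟩ := h1.qq N inferInstance (vnm_of_nilpotent_quotient hN)
  exact ⟨h2, nilpotent_quotient_of_vnm h3⟩

end Pool.Agent.LHF
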