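import Pool.Agent.LHF.Super

set_option autoImplicit false
set_option linter.unusedSectionVars false
set_option linter.unusedVariables false

namespace Pool.Agent.LHF

variable {G : Type*} [Group G] {ι : Type*} [Fintype ι] [Nonempty ι]

lemma mul_exp_neg_half_le {y : ℝ} : y * Real.exp (-y) ≤ Real.exp (-y / 2) := by
  have h1 : y ≤ Real.exp (y / 2) := by
    by_cases hy : 0 ≤ y
    · have h2 : 1 + y / 4 ≤ Real.exp (y / 4) := by
        have := Real.add_one_le_exp (y / 4); linarith
      have h3 : Real.exp (y / 2) = Real.exp (y / 4) ^ 2 := by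
        rw [← Real.exp_nat_mul]; congr 1; push_cast; ring
      have h4 : (1 + y / 4) ^ 2 ≤ Real.exp (y / 4) ^ 2 := by gcongr
      rw [h3]; nlinarith [sq_nonneg (1 - y / 4)]
    · have := Real.exp_pos (y / 2); linarith
  calc y * Real.exp (-y) ≤ Real.exp (y / 2) * Real.exp (-y) := by
        have := Real.exp_pos (-y); gcongr
    _ = Real.exp (-y / 2) := by rw [← Real.exp_add]; congr 1; ring

/-- cutoff function -/
noncomputable def phi (R : G → ℝ) (R0 : ℝ) (x : G) : ℝ := max 0 (1 - R x / R0)
/-- the model function -/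
noncomputable def uu (h R : G → ℝ) (R0 : ℝ) (x : G) : ℝ := phi R R0 x * max (h x) 0

section
variable {σ : ι → G} {h R : G → ℝ} {L C R0 : ℝ} (hg : Growth σ h R L C) (hR0 : 0 < R0)
include hg hR0

lemma Growth.phi_nonneg (x : G) : 0 ≤ phi R R0 x := le_max_left _ _

lemma Growth.phi_le_one (x : G) : phi R R0 x ≤ 1 := by
  unfold phi
  apply max_le zero_le_one
  have := div_nonneg (hg.R0 x) hR0.le
  linarith

lemma Growth.phi_step (x : G) (j : ι) :
    |phi R R0 (x * σ j) - phi R R0 x| ≤ C / R0 * Real.exp (-h x) := by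
  unfold phi
  refine (abs_max_sub_max_le_max _ _ _ _).trans (max_le ?_ ?_)
  · have := hg.C0; have := Real.exp_pos (-h x); simp; positivity
  · have h1 := hg.Rlip x j
    have : 1 - R (x * σ j) / R0 - (1 - R x / R0) = -(R (x * σ j) - R x) / R0 := by ring
    rw [this, abs_div, abs_neg, abs_of_pos hR0, div_mul_eq_mul_div]
    gcongr

lemma Growth.uu_step (x : G) (j : ι) :
    |uu h R R0 (x * σ j) - uu h R R0 x| ≤ L + C / R0 := by
  have h1 := hg.phi_step hR0 x j
  have h2 : |max (h (x * σ j)) 0 - max (h x) 0| ≤ L :=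
    (abs_max_sub_max_le_max _ _ _ _).trans (max_le (hg.hlip x j) (by simpa using hg.L0))
  have h3 : uu h R R0 (x * σ j) - uu h R R0 x =
      phi R R0 (x * σ j) * (max (h (x * σ j)) 0 - max (h x) 0) +
      (phi R R0 (x * σ j) - phi R R0 x) * max (h x) 0 := by unfold uu; ring
  have hC := hg.C0
  have h4 : Real.exp (-h x) * max (h x) 0 ≤ 1 := by
    rcases le_total (h x) 0 with hx | hx
    · rw [max_eq_right hx]; simp
    · rw [max_eq_left hx, mul_comm]
      refine mul_exp_neg_half_le.trans ?_
      rw [Real.exp_le_one_iff]; linarith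
  rw [h3]
  refine (abs_add_le _ _).trans ?_
  rw [abs_mul, abs_mul]
  have h5 : |phi R R0 (x * σ j)| ≤ 1 := by
    rw [abs_of_nonneg (hg.phi_nonneg hR0 _)]; exact hg.phi_le_one hR0 _
  have h6 : |max (h x) 0| = max (h x) 0 := abs_of_nonneg (le_max_right _ _)
  rw [h6]
  have h7 : |phi R R0 (x * σ j)| * |max (h (x * σ j)) 0 - max (h x) 0| ≤ 1 * L := by gcongr
  have h8 : |phi R R0 (x * σ j) - phi R R0 x| * max (h x) 0 ≤
      C / R0 * Real.exp (-h x) * max (h x) 0 := by gcongr
  have h9 : C / R0 * Real.exp (-h x) * max (h x) 0 ≤ C / R0 * 1 := by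
    rw [mul_assoc]; gcongr
  linarith

lemma Growth.uu_lap : ∃ K, 0 ≤ K ∧ ∀ x,
    (R x ≤ R0 + C * Real.exp L → -L ≤ h x →
      |avg σ (uu h R R0) x - uu h R R0 x| ≤ K * Real.exp (-h x / 2)) ∧
    (¬ (R x ≤ R0 + C * Real.exp L ∧ -L ≤ h x) → avg σ (uu h R R0) x - uu h R R0 x = 0) := by
  have hL := hg.L0
  have hC := hg.C0
  refine ⟨(L + C / R0) * Real.exp (L / 2) + 2 * (C / R0), by positivity, fun x => ⟨?_, ?_⟩⟩
  · intro hRx hhx
    by_cases hcase : h x < L
    · have h1 : |avg σ (uu h R R0) x - uu h R R0 x| ≤ L + C / R0 :=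
        abs_avg_sub_le σ fun j => hg.uu_step hR0 x j
      have h2 : 1 ≤ Real.exp (L / 2) * Real.exp (-h x / 2) := by
        rw [← Real.exp_add]; apply Real.one_le_exp; linarith
      have h3 : 0 ≤ 2 * (C / R0) * Real.exp (-h x / 2) := by positivity
      have h4 : 0 ≤ L + C / R0 := by positivity
      nlinarith
    · push Not at hcase
      have hpos : ∀ j, 0 ≤ h (x * σ j) := fun j => by
        have := (abs_le.mp (hg.hlip x j)).1; linarith
      have hx0 : 0 ≤ h x := hL.trans hcase
      have h1 : avg σ (uu h R R0) x - uu h R R0 x =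
          avg σ (fun z => (phi R R0 z - phi R R0 x) * max (h z) 0) x := by
        have e1 : avg σ (fun z => (phi R R0 z - phi R R0 x) * max (h z) 0) x =
            avg σ (uu h R R0) x - phi R R0 x * avg σ (fun z => max (h z) 0) x := by
          rw [← avg_smul, ← avg_sub]
          congr 1; funext z; unfold uu; ring
        have e2 : avg σ (fun z => max (h z) 0) x = h x := by
          rw [← hg.harm x]
          simp only [avg]
          congr 1
          apply Finset.sum_congr rfl
          intro j _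
          rw [max_eq_left (hpos j)]
        rw [e1, e2]
        unfold uu; rw [max_eq_left hx0]
      rw [h1]
      refine (abs_avg_le σ _ x).trans (avg_le σ fun j => ?_)
      rw [abs_mul]
      have h2 := hg.phi_step hR0 x j
      have h3 : |max (h (x * σ j)) 0| ≤ 2 * h x := by
        rw [max_eq_left (hpos j), abs_of_nonneg (hpos j)]
        have := (abs_le.mp (hg.hlip x j)).2; linarith
      calc |phi R R0 (x * σ j) - phi R R0 x| * |max (h (x * σ j)) 0|
          ≤ (C / R0 * Real.exp (-h x)) * (2 * h x) := by gcongr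
        _ = 2 * (C / R0) * (h x * Real.exp (-h x)) := by ring
        _ ≤ 2 * (C / R0) * Real.exp (-h x / 2) := by
            gcongr; exact mul_exp_neg_half_le
        _ ≤ _ := by
            have : 0 ≤ (L + C / R0) * Real.exp (L / 2) * Real.exp (-h x / 2) := by positivity
            linarith
  · intro hx
    have h0 : ∀ y, (y = x ∨ ∃ j, y = x * σ j) → uu h R R0 y = 0 := by
      intro y hy
      by_cases hhx : -L ≤ h x
      · have hRx : R0 + C * Real.exp L < R x := by
          by_contra hcon; push Not at hcon; exact hx ⟨hcon, hhx⟩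
        have hexp : Real.exp (-h x) ≤ Real.exp L := Real.exp_le_exp.mpr (by linarith)
        have hCe : C * Real.exp (-h x) ≤ C * Real.exp L := by gcongr
        have hRy : R0 ≤ R y := by
          rcases hy with rfl | ⟨j, rfl⟩
          · have : 0 ≤ C * Real.exp L := by positivity
            linarith
          · have := (abs_le.mp (hg.Rlip x j)).1; linarith
        have : phi R R0 y = 0 := by
          unfold phi
          apply max_eq_left
          have : 1 ≤ R y / R0 := by rw [le_div_iff₀ hR0]; linarith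
          linarith
        unfold uu; rw [this, zero_mul]
      · push Not at hhx
        have hhy : h y ≤ 0 := by
          rcases hy with rfl | ⟨j, rfl⟩
          · linarith
          · have := (abs_le.mp (hg.hlip x j)).2; linarith
        unfold uu; rw [max_eq_right hhy, mul_zero]
    rw [h0 x (Or.inl rfl), sub_zero]
    simp only [avg]
    rw [Finset.sum_eq_zero (fun j _ => h0 _ (Or.inr ⟨j, rfl⟩)), zero_div]

/-- first version of the existence of harmonic functions -/
theorem Growth.exists_harmonic_aux {i0 : ι} (hi0 : σ i0 = 1)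
    (hgen : ∀ g : G, ∃ l : List ι, wprod σ l = g)
    (H4 : ∃ c1 : ℝ, 0 < c1 ∧ ∀ M' : ℝ, ∃ W : Finset G, ∀ x, ∃ w ∈ W,
      h x + M' ≤ h (x * w) ∧ c1 * Real.exp (-h x) ≤ R (x * w))
    (H5 : ∃ a : ℝ, 0 < a ∧ ∀ x, ∃ j, a ≤ |h (x * σ j) - h x|) :
    ∃ v : G → ℝ, avg σ v = v ∧ ∃ K, ∀ x, |v x - uu h R R0 x| ≤ K := by
  obtain ⟨Ψ, hΨ0, hΨ1, hΨsup, hΨ⟩ := exists_supersolution hg hi0 hgen H4 H5
  obtain ⟨c, hc, hΨc⟩ := hΨ (R0 + C * Real.exp L)
  obtain ⟨K, hK, hKl⟩ := hg.uu_lap hR0
  obtain ⟨w, hwB, hw⟩ := exists_poisson σ (ρ := fun x => avg σ (uu h R R0) x - uu h R R0 x)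
    (Ψ := fun x => K / c * Ψ x) (B := K / c)
    (fun x => mul_nonneg (by positivity) (hΨ0 x))
    (fun x => by
      have : K / c * Ψ x ≤ K / c * 1 := by gcongr; exact hΨ1 x
      linarith)
    (fun x => by
      rw [avg_smul, ← mul_sub]
      by_cases hx : R x ≤ R0 + C * Real.exp L ∧ -L ≤ h x
      · refine ((hKl x).1 hx.1 hx.2).trans ?_
        have h1 := hΨc x hx.1 hx.2
        calc K * Real.exp (-h x / 2) = K / c * (c * Real.exp (-h x / 2)) := by field_simp
          _ ≤ K / c * (Ψ x - avg σ Ψ x) := by gcongr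
      · rw [(hKl x).2 hx, abs_zero]
        have := hΨsup x
        apply mul_nonneg (by positivity); linarith)
  refine ⟨fun x => uu h R R0 x + w x, ?_, K / c, fun x => ?_⟩
  · funext x
    rw [avg_add]
    have := hw x
    linarith
  · simpa using hwB x

end

section words
variable (σ : ι → G)

/-- the family of products of words of length `n` -/
def pw (n : ℕ) (w : Fin n → ι) : G := wprod σ (List.ofFn w)

lemma avg_pw (n : ℕ) (f : G → ℝ) : avg (pw σ n) f = it σ n f := by
  induction n with
  | zero =>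
    funext x
    rw [it_zero, avg_def, Fintype.sum_unique]
    have h1 : (Fintype.card (Fin 0 → ι) : ℝ) = 1 := by simp
    have h2 : ∀ w, pw σ 0 w = 1 := fun w => by simp [pw]
    rw [h1, h2, div_one, mul_one]
  | succ n ih =>
    funext x
    rw [it_succ', ← ih]
    simp only [avg]
    rw [← Equiv.sum_comp (Fin.consEquiv (fun _ : Fin (n + 1) => ι)), Fintype.sum_prod_type]
    have hc := card_pos' (ι := ι)
    have hcard : (Fintype.card (Fin (n + 1) → ι) : ℝ) =
        (Fintype.card (Fin n → ι) : ℝ) * Fintype.card ι := by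
      simp [pow_succ]
    rw [hcard, ← div_div, Finset.sum_div]
    congr 1
    apply Finset.sum_congr rfl
    intro j _
    congr 1
    apply Finset.sum_congr rfl
    intro w _
    congr 1
    simp [pw, Fin.consEquiv, List.ofFn_succ, mul_assoc]

lemma exists_pw {n : ℕ} {l : List ι} (hl : l.length = n) : ∃ w, pw σ n w = wprod σ l := by
  subst hl
  exact ⟨l.get, by rw [pw, List.ofFn_get]⟩

lemma pw_const {i0 : ι} (hi0 : σ i0 = 1) (n : ℕ) : pw σ n (fun _ => i0) = 1 := by
  simp [pw, wprod, hi0]

lemma pw_gen {i0 : ι} (hi0 : σ i0 = 1) {n : ℕ} (hn : 1 ≤ n)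
    (hgen : ∀ g : G, ∃ l : List ι, wprod σ l = g) (g : G) :
    ∃ l : List (Fin n → ι), wprod (pw σ n) l = g := by
  have h1 : ∀ j : ι, ∃ w, pw σ n w = σ j := by
    intro j
    obtain ⟨l', hl', hw⟩ := exists_word_length σ i0 hi0 [j] (N := n) (by simpa using hn)
    obtain ⟨w, hw'⟩ := exists_pw σ hl'
    exact ⟨w, by rw [hw', hw]; simp⟩
  choose W hW using h1
  obtain ⟨l, rfl⟩ := hgen g
  refine ⟨l.map W, ?_⟩
  simp only [wprod, List.map_map]
  congr 1
  apply List.map_congr_left
  intro j _
  exact hW j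

lemma h_word {h : G → ℝ} {L : ℝ} (hl : ∀ x j, |h (x * σ j) - h x| ≤ L) (l : List ι) (x : G) :
    |h (x * wprod σ l) - h x| ≤ l.length * L := by
  induction l generalizing x with
  | nil => simp
  | cons j l ih =>
    have h1 := ih (x * σ j)
    have h2 := hl x j
    rw [wprod_cons, ← mul_assoc]
    calc |h (x * σ j * wprod σ l) - h x|
        = |(h (x * σ j * wprod σ l) - h (x * σ j)) + (h (x * σ j) - h x)| := by congr 1; ring
      _ ≤ _ := abs_add_le _ _
      _ ≤ l.length * L + L := add_le_add h1 h2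
      _ = _ := by simp; ring

variable {σ}
variable {h R : G → ℝ} {L C : ℝ}

lemma Growth.R_word (hg : Growth σ h R L C) (l : List ι) (x : G) :
    |R (x * wprod σ l) - R x| ≤ l.length * C * Real.exp (l.length * L) * Real.exp (-h x) := by
  have hL := hg.L0
  have hC := hg.C0
  induction l generalizing x with
  | nil => simp
  | cons j l ih =>
    have h1 := ih (x * σ j)
    have h2 := hg.Rlip x j
    rw [wprod_cons, ← mul_assoc]
    have h3 : Real.exp (-h (x * σ j)) ≤ Real.exp L * Real.exp (-h x) := by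
      rw [← Real.exp_add]
      apply Real.exp_le_exp.mpr
      have := (abs_le.mp (hg.hlip x j)).1; linarith
    have h4 : (1 : ℝ) ≤ Real.exp ((l.length + 1) * L) := Real.one_le_exp (by positivity)
    calc |R (x * σ j * wprod σ l) - R x|
        = |(R (x * σ j * wprod σ l) - R (x * σ j)) + (R (x * σ j) - R x)| := by congr 1; ring
      _ ≤ _ := abs_add_le _ _
      _ ≤ l.length * C * Real.exp (l.length * L) * (Real.exp L * Real.exp (-h x)) +
          C * Real.exp (-h x) := by
            refine add_le_add (h1.trans ?_) h2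
            gcongr
      _ = l.length * C * Real.exp ((l.length + 1) * L) * Real.exp (-h x) +
          C * 1 * Real.exp (-h x) := by
            rw [add_mul, one_mul, Real.exp_add]; ring
      _ ≤ l.length * C * Real.exp ((l.length + 1) * L) * Real.exp (-h x) +
          C * Real.exp ((l.length + 1) * L) * Real.exp (-h x) := by gcongr
      _ = _ := by push_cast [List.length_cons]; ring

lemma Growth.pw (hg : Growth σ h R L C) (n : ℕ) :
    Growth (pw σ n) h R (n * L) (n * C * Real.exp (n * L)) := by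
  have hL := hg.L0
  have hC := hg.C0
  refine ⟨by positivity, by positivity, ?_, ?_, hg.R0, ?_⟩
  · intro x
    rw [avg_pw, it_harm σ (funext hg.harm)]
  · intro x w
    have := h_word σ hg.hlip (List.ofFn w) x
    rw [List.length_ofFn] at this
    exact this
  · intro x w
    have := hg.R_word (List.ofFn w) x
    rw [List.length_ofFn] at this
    exact this

/-- **Core theorem**: a Lipschitz harmonic function at bounded distance from the model `uu`. -/
theorem Growth.exists_harmonic (hg : Growth σ h R L C) {i0 : ι} (hi0 : σ i0 = 1)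
    (hgen : ∀ g : G, ∃ l : List ι, wprod σ l = g)
    (H4 : ∃ c1 : ℝ, 0 < c1 ∧ ∀ M' : ℝ, ∃ W : Finset G, ∀ x, ∃ w ∈ W,
      h x + M' ≤ h (x * w) ∧ c1 * Real.exp (-h x) ≤ R (x * w)) {R0 : ℝ} (hR0 : 0 < R0) :
    ∃ v : G → ℝ, avg σ v = v ∧ (∃ K, ∀ x, |v x - uu h R R0 x| ≤ K) ∧
      ∃ Λ, ∀ x j, |v (x * σ j) - v x| ≤ Λ := by
  classical
  obtain ⟨c1, hc1, H4'⟩ := id H4
  obtain ⟨W, hW⟩ := H4' 1
  choose lw hlw using hgen
  set n : ℕ := W.sup (fun w => (lw w).length) + 1 with hn
  have hn1 : 1 ≤ n := by omega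
  have H5 : ∃ a : ℝ, 0 < a ∧ ∀ x, ∃ j, a ≤ |h (x * Pool.Agent.LHF.pw σ n j) - h x| := by
    refine ⟨1, one_pos, fun x => ?_⟩
    obtain ⟨w, hw, h1, -⟩ := hW x
    have hlen : (lw w).length ≤ n := by
      have := Finset.le_sup (f := fun w => (lw w).length) hw
      omega
    obtain ⟨l', hl', hw'⟩ := exists_word_length σ i0 hi0 (lw w) hlen
    obtain ⟨j, hj⟩ := exists_pw σ hl'
    refine ⟨j, ?_⟩
    rw [hj, hw', hlw]
    rw [abs_of_nonneg] <;> linarith
  obtain ⟨v, hv, K, hK⟩ := (hg.pw n).exists_harmonic_aux hR0 (pw_const σ hi0 n)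
    (pw_gen σ hi0 hn1 (fun g => ⟨lw g, hlw g⟩)) H4 H5
  rw [avg_pw] at hv
  have hnpos : (0 : ℝ) < n := by exact_mod_cast hn1
  have hstep := hg.uu_step hR0
  set a := L + C / R0 with ha
  have ha0 : 0 ≤ a := by have := hg.L0; have := hg.C0; positivity
  have hKi : ∀ i < n, ∀ x, |it σ i v x - uu h R R0 x| ≤ K + n * a := by
    intro i hi x
    have e1 : it σ i v x - uu h R R0 x = it σ i (fun y => v y - uu h R R0 y) x +
        (it σ i (uu h R R0) x - uu h R R0 x) := by rw [it_sub]; ring
    rw [e1]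
    refine (abs_add_le _ _).trans ?_
    have h1 : |it σ i (fun y => v y - uu h R R0 y) x| ≤ K := by
      refine (abs_it_le σ i _ x).trans ?_
      have := it_mono σ i (g := fun _ => K) hK x
      rwa [it_const] at this
    have h2 : |it σ i (uu h R R0) x - uu h R R0 x| ≤ i * a := abs_it_sub_le hstep i x
    have h3 : (i : ℝ) * a ≤ n * a := by
      have : (i : ℝ) ≤ n := by exact_mod_cast hi.le
      gcongr
    linarith
  have hv' : ∀ x, |(n : ℝ)⁻¹ * (∑ i ∈ Finset.range n, it σ i v x) - uu h R R0 x| ≤ K + n * a := by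
    intro x
    have e1 : (n : ℝ)⁻¹ * (∑ i ∈ Finset.range n, it σ i v x) - uu h R R0 x =
        (n : ℝ)⁻¹ * ∑ i ∈ Finset.range n, (it σ i v x - uu h R R0 x) := by
      rw [Finset.sum_sub_distrib, mul_sub]
      simp only [Finset.sum_const, Finset.card_range, nsmul_eq_mul]
      field_simp
    rw [e1, abs_mul, abs_of_pos (inv_pos.mpr hnpos)]
    have h1 : |∑ i ∈ Finset.range n, (it σ i v x - uu h R R0 x)| ≤ n * (K + n * a) := by
      refine (Finset.abs_sum_le_sum_abs _ _).trans ?_
      refine (Finset.sum_le_sum fun i hi => hKi i (Finset.mem_range.mp hi) x).trans ?_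
      rw [Finset.sum_const, Finset.card_range, nsmul_eq_mul]
    calc (n : ℝ)⁻¹ * |∑ i ∈ Finset.range n, (it σ i v x - uu h R R0 x)|
        ≤ (n : ℝ)⁻¹ * (n * (K + n * a)) := by gcongr
      _ = K + n * a := by field_simp
  refine ⟨fun x => (n : ℝ)⁻¹ * (∑ i ∈ Finset.range n, it σ i v x), ?_, ⟨K + n * a, hv'⟩,
    2 * (K + n * a) + a, ?_⟩
  · funext x
    rw [avg_smul, avg_sum]
    congr 1
    have h1 : ∀ i, avg σ (it σ i v) x = it σ (i + 1) v x := fun i => by rw [it_succ']
    simp only [h1]
    have h2 := Finset.sum_range_succ (fun i => it σ i v x) n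
    have h3 := Finset.sum_range_succ' (fun i => it σ i v x) n
    rw [h2] at h3
    have h4 : it σ n v x = it σ 0 v x := by rw [hv]; rfl
    rw [h4] at h3
    linarith
  · intro x j
    have h1 := hv' x
    have h2 := hv' (x * σ j)
    have h3 := hstep x j
    rw [abs_le] at *
    constructor <;> linarith [h1.1, h1.2, h2.1, h2.2, h3.1, h3.2]

end words

end Pool.Agent.LHF
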