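import Pool.Agent.LHF.VN
import Pool.Agent.LHF.Crossed

set_option autoImplicit false
set_option linter.unusedSectionVars false
set_option linter.unusedVariables false
set_option linter.style.haveILetI false

namespace Pool.Agent.LHF

open scoped commutatorElement

/-- Kronecker's theorem in `AlgebraicClosure ℚ` -/
lemma kronecker {x : AlgebraicClosure ℚ} (hx : IsIntegral ℤ x)
    (h : ∀ φ : AlgebraicClosure ℚ →+* ℂ, ‖φ x‖ = 1) : ∃ n : ℕ, 0 < n ∧ x ^ n = 1 := by
  haveI : Algebra.IsAlgebraic ℚ (AlgebraicClosure ℚ) := AlgebraicClosure.isAlgebraic ℚ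
  have hxQ : IsIntegral ℚ x := hx.tower_top
  let F := IntermediateField.adjoin ℚ {x}
  haveI : FiniteDimensional ℚ F := IntermediateField.adjoin.finiteDimensional hxQ
  haveI : NumberField F := { to_charZero := inferInstance, to_finiteDimensional := inferInstance }
  let y : F := ⟨x, IntermediateField.mem_adjoin_simple_self ℚ x⟩
  have hy : IsIntegral ℤ y := by
    have : IsIntegral ℤ (algebraMap F (AlgebraicClosure ℚ) y) := hx
    exact (isIntegral_algebraMap_iff (algebraMap F (AlgebraicClosure ℚ)).injective).mp this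
  have hemb : ∀ ψ : F →+* ℂ, ‖ψ y‖ = 1 := by
    intro ψ
    letI : Algebra F ℂ := ψ.toAlgebra
    haveI : Algebra.IsAlgebraic F (AlgebraicClosure ℚ) :=
      Algebra.IsAlgebraic.tower_top (K := ℚ) F
    let φ : AlgebraicClosure ℚ →ₐ[F] ℂ := IsAlgClosed.lift
    have h1 := h φ.toRingHom
    have h2 : φ.toRingHom x = ψ y := by
      have : φ (algebraMap F (AlgebraicClosure ℚ) y) = algebraMap F ℂ y := φ.commutes y
      exact this
    rwa [h2] at h1
  obtain ⟨n, hn, hyn⟩ := NumberField.Embeddings.pow_eq_one_of_norm_eq_one F ℂ hy hemb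
  refine ⟨n, hn, ?_⟩
  have := congrArg (algebraMap F (AlgebraicClosure ℚ)) hyn
  rw [map_pow, map_one] at this
  exact this

variable {G : Type*} [Group G]

/-- generating data: symmetric, lazy, generating -/
structure GenData {ι : Type} [Fintype ι] (σ : ι → G) : Prop where
  sym : ∃ τ : ι ≃ ι, ∀ j, σ (τ j) = (σ j)⁻¹
  lazy : ∃ i0, σ i0 = 1
  gen : ∀ g : G, ∃ l : List ι, wprod σ l = g

/-- `G` has a good generating family with finite-dimensional space of Lipschitz harmonic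
functions -/
def FinG (G : Type*) [Group G] : Prop :=
  ∃ (ι : Type) (_ : Fintype ι) (σ : ι → G), GenData σ ∧ FinHF σ

lemma FinG.fg (h : FinG G) : Group.FG G := by
  obtain ⟨ι, _, σ, hσ, -⟩ := h
  rw [Group.fg_iff]
  refine ⟨Set.range σ, ?_, Set.finite_range σ⟩
  rw [eq_top_iff]
  intro g _
  obtain ⟨l, rfl⟩ := hσ.gen g
  induction l with
  | nil => exact Subgroup.one_mem _
  | cons j l ih =>
    rw [wprod_cons]
    exact Subgroup.mul_mem _ (Subgroup.subset_closure ⟨j, rfl⟩) (ih trivial)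

lemma FinG.lcs_fg (h : FinG G) (F : Subgroup G) (hF : F.FiniteIndex) (i : ℕ) :
    (F.lowerCentralSeries i).FG := by
  obtain ⟨ι, _, σ, ⟨⟨τ, hτ⟩, ⟨i0, hi0⟩, hgen⟩, hFin⟩ := h
  haveI : Nonempty ι := ⟨i0⟩
  exact lcs_fg_of_finHF hFin hτ hi0 hgen hF i

lemma FinG.not_affine (h : FinG G)
    {H : Subgroup G} (hH : H.FiniteIndex) {lam b : G → ℂ}
    (hlam : ∀ g ∈ H, ∀ h ∈ H, lam (g * h) = lam g * lam h) (hlam0 : ∀ g ∈ H, lam g ≠ 0)
    (hb : ∀ g ∈ H, ∀ h ∈ H, b (g * h) = b g + lam g * b h)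
    {p t : G} (hp : p ∈ H) (hp1 : lam p = 1) (hbp : b p ≠ 0) (ht : t ∈ H)
    (ht1 : ‖lam t‖ ≠ 1) : False := by
  obtain ⟨ι, _, σ, ⟨⟨τ, hτ⟩, ⟨i0, hi0⟩, hgen⟩, hFin⟩ := h
  haveI : Nonempty ι := ⟨i0⟩
  exact Pool.Agent.LHF.not_affine hFin hτ hi0 hgen hH hlam hlam0 hb hp hp1 hbp ht ht1

/-- `FinG` passes to quotients -/
lemma FinG.of_surjective {Q : Type*} [Group Q] (h : FinG G) (φ : G →* Q)
    (hφ : Function.Surjective φ) : FinG Q := by
  obtain ⟨ι, hι, σ, ⟨⟨τ, hτ⟩, ⟨i0, hi0⟩, hgen⟩, V, hV, hVm⟩ := h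
  have hw : ∀ l : List ι, wprod (fun j => φ (σ j)) l = φ (wprod σ l) := by
    intro l
    induction l with
    | nil => simp
    | cons j l ih => rw [wprod_cons, wprod_cons, map_mul, ih]
  refine ⟨ι, hι, fun j => φ (σ j), ⟨⟨τ, fun j => by rw [hτ, map_inv]⟩,
    ⟨i0, by rw [hi0, map_one]⟩, ?_⟩, ?_⟩
  · intro g
    obtain ⟨x, rfl⟩ := hφ g
    obtain ⟨l, rfl⟩ := hgen x
    exact ⟨l, hw l⟩
  · let T : (Q → ℝ) →ₗ[ℝ] (G → ℝ) := LinearMap.funLeft ℝ ℝ φ
    have hT : Function.Injective T := LinearMap.funLeft_injective_of_surjective ℝ ℝ φ hφ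
    refine ⟨V.comap T, ?_, ?_⟩
    · haveI := hV
      exact Module.Finite.of_injective (T.restrict (p := V.comap T) (q := V) (fun x hx => hx))
        (fun x y hxy => Subtype.ext (hT (congrArg Subtype.val hxy)))
    · intro f hf hL
      apply hVm
      · funext x
        have := congrFun hf (φ x)
        simp only [avg] at this ⊢
        simp only [T, LinearMap.funLeft_apply, map_mul]
        exact this
      · obtain ⟨K, hK⟩ := hL
        refine ⟨K, fun x j => ?_⟩
        simp only [T, LinearMap.funLeft_apply, map_mul]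
        exact hK (φ x) j

end Pool.Agent.LHF
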