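import Pool.Agent.LHF.TorsionChar

set_option autoImplicit false
set_option linter.unusedSectionVars false
set_option linter.unusedVariables false
set_option linter.style.haveILetI false

namespace Pool.Agent.LHF

open scoped commutatorElement

variable {G : Type*} [Group G]

section funs
variable {K : Type*} [Field K]

/-- conjugation action on functions -/
def conjAct (K : Type*) [Field K] : G →* Module.End K (G → K) where
  toFun g := LinearMap.funLeft K K (fun x => g⁻¹ * x * g)
  map_one' := by
    apply LinearMap.ext
    intro f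
    funext x
    simp [LinearMap.funLeft_apply]
  map_mul' g h := by
    apply LinearMap.ext
    intro f
    funext x
    simp [LinearMap.funLeft_apply, mul_assoc]

lemma conjAct_apply (g : G) (f : G → K) (x : G) : conjAct K g f x = f (g⁻¹ * x * g) := rfl

/-- additive functions on `A` -/
def addFun (K : Type*) [Field K] (A : Subgroup G) : Submodule K (G → K) where
  carrier := {f | (∀ a ∈ A, ∀ b ∈ A, f (a * b) = f a + f b) ∧ ∀ x, x ∉ A → f x = 0}
  add_mem' := by
    rintro f g ⟨hf1, hf2⟩ ⟨hg1, hg2⟩
    refine ⟨fun a ha b hb => ?_, fun x hx => ?_⟩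
    · simp only [Pi.add_apply, hf1 a ha b hb, hg1 a ha b hb]; ring
    · simp only [Pi.add_apply, hf2 x hx, hg2 x hx, add_zero]
  zero_mem' := ⟨fun a _ b _ => by simp, fun x _ => rfl⟩
  smul_mem' := by
    rintro c f ⟨hf1, hf2⟩
    refine ⟨fun a ha b hb => ?_, fun x hx => ?_⟩
    · simp only [Pi.smul_apply, smul_eq_mul, hf1 a ha b hb]; ring
    · simp only [Pi.smul_apply, smul_eq_mul, hf2 x hx, mul_zero]

lemma mem_addFun {A : Subgroup G} {f : G → K} : f ∈ addFun K A ↔
    (∀ a ∈ A, ∀ b ∈ A, f (a * b) = f a + f b) ∧ ∀ x, x ∉ A → f x = 0 := Iff.rfl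

lemma addFun_one {A : Subgroup G} {f : G → K} (hf : f ∈ addFun K A) : f 1 = 0 := by
  have := hf.1 1 A.one_mem 1 A.one_mem
  rw [mul_one] at this
  simpa using this

lemma addFun_inv {A : Subgroup G} {f : G → K} (hf : f ∈ addFun K A) {a : G} (ha : a ∈ A) :
    f a⁻¹ = - f a := by
  have := hf.1 a ha a⁻¹ (A.inv_mem ha)
  rw [mul_inv_cancel, addFun_one hf] at this
  exact eq_neg_of_add_eq_zero_right this.symm

lemma addFun_finite {A : Subgroup G} (hA : A.FG) : FiniteDimensional K (addFun K A) := by
  obtain ⟨S, hS, hSf⟩ := (Subgroup.fg_iff _).mp hA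
  haveI := hSf.to_subtype
  let T : (G → K) →ₗ[K] (S → K) := LinearMap.funLeft K K (fun s : S => (s : G))
  apply Module.Finite.of_injective (T.comp (addFun K A).subtype)
  intro f g hfg
  apply Subtype.ext
  funext x
  by_cases hx : x ∈ A
  · have hfS : ∀ s ∈ S, (f : G → K) s = (g : G → K) s := fun s hs => congrFun hfg ⟨s, hs⟩
    rw [← hS] at hx
    induction hx using Subgroup.closure_induction with
    | mem s hs => exact hfS s hs
    | one => rw [addFun_one f.2, addFun_one g.2]
    | mul a b ha hb iha ihb =>
      rw [hS] at ha hb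
      rw [f.2.1 a ha b hb, g.2.1 a ha b hb, iha, ihb]
    | inv a ha iha =>
      rw [hS] at ha
      rw [addFun_inv f.2 ha, addFun_inv g.2 ha, iha]
  · rw [f.2.2 x hx, g.2.2 x hx]

lemma conjAct_mem {A : Subgroup G} (hA : A.Normal) (g : G) {f : G → K} (hf : f ∈ addFun K A) :
    conjAct K g f ∈ addFun K A := by
  have hconj : ∀ a ∈ A, g⁻¹ * a * g ∈ A := by
    intro a ha
    have := hA.conj_mem a ha g⁻¹
    rwa [inv_inv] at this
  refine ⟨fun a ha b hb => ?_, fun x hx => ?_⟩
  · rw [conjAct_apply, conjAct_apply, conjAct_apply, ← hf.1 _ (hconj a ha) _ (hconj b hb)]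
    congr 1; group
  · rw [conjAct_apply]
    apply hf.2
    intro h
    apply hx
    have := hA.conj_mem _ h g
    have e : g * (g⁻¹ * x * g) * g⁻¹ = x := by group
    rwa [e] at this

/-- the action on additive functions -/
def conjRep (K : Type*) [Field K] {A : Subgroup G} (hA : A.Normal) :
    G →* Module.End K (addFun K A) where
  toFun g := (conjAct K g).restrict (fun f hf => conjAct_mem hA g hf)
  map_one' := by
    apply LinearMap.ext
    intro f
    apply Subtype.ext
    rw [LinearMap.coe_restrict_apply, map_one]; rfl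
  map_mul' g h := by
    apply LinearMap.ext
    intro f
    apply Subtype.ext
    rw [LinearMap.coe_restrict_apply, map_mul]; rfl

lemma conjRep_apply {A : Subgroup G} (hA : A.Normal) (g : G) (f : addFun K A) (x : G) :
    ((conjRep K hA g f : addFun K A) : G → K) x = (f : G → K) (g⁻¹ * x * g) := rfl

/-- the annihilator of a space of additive functions -/
def annih {A : Subgroup G} (U : Submodule K (addFun K A)) : Subgroup G where
  carrier := {a | a ∈ A ∧ ∀ f ∈ U, (f : G → K) a = 0}
  one_mem' := ⟨A.one_mem, fun f _ => addFun_one f.2⟩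
  mul_mem' := by
    rintro a b ⟨ha, ha'⟩ ⟨hb, hb'⟩
    exact ⟨A.mul_mem ha hb, fun f hf => by rw [f.2.1 a ha b hb, ha' f hf, hb' f hf, add_zero]⟩
  inv_mem' := by
    rintro a ⟨ha, ha'⟩
    exact ⟨A.inv_mem ha, fun f hf => by rw [addFun_inv f.2 ha, ha' f hf, neg_zero]⟩

lemma mem_annih {A : Subgroup G} {U : Submodule K (addFun K A)} {a : G} :
    a ∈ annih U ↔ a ∈ A ∧ ∀ f ∈ U, (f : G → K) a = 0 := Iff.rfl

lemma annih_le {A : Subgroup G} (U : Submodule K (addFun K A)) : annih U ≤ A := fun a ha => ha.1

lemma annih_normal {A : Subgroup G} (hA : A.Normal) {U : Submodule K (addFun K A)}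
    (hU : ∀ g, ∀ f ∈ U, conjRep K hA g f ∈ U) : (annih U).Normal := by
  constructor
  rintro a ⟨ha, ha'⟩ g
  refine ⟨hA.conj_mem a ha g, fun f hf => ?_⟩
  have := ha' _ (hU g⁻¹ f hf)
  rwa [conjRep_apply, inv_inv] at this

end funs

/-- **Lemma B**: if `G` is `FinG` and has a finitely generated abelian normal subgroup with
virtually nilpotent quotient then `G` is virtually nilpotent. -/
theorem lemmaB (hG : FinG G) {A : Subgroup G} (hA : A.Normal)
    (hcomm : ∀ a ∈ A, ∀ b ∈ A, a * b = b * a) (hAfg : A.FG) (hVN : VNm A) :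
    VNm (⊥ : Subgroup G) := by
  classical
  set K := AlgebraicClosure ℚ with hK
  haveI : FiniteDimensional K (addFun K A) := addFun_finite hAfg
  haveI := hG.fg
  -- `P`
  set P : Submodule K (addFun K A) → Prop := fun U =>
    (∀ g, ∀ f ∈ U, conjRep K hA g f ∈ U) ∧ VNm (annih U) with hP
  have hPbot : P ⊥ := by
    refine ⟨fun g f hf => ?_, hVN.mono fun a ha => ⟨ha, fun f hf => ?_⟩⟩
    · rw [Submodule.mem_bot] at hf ⊢; rw [hf, map_zero]
    · rw [Submodule.mem_bot] at hf; rw [hf]; rfl
  obtain ⟨U, hUP, hUmax⟩ := (wellFounded_gt (α := Submodule K (addFun K A))).has_min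
    {U | P U} ⟨⊥, hPbot⟩
  obtain ⟨hUinv, hUVN⟩ : P U := hUP
  have hUtop : U = ⊤ := by
    by_contra hne
    haveI : Nontrivial (addFun K A ⧸ U) := Submodule.Quotient.nontrivial_iff.mpr hne
    let ρ : G →* Module.End K (addFun K A ⧸ U) :=
      { toFun := fun g => U.mapQ U (conjRep K hA g) (fun f hf => hUinv g f hf)
        map_one' := by
          apply LinearMap.ext
          intro f
          induction f using Submodule.Quotient.induction_on with
          | _ f => rw [Submodule.mapQ_apply, map_one]; rfl
        map_mul' := by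
          intro g h
          apply LinearMap.ext
          intro f
          induction f using Submodule.Quotient.induction_on with
          | _ f =>
            rw [Submodule.mapQ_apply, map_mul, Module.End.mul_apply, Module.End.mul_apply,
              Submodule.mapQ_apply, Submodule.mapQ_apply] }
    have hρ : ∀ g f, ρ g (Submodule.Quotient.mk f) = Submodule.Quotient.mk (conjRep K hA g f) :=
      fun g f => rfl
    obtain ⟨F, hF, k, hk⟩ := hVN
    have htriv : ∀ g ∈ F.lowerCentralSeries k, ρ g = 1 := by
      intro g hg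
      have hgA := hk hg
      apply LinearMap.ext
      intro f
      induction f using Submodule.Quotient.induction_on with
      | _ f =>
        rw [hρ, Module.End.one_apply]
        congr 1
        apply Subtype.ext
        funext x
        rw [conjRep_apply]
        by_cases hx : x ∈ A
        · rw [hcomm _ (A.inv_mem hgA) x hx, inv_mul_cancel_right]
        · rw [f.2.2 x hx]
          apply f.2.2
          intro h
          apply hx
          have := hA.conj_mem _ h g
          have e : g * (g⁻¹ * x * g) * g⁻¹ = x := by group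
          rwa [e] at this
    obtain ⟨H, hH, -, v, hv, lam, hlam⟩ := exists_eigen ρ hF htriv
    induction v using Submodule.Quotient.induction_on with
    | _ π =>
    have hπU : π ∉ U := by
      intro h; exact hv ((Submodule.Quotient.mk_eq_zero U).mpr h)
    have hlamU : ∀ h ∈ H, conjRep K hA h π - lam h • π ∈ U := by
      intro h hh
      have h1 := hlam h hh
      rw [hρ, ← Submodule.Quotient.mk_smul, Submodule.Quotient.eq] at h1
      exact h1
    set B := annih U with hB
    have hBA : B ≤ A := annih_le U
    have hBn : B.Normal := annih_normal hA hUinv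
    set U' : Submodule K (addFun K A) :=
      U ⊔ Submodule.span K (Set.range fun g => conjRep K hA g π) with hU'
    have hU'inv : ∀ g, ∀ f ∈ U', conjRep K hA g f ∈ U' := by
      intro g f hf
      obtain ⟨f1, hf1, f2, hf2, rfl⟩ := Submodule.mem_sup.mp hf
      rw [map_add]
      apply Submodule.add_mem
      · exact Submodule.mem_sup_left (hUinv g f1 hf1)
      · apply Submodule.mem_sup_right
        induction hf2 using Submodule.span_induction with
        | mem x hx =>
          obtain ⟨g', rfl⟩ := hx
          simp only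
          rw [← Module.End.mul_apply, ← map_mul]
          exact Submodule.subset_span ⟨g * g', rfl⟩
        | zero => rw [map_zero]; exact Submodule.zero_mem _
        | add x y hx hy ihx ihy =>
          rw [map_add]
          refine Submodule.add_mem _ (ihx ?_) (ihy ?_)
          · exact Submodule.mem_sup.mpr ⟨f1, hf1, x, hx, rfl⟩
          · exact Submodule.mem_sup.mpr ⟨f1, hf1, y, hy, rfl⟩
        | smul a x hx ihx =>
          rw [map_smul]
          exact Submodule.smul_mem _ _ (ihx (Submodule.mem_sup.mpr ⟨f1, hf1, x, hx, rfl⟩))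
    have hπU' : π ∈ U' := by
      apply Submodule.mem_sup_right
      apply Submodule.subset_span
      refine ⟨1, ?_⟩
      simp only [map_one]; rfl
    have hUU' : U < U' := by
      refine lt_of_le_of_ne le_sup_left ?_
      intro h; rw [← h] at hπU'; exact hπU hπU'
    have hannU' : ∀ b ∈ B, (∀ g, (π : G → K) (g⁻¹ * b * g) = 0) → b ∈ annih U' := by
      intro b hb hg
      refine ⟨hBA hb, fun f hf => ?_⟩
      obtain ⟨f1, hf1, f2, hf2, rfl⟩ := Submodule.mem_sup.mp hf
      have h1 : (f1 : G → K) b = 0 := hb.2 f1 hf1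
      have h2 : ((f1 + f2 : addFun K A) : G → K) b = (f1 : G → K) b + (f2 : G → K) b := rfl
      rw [h2, h1, zero_add]
      clear h2 hf
      induction hf2 using Submodule.span_induction with
      | mem x hx =>
        obtain ⟨g', rfl⟩ := hx
        exact hg g'
      | zero => rfl
      | add x y hx hy ihx ihy =>
        have : ((x + y : addFun K A) : G → K) b = (x : G → K) b + (y : G → K) b := rfl
        rw [this, ihx, ihy, add_zero]
      | smul a x hx ihx =>
        have : ((a • x : addFun K A) : G → K) b = a * (x : G → K) b := rfl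
        rw [this, ihx, mul_zero]
    have hVN' : VNm (annih U') := by
      by_cases hcase : ∀ b ∈ B, (π : G → K) b = 0
      · apply hUVN.mono
        intro b hb
        apply hannU' b hb
        intro g
        apply hcase
        have := hBn.conj_mem b hb g⁻¹
        rwa [inv_inv] at this
      · push Not at hcase
        obtain ⟨b0, hb0, hb0'⟩ := hcase
        have hBfg : B.FG := by
          obtain ⟨Y, hY, hYB, hBY⟩ := noeth_step (P := A) (N := ⊥) (D := B) hAfg (by
            rw [Subgroup.commutator_le]
            intro a ha b hb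
            rw [Subgroup.mem_bot, commutatorElement_eq_one_iff_mul_comm]
            exact hcomm a ha b hb) bot_le hBA
          rw [sup_bot_eq] at hBY
          exact (Subgroup.fg_iff _).mpr
            ⟨Y, le_antisymm ((Subgroup.closure_le _).mpr hYB) hBY, hY⟩
        have hBcomm : ∀ a ∈ B, ∀ b ∈ B, a * b = b * a := fun a ha b hb =>
          hcomm a (hBA ha) b (hBA hb)
        have hπadd : ∀ a ∈ B, ∀ b ∈ B, (π : G → K) (a * b) = (π : G → K) a + (π : G → K) b :=
          fun a ha b hb => π.2.1 a (hBA ha) b (hBA hb)
        have hlam' : ∀ h ∈ H, ∀ b ∈ B,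
            (π : G → K) (h * b * h⁻¹) = lam h⁻¹ * (π : G → K) b := by
          intro h hh b hb
          have h1 := hlamU h⁻¹ (H.inv_mem hh)
          have h2 := hb.2 _ h1
          have h3 : ((conjRep K hA h⁻¹ π - lam h⁻¹ • π : addFun K A) : G → K) b =
            (π : G → K) (h⁻¹⁻¹ * b * h⁻¹) - lam h⁻¹ * (π : G → K) b := rfl
          rw [h3, inv_inv, sub_eq_zero] at h2
          exact h2
        have htor := torsion_character hG hBn hBcomm hBfg hUVN hπadd hb0 hb0' hH
          (lam := fun h => lam h⁻¹) hlam'
        -- lam' is multiplicative on H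
        set l : G → K := fun h => lam h⁻¹ with hl
        have hlmul : ∀ g ∈ H, ∀ h ∈ H, l (g * h) = l g * l h := by
          intro g hg h hh
          have h1 := hlam' (g * h) (H.mul_mem hg hh) b0 hb0
          have h2 := hlam' g hg _ (hBn.conj_mem b0 hb0 h)
          rw [hlam' h hh b0 hb0] at h2
          have e : g * h * b0 * (g * h)⁻¹ = g * (h * b0 * h⁻¹) * g⁻¹ := by group
          rw [e, h2, ← mul_assoc] at h1
          exact (mul_right_cancel₀ hb0' h1).symm
        have hlone : l 1 = 1 := by
          have h1 := hlam' 1 H.one_mem b0 hb0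
          rw [one_mul, inv_one, mul_one] at h1
          have h2 : lam 1 * (π : G → K) b0 = 1 * (π : G → K) b0 := by rw [one_mul]; exact h1.symm
          have h3 := mul_right_cancel₀ hb0' h2
          simp only [hl, inv_one]
          exact h3
        haveI := hH
        obtain ⟨S, hS, hSf⟩ := (Subgroup.fg_iff _).mp
          ((Group.fg_iff_subgroup_fg H).mp inferInstance)
        have hSH : S ⊆ H := by rw [← hS]; exact Subgroup.subset_closure
        obtain ⟨N, hN, hNS⟩ : ∃ N : ℕ, 0 < N ∧ ∀ s ∈ S, l s ^ N = 1 := by
          choose! n hn0 hn using htor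
          refine ⟨∏ s ∈ hSf.toFinset, n s, ?_, ?_⟩
          · apply Finset.prod_pos
            intro s hs
            exact hn0 s (hSH (hSf.mem_toFinset.mp hs))
          · intro s hs
            obtain ⟨m, hm⟩ := Finset.dvd_prod_of_mem n (hSf.mem_toFinset.mpr hs)
            rw [hm, pow_mul, hn s (hSH hs), one_pow]
        have hNall : ∀ h ∈ H, l h ^ N = 1 := by
          intro h hh
          rw [← hS] at hh
          induction hh using Subgroup.closure_induction with
          | mem s hs => exact hNS s hs
          | one => rw [hlone, one_pow]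
          | mul a b ha hb iha ihb =>
            rw [hS] at ha hb
            rw [hlmul a ha b hb, mul_pow, iha, ihb, one_mul]
          | inv a ha iha =>
            rw [hS] at ha
            have h1 := hlmul a ha a⁻¹ (H.inv_mem ha)
            rw [mul_inv_cancel, hlone] at h1
            have h2 : (l a * l a⁻¹) ^ N = 1 := by rw [← h1, one_pow]
            rw [mul_pow, iha, one_mul] at h2
            exact h2
        let H' : Subgroup G :=
          { carrier := {h | h ∈ H ∧ l h = 1}
            one_mem' := ⟨H.one_mem, hlone⟩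
            mul_mem' := by
              rintro a b ⟨ha, ha1⟩ ⟨hb, hb1⟩
              exact ⟨H.mul_mem ha hb, by rw [hlmul a ha b hb, ha1, hb1, one_mul]⟩
            inv_mem' := by
              rintro a ⟨ha, ha1⟩
              refine ⟨H.inv_mem ha, ?_⟩
              have h1 := hlmul a ha a⁻¹ (H.inv_mem ha)
              rw [mul_inv_cancel, hlone, ha1, one_mul] at h1
              exact h1.symm }
        haveI hH' : H'.FiniteIndex := by
          apply finiteIndex_of_finite_image hH l
          · refine (Finset.finite_toSet (Polynomial.nthRoots N (1 : K)).toFinset).subset ?_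
            rintro _ ⟨h, hh, rfl⟩
            rw [Finset.mem_coe, Multiset.mem_toFinset, Polynomial.mem_nthRoots hN]
            exact hNall h hh
          · intro x hx y hy hxy
            refine ⟨H.mul_mem (H.inv_mem hx) hy, ?_⟩
            rw [hlmul _ (H.inv_mem hx) y hy, ← hxy, ← hlmul _ (H.inv_mem hx) x hx,
              inv_mul_cancel, hlone]
        apply hUVN.of_centralize (C := H'.normalCore) inferInstance
        intro m hm c hc
        have hcm : ⁅m, c⁆ = m * (c * m⁻¹ * c⁻¹) := by
          simp only [commutatorElement_def]; group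
        have hcmB : c * m⁻¹ * c⁻¹ ∈ B := hBn.conj_mem _ (B.inv_mem hm) c
        have hmB : ⁅m, c⁆ ∈ B := by rw [hcm]; exact B.mul_mem hm hcmB
        apply hannU' _ hmB
        intro g
        have hm' : g⁻¹ * m * g ∈ B := by
          have := hBn.conj_mem m hm g⁻¹
          rwa [inv_inv] at this
        have hc' : g⁻¹ * c * g ∈ H' := by
          have h1 : g⁻¹ * c * g⁻¹⁻¹ ∈ H'.normalCore :=
            (H'.normalCore_normal).conj_mem c hc g⁻¹
          rw [inv_inv] at h1
          exact H'.normalCore_le h1
        have e : g⁻¹ * ⁅m, c⁆ * g = (g⁻¹ * m * g) *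
            ((g⁻¹ * c * g) * (g⁻¹ * m * g)⁻¹ * (g⁻¹ * c * g)⁻¹) := by
          rw [hcm]; group
        rw [e, hπadd _ hm' _ (hBn.conj_mem _ (B.inv_mem hm') _),
          hlam' _ hc'.1 _ (B.inv_mem hm')]
        have h2 : lam (g⁻¹ * c * g)⁻¹ = 1 := hc'.2
        rw [h2, one_mul, addFun_inv π.2 (hBA hm'), add_neg_cancel]
    exact hUmax U' ⟨hU'inv, hVN'⟩ hUU'
  -- conclusion
  rw [hUtop] at hUVN
  have hnorm : (annih (⊤ : Submodule K (addFun K A))).Normal :=
    annih_normal hA (fun g f _ => trivial)
  refine hUVN.of_finite_ext hnorm inferInstance bot_le ?_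
  rw [Subgroup.relIndex_bot_left]
  obtain ⟨n, π0, hadd, -, -, hfinK⟩ := exists_free_quotient (P := A) (N := ⊥) hAfg bot_le (by
    rw [Subgroup.commutator_le]
    intro a ha b hb
    rw [Subgroup.mem_bot, commutatorElement_eq_one_iff_mul_comm]
    exact hcomm a ha b hb)
  have hzero : ∀ a ∈ annih (⊤ : Submodule K (addFun K A)), π0 a = 0 := by
    rintro a ⟨ha, ha'⟩
    funext i
    have hf : (fun x => if x ∈ A then ((π0 x i : ℤ) : K) else 0) ∈ addFun K A := by
      refine ⟨fun a ha b hb => ?_, fun x hx => ?_⟩
      · simp only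
        rw [if_pos ha, if_pos hb, if_pos (A.mul_mem ha hb), hadd a ha b hb]
        push_cast [Pi.add_apply]; rfl
      · simp only
        rw [if_neg hx]
    have h1 := ha' ⟨_, hf⟩ trivial
    simp only at h1
    rw [if_pos ha] at h1
    exact_mod_cast h1
  have h1 : ∀ x, x ∈ (annih (⊤ : Submodule K (addFun K A))) → x ∈ A ∧ π0 x = 0 :=
    fun x hx => ⟨hx.1, hzero x hx⟩
  -- kernel of π0
  have hone : π0 1 = 0 := by
    have := hadd 1 A.one_mem 1 A.one_mem
    rw [mul_one] at this
    simpa using this
  let K0 : Subgroup G :=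
    { carrier := {x | x ∈ A ∧ π0 x = 0}
      one_mem' := ⟨A.one_mem, hone⟩
      mul_mem' := by
        rintro a b ⟨ha, ha0⟩ ⟨hb, hb0⟩
        exact ⟨A.mul_mem ha hb, by rw [hadd a ha b hb, ha0, hb0, add_zero]⟩
      inv_mem' := by
        rintro a ⟨ha, ha0⟩
        refine ⟨A.inv_mem ha, ?_⟩
        have := hadd a ha a⁻¹ (A.inv_mem ha)
        rw [mul_inv_cancel, hone, ha0, zero_add] at this
        exact this.symm }
  have hK0 := hfinK K0 (fun x => Iff.rfl)
  have h2 : (⊥ : Subgroup G).relIndex K0 ≠ 0 := hK0.index_ne_zero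
  rw [Subgroup.relIndex_bot_left] at h2
  haveI : Finite K0 := Nat.finite_of_card_ne_zero h2
  have h3 : annih (⊤ : Submodule K (addFun K A)) ≤ K0 := fun x hx => h1 x hx
  haveI : Finite (annih (⊤ : Submodule K (addFun K A))) :=
    Finite.of_injective (Subgroup.inclusion h3) (Subgroup.inclusion_injective h3)
  exact Nat.card_ne_zero.mpr ⟨⟨1⟩, inferInstance⟩

end Pool.Agent.LHF
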