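import Pool.Agent.LHF.LemmaB

set_option autoImplicit false
set_option linter.unusedSectionVars false
set_option linter.unusedVariables false
set_option linter.style.haveILetI false

namespace Pool.Agent.LHF

open scoped commutatorElement

variable {G : Type*} [Group G]

/-- the structural property: normal subgroups with virtually nilpotent quotient are finitely
generated, and the quotient by their derived subgroup is again virtually nilpotent -/
def QQ (G : Type*) [Group G] : Prop :=
  ∀ N : Subgroup G, N.Normal → VNm N → N.FG ∧ VNm ⁅N, N⁆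

lemma VNm.map {Q : Type*} [Group Q] {N : Subgroup G} (h : VNm N) (φ : G →* Q)
    (hφ : Function.Surjective φ) : VNm (N.map φ) := by
  obtain ⟨F, hF, k, hk⟩ := h
  haveI := hF
  refine ⟨F.map φ, ⟨?_⟩, k, ?_⟩
  · have h1 := Subgroup.index_map_dvd F hφ
    intro h0
    rw [h0] at h1
    exact hF.index_ne_zero (zero_dvd_iff.mp h1)
  · rw [← Subgroup.map_lowerCentralSeries]
    exact Subgroup.map_mono hk

lemma VNm.comap {Q : Type*} [Group Q] {N : Subgroup Q} (h : VNm N) (φ : G →* Q) :
    VNm (N.comap φ) := by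
  obtain ⟨F, hF, k, hk⟩ := h
  haveI := hF
  refine ⟨F.comap φ, ⟨?_⟩, k, ?_⟩
  · rw [Subgroup.index_comap]
    exact (inferInstance : (F.subgroupOf φ.range).FiniteIndex).index_ne_zero
  rw [← Subgroup.map_le_iff_le_comap, Subgroup.map_lowerCentralSeries]
  exact (Subgroup.lowerCentralSeries_mono k (Subgroup.map_comap_le φ F)).trans hk

theorem FinG.qq (hG : FinG G) : QQ G := by
  intro N hN hVN
  haveI := hN
  have hfg : N.FG := fg_of_VNm (fun F _ hF i => hG.lcs_fg F hF i) hVN
  refine ⟨hfg, ?_⟩
  haveI : (⁅N, N⁆ : Subgroup G).Normal := Subgroup.commutator_normal _ _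
  set Q := QuotientGroup.mk' ⁅N, N⁆ with hQ
  have hsurj : Function.Surjective Q := QuotientGroup.mk'_surjective _
  have hFinQ : FinG (G ⧸ ⁅N, N⁆) := hG.of_surjective Q hsurj
  have hAn : (N.map Q).Normal := hN.map Q hsurj
  have hAcomm : ∀ a ∈ N.map Q, ∀ b ∈ N.map Q, a * b = b * a := by
    rintro _ ⟨a, ha, rfl⟩ _ ⟨b, hb, rfl⟩
    rw [← commutatorElement_eq_one_iff_mul_comm, ← map_commutatorElement]
    have : ⁅a, b⁆ ∈ ⁅N, N⁆ := Subgroup.commutator_mem_commutator ha hb
    exact (QuotientGroup.eq_one_iff _).mpr this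
  have hAfg : (N.map Q).FG := by
    obtain ⟨S, hS, hSf⟩ := (Subgroup.fg_iff _).mp hfg
    exact (Subgroup.fg_iff _).mpr ⟨Q '' S, by rw [← MonoidHom.map_closure, hS], hSf.image _⟩
  have h1 := lemmaB hFinQ hAn hAcomm hAfg (hVN.map Q hsurj)
  have h2 := h1.comap Q
  rw [MonoidHom.comap_bot, hQ, QuotientGroup.ker_mk'] at h2
  exact h2

theorem QQ.of_surjective {Q : Type*} [Group Q] (h : QQ G) (φ : G →* Q)
    (hφ : Function.Surjective φ) : QQ Q := by
  intro N hN hVN
  obtain ⟨h1, h2⟩ := h (N.comap φ) (hN.comap φ) (hVN.comap φ)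
  have hmc : (N.comap φ).map φ = N := Subgroup.map_comap_eq_self_of_surjective hφ N
  refine ⟨?_, ?_⟩
  · obtain ⟨S, hS, hSf⟩ := (Subgroup.fg_iff _).mp h1
    exact (Subgroup.fg_iff _).mpr ⟨φ '' S, by rw [← MonoidHom.map_closure, hS, hmc],
      hSf.image _⟩
  · have := h2.map φ hφ
    rwa [Subgroup.map_commutator, hmc] at this

lemma QQ.lcs_fg (h : QQ G) (F : Subgroup G) (hFn : F.Normal) (hF : F.FiniteIndex) (i : ℕ) :
    (F.lowerCentralSeries i).FG := by
  refine (h _ ?_ ⟨F, hF, i, le_rfl⟩).1
  induction i with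
  | zero => exact hFn
  | succ i ih =>
    rw [Subgroup.lowerCentralSeries_succ]
    exact Subgroup.commutator_normal _ _

/-- derived series of a subgroup -/
def der (M : Subgroup G) : ℕ → Subgroup G
  | 0 => M
  | n + 1 => ⁅der M n, der M n⁆

lemma der_normal {M : Subgroup G} (hM : M.Normal) (n : ℕ) : (der M n).Normal := by
  induction n with
  | zero => exact hM
  | succ n ih => exact Subgroup.commutator_normal _ _

lemma der_le_lcs (M : Subgroup G) (n : ℕ) : der M n ≤ M.lowerCentralSeries n := by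
  induction n with
  | zero => exact le_rfl
  | succ n ih =>
    rw [Subgroup.lowerCentralSeries_succ]
    exact Subgroup.commutator_mono ih (ih.trans (M.lowerCentralSeries_le_self n))

lemma QQ.der (h : QQ G) {M : Subgroup G} (hM : M.Normal) (hVN : VNm M) (n : ℕ) :
    VNm (der M n) := by
  induction n with
  | zero => exact hVN
  | succ n ih => exact (h _ (der_normal hM n) ih).2

/-- inheritance -/
theorem QQ.of_normal (h : QQ G) {M : Subgroup G} (hM : M.Normal) (hMVN : VNm M) : QQ M := by
  have hMfg : M.FG := (h M hM hMVN).1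
  intro N hN hVN
  obtain ⟨F1, hF1, k, hk⟩ := hVN
  have hrel : (F1.map M.subtype).relIndex M ≠ 0 := by
    have : (F1.map M.subtype).subgroupOf M = F1 := by
      ext x
      rw [Subgroup.mem_subgroupOf]
      constructor
      · rintro ⟨y, hy, hxy⟩
        have : y = x := Subtype.ext hxy
        rwa [← this]
      · intro hx; exact ⟨x, hx, rfl⟩
    show ((F1.map M.subtype).subgroupOf M).index ≠ 0
    rw [this]
    exact hF1.index_ne_zero
  obtain ⟨M2, hM2n, hM21, hM2M, hM2rel⟩ := exists_normal_finite_relIndex hM hMfg hrel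
  have hM2VN : VNm M2 := hMVN.of_finite_ext hM hM2n hM2M hM2rel
  have hLVN : VNm (Pool.Agent.LHF.der M2 k) := h.der hM2n hM2VN k
  have hLVN' : VNm (Pool.Agent.LHF.der M2 (k + 1)) := h.der hM2n hM2VN (k + 1)
  have hLN : Pool.Agent.LHF.der M2 k ≤ N.map M.subtype := by
    refine (der_le_lcs M2 k).trans ?_
    refine (Subgroup.lowerCentralSeries_mono k hM21).trans ?_
    change (F1.map M.subtype).lowerCentralSeries k ≤ _
    rw [← Subgroup.map_lowerCentralSeries]
    exact Subgroup.map_mono hk
  refine ⟨?_, ?_⟩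
  · have h1 : (N.map M.subtype).FG :=
      fg_of_VNm (fun F hFn hF i => h.lcs_fg F hFn hF i) (hLVN.mono hLN)
    have e := N.equivMapOfInjective M.subtype M.subtype_injective
    rw [← Group.fg_iff_subgroup_fg] at h1 ⊢
    exact Group.fg_of_surjective (f := e.symm.toMonoidHom) e.symm.surjective
  · have h1 := hLVN'.comap M.subtype
    apply h1.mono
    have h2 : Pool.Agent.LHF.der M2 (k + 1) ≤ ⁅N, N⁆.map M.subtype := by
      rw [Subgroup.map_commutator]
      exact Subgroup.commutator_mono hLN hLN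
    refine (Subgroup.comap_mono h2).trans ?_
    rw [Subgroup.comap_map_eq_self_of_injective M.subtype_injective]

/-- extension step -/
theorem QQ.vn_of_ext (h : QQ G) {A : Subgroup G} (hA : A.Normal) (hAVN : VNm A)
    (hA' : VNm (⊥ : Subgroup A)) : VNm (⊥ : Subgroup G) := by
  have hAfg : A.FG := (h A hA hAVN).1
  obtain ⟨F1, hF1, k, hk⟩ := hA'
  have hrel : (F1.map A.subtype).relIndex A ≠ 0 := by
    have : (F1.map A.subtype).subgroupOf A = F1 := by
      ext x
      rw [Subgroup.mem_subgroupOf]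
      constructor
      · rintro ⟨y, hy, hxy⟩
        have : y = x := Subtype.ext hxy
        rwa [← this]
      · intro hx; exact ⟨x, hx, rfl⟩
    show ((F1.map A.subtype).subgroupOf A).index ≠ 0
    rw [this]
    exact hF1.index_ne_zero
  obtain ⟨M2, hM2n, hM21, hM2A, hM2rel⟩ := exists_normal_finite_relIndex hA hAfg hrel
  have hM2VN : VNm M2 := hAVN.of_finite_ext hA hM2n hM2A hM2rel
  refine (h.der hM2n hM2VN k).mono ?_
  refine (der_le_lcs M2 k).trans ?_
  refine (Subgroup.lowerCentralSeries_mono k hM21).trans ?_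
  change (F1.map A.subtype).lowerCentralSeries k ≤ _
  rw [← Subgroup.map_lowerCentralSeries]
  refine (Subgroup.map_mono hk).trans ?_
  rw [Subgroup.map_bot]

end Pool.Agent.LHF
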