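import Pool.Agent.LHF.Core

set_option autoImplicit false
set_option linter.unusedSectionVars false

namespace Pool.Agent.LHF

variable {G : Type*} [Group G] {ι : Type*} [Fintype ι] [Nonempty ι]

/-- bounded increments give bounded displacement of the iterates -/
lemma abs_it_sub_le {σ : ι → G} {f : G → ℝ} {a : ℝ} (hf : ∀ x j, |f (x * σ j) - f x| ≤ a)
    (n : ℕ) (x : G) : |it σ n f x - f x| ≤ n * a := by
  induction n generalizing x with
  | zero => simp
  | succ n ih =>
    rw [it_succ']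
    have h1 : |avg σ (it σ n f) x - f x| ≤ n * a + a := by
      apply abs_avg_sub_le
      intro j
      calc |it σ n f (x * σ j) - f x|
          = |(it σ n f (x * σ j) - f (x * σ j)) + (f (x * σ j) - f x)| := by congr 1; ring
        _ ≤ |it σ n f (x * σ j) - f (x * σ j)| + |f (x * σ j) - f x| := abs_add_le _ _
        _ ≤ n * a + a := add_le_add (ih _) (hf x j)
    push_cast; linarith

/-- increments controlled by a weight `Y` -/
def Inc (σ : ι → G) (Y : G → ℝ) (f : G → ℝ) (a : ℝ) : Prop :=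
  ∀ x j, |f (x * σ j) - f x| ≤ a * Y x

lemma Inc.avg {σ : ι → G} {Y f : G → ℝ} {a b : ℝ} (ha : 0 ≤ a)
    (hY : ∀ x j, Y (x * σ j) ≤ b * Y x) (hf : Inc σ Y f a) :
    Inc σ Y (avg σ f) (a * (b + 2)) := by
  have h1 : ∀ y, |LHF.avg σ f y - f y| ≤ a * Y y := fun y =>
    abs_avg_sub_le σ fun j => hf y j
  intro x j
  have h2 := h1 (x * σ j)
  have h3 := hf x j
  have h4 := h1 x
  have h5 : a * Y (x * σ j) ≤ a * (b * Y x) := by gcongr; exact hY x j
  rw [abs_le] at *
  constructor <;> nlinarith [h2.1, h2.2, h3.1, h3.2, h4.1, h4.2]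

lemma Inc.it {σ : ι → G} {Y f : G → ℝ} {a b : ℝ} (ha : 0 ≤ a) (hb : 0 ≤ b)
    (hY : ∀ x j, Y (x * σ j) ≤ b * Y x) (hf : Inc σ Y f a) (n : ℕ) :
    ∃ a', 0 ≤ a' ∧ Inc σ Y (it σ n f) a' := by
  induction n with
  | zero => exact ⟨a, ha, hf⟩
  | succ n ih =>
    obtain ⟨a', ha', h'⟩ := ih
    refine ⟨a' * (b + 2), by positivity, ?_⟩
    rw [it_succ']
    exact h'.avg ha' hY

lemma Inc.sum {σ : ι → G} {Y : G → ℝ} (hY0 : ∀ x, 0 ≤ Y x) {f : ℕ → G → ℝ} (N : ℕ)
    (hf : ∀ n, ∃ a, 0 ≤ a ∧ Inc σ Y (f n) a) :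
    ∃ a, 0 ≤ a ∧ Inc σ Y (fun x => ∑ n ∈ Finset.range N, f n x) a := by
  choose a ha hfa using hf
  refine ⟨∑ n ∈ Finset.range N, a n, Finset.sum_nonneg fun n _ => ha n, ?_⟩
  intro x j
  rw [← Finset.sum_sub_distrib, Finset.sum_mul]
  exact (Finset.abs_sum_le_sum_abs _ _).trans (Finset.sum_le_sum fun n _ => hfa n x j)

section
variable (h R : G → ℝ) (M : ℝ)

/-- `D + Y` -/
noncomputable def D1 (x : G) : ℝ := DD h R x + YY h R x
/-- `max (D + Y) (M - h)` -/
noncomputable def D2 (x : G) : ℝ := max (D1 h R x) (-h x + M)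

variable {σ : ι → G} {h R M} {L C : ℝ} (hg : Growth σ h R L C)
include hg

lemma Growth.D1_nonneg (x : G) : 0 ≤ D1 h R x :=
  add_nonneg (hg.DD_nonneg x) (hg.YY_pos x).le

lemma Growth.D2_nonneg (x : G) : 0 ≤ D2 h R M x := le_max_of_le_left (hg.D1_nonneg x)

lemma Growth.avg_negh (x : G) : avg σ (fun y => -h y + M) x = -h x + M := by
  rw [avg_add, avg_neg, hg.harm, avg_const]

lemma Growth.avg_D1_le (x : G) : avg σ (D1 h R) x ≤ avg σ (D2 h R M) x :=
  avg_mono σ (fun _ => le_max_left _ _) x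

lemma Growth.Y_small {y1 : ℝ} (hy1 : 0 < y1) (hM : M = 1 - 2 * Real.log y1) {x : G}
    (hx : -h x + M < D1 h R x) : YY h R x ≤ y1 := by
  have h1 := hg.YY_le_one x
  unfold D1 at hx
  rw [hM] at hx
  have h2 : -(DD h R x + h x) / 2 ≤ Real.log y1 := by linarith
  calc YY h R x = Real.exp (-(DD h R x + h x) / 2) := rfl
    _ ≤ Real.exp (Real.log y1) := Real.exp_le_exp.mpr h2
    _ = y1 := Real.exp_log hy1

/-- strict drift off the trunk -/
lemma Growth.D2_strict {ca y1 : ℝ} (hca : 0 < ca)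
    (hJ : ∀ x, 1 + ca ≤
      (∑ j, Real.exp (-(h (x * σ j) - h x) / 2)) / (Fintype.card ι : ℝ))
    (hy1 : 0 < y1) (hy1' : C3 L C * y1 * (1 + (1 + ca) / 2) ≤ ca / 2)
    (hM : M = 1 - 2 * Real.log y1) (x : G) (hx : -h x + M < D1 h R x) :
    D2 h R M x + ca / 2 * YY h R x ≤ avg σ (D2 h R M) x := by
  have h1 : D2 h R M x = D1 h R x := max_eq_left hx.le
  rw [h1]
  have h2 := hg.Y_small hy1 hM hx
  have hC := hg.C3_pos
  have h3 := hg.drift_D1 hca x (hJ x)
    (le_trans (by gcongr) hy1')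
  exact h3.trans (hg.avg_D1_le x)

lemma Growth.D2_sub {ca y1 : ℝ} (hca : 0 < ca)
    (hJ : ∀ x, 1 + ca ≤
      (∑ j, Real.exp (-(h (x * σ j) - h x) / 2)) / (Fintype.card ι : ℝ))
    (hy1 : 0 < y1) (hy1' : C3 L C * y1 * (1 + (1 + ca) / 2) ≤ ca / 2)
    (hM : M = 1 - 2 * Real.log y1) (x : G) :
    D2 h R M x ≤ avg σ (D2 h R M) x := by
  by_cases hx : -h x + M < D1 h R x
  · have h1 := hg.D2_strict hca hJ hy1 hy1' hM x hx
    have := hg.YY_pos x
    have : 0 ≤ ca / 2 * YY h R x := by positivity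
    linarith
  · push Not at hx
    have h1 : D2 h R M x = -h x + M := max_eq_right hx
    rw [h1, ← hg.avg_negh (M := M) x]
    exact avg_mono σ (fun _ => le_max_right _ _) x

/-- gain on the trunk -/
lemma Growth.D2_trunk {i0 : ι} (hi0 : σ i0 = 1) (hgen : ∀ g : G, ∃ l : List ι, wprod σ l = g)
    (H4 : ∃ c1 : ℝ, 0 < c1 ∧ ∀ M' : ℝ, ∃ W : Finset G, ∀ x, ∃ w ∈ W,
      h x + M' ≤ h (x * w) ∧ c1 * Real.exp (-h x) ≤ R (x * w)) :
    ∃ N : ℕ, ∃ p : ℝ, 0 < p ∧ ∀ x, D1 h R x ≤ -h x + M →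
      D2 h R M x + p ≤ it σ N (D2 h R M) x := by
  obtain ⟨c1, hc1, H⟩ := H4
  obtain ⟨W, hW⟩ := H (M + 1 - Real.log c1)
  choose l hl using hgen
  refine ⟨W.sup fun w => (l w).length, ((Fintype.card ι : ℝ)⁻¹) ^ (W.sup fun w => (l w).length),
    by have := card_pos' (ι := ι); positivity, ?_⟩
  intro x hx
  obtain ⟨w, hwW, hw1, hw2⟩ := hW x
  have hlen : (l w).length ≤ W.sup fun w => (l w).length :=
    Finset.le_sup (f := fun w => (l w).length) hwW
  obtain ⟨l', hl', hl'w⟩ := exists_word_length σ i0 hi0 (l w) hlen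
  rw [hl w] at hl'w
  have h1 : D2 h R M x = -h x + M := max_eq_right hx
  -- the nonnegative function `D2 + h - M`
  have hf0 : ∀ y, 0 ≤ D2 h R M y - (-h y + M) := fun y => by
    have : -h y + M ≤ D2 h R M y := le_max_right _ _
    linarith
  have h2 := it_ge_word σ hf0 l' x
  rw [hl', hl'w] at h2
  have h3 : 1 ≤ D2 h R M (x * w) - (-h (x * w) + M) := by
    have h4 : Real.log c1 - h x ≤ D2 h R M (x * w) := by
      have h5 : Real.log (c1 * Real.exp (-h x)) ≤ DD h R (x * w) := by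
        unfold DD
        apply Real.log_le_log (by positivity)
        have := Real.exp_pos (-h (x * w))
        unfold FF; linarith
      rw [Real.log_mul hc1.ne' (Real.exp_pos _).ne', Real.log_exp] at h5
      have h6 : DD h R (x * w) ≤ D2 h R M (x * w) :=
        (le_add_of_nonneg_right (hg.YY_pos _).le).trans (le_max_left _ _)
      linarith
    linarith
  have h4 : it σ (W.sup fun w => (l w).length) (fun y => D2 h R M y - (-h y + M)) x =
      it σ (W.sup fun w => (l w).length) (D2 h R M) x - (-h x + M) := by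
    rw [it_sub]
    congr 1
    have : (fun y => -h y + M) = fun y => -h y + M := rfl
    rw [it_harm σ (f := fun y => -h y + M) (funext fun y => hg.avg_negh y)]
  rw [h4] at h2
  have hpos : 0 ≤ ((Fintype.card ι : ℝ)⁻¹) ^ (W.sup fun w => (l w).length) := by positivity
  nlinarith

lemma Growth.D2_inc (hM : 0 ≤ M) : ∃ a, 0 ≤ a ∧ Inc σ (YY h R) (D2 h R M) a := by
  set b := Real.exp ((L + C3 L C) / 2) with hb
  have hbpos : 0 < b := Real.exp_pos _
  have hC := hg.C3_pos
  have hL := hg.L0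
  set K0 := M + L + C3 L C with hK0
  set y2 := Real.exp (-K0 / 2) with hy2
  have hy2pos : 0 < y2 := Real.exp_pos _
  refine ⟨(C3 L C + (b + 1) + L) / y2 + (C3 L C + (b + 1)), by positivity, ?_⟩
  intro x j
  have hYpos := hg.YY_pos x
  have hYsq := hg.YY_sq_le x
  have hdY : |YY h R (x * σ j) - YY h R x| ≤ (b + 1) * YY h R x := by
    have h1 := hg.YY_step_up x j
    have h2 := hg.YY_pos (x * σ j)
    rw [abs_le]
    constructor
    · nlinarith
    · nlinarith
  have hdD := hg.DD_step x j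
  have hd1 : |D1 h R (x * σ j) - D1 h R x| ≤ (C3 L C + (b + 1)) * YY h R x := by
    unfold D1
    have : DD h R (x * σ j) + YY h R (x * σ j) - (DD h R x + YY h R x) =
      (DD h R (x * σ j) - DD h R x) + (YY h R (x * σ j) - YY h R x) := by ring
    rw [this]
    refine (abs_add_le _ _).trans ?_
    nlinarith
  by_cases hcase : K0 ≤ DD h R x + h x
  · have hx1 : -h x + M ≤ D1 h R x := by unfold D1; linarith
    have hs1 := abs_le.mp (hg.DD_step_const x j)
    have hs2 := abs_le.mp (hg.hlip x j)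
    have hx2 : -h (x * σ j) + M ≤ D1 h R (x * σ j) := by
      have := hg.YY_pos (x * σ j)
      unfold D1; linarith [hs1.1, hs1.2, hs2.1, hs2.2]
    have e1 : D2 h R M x = D1 h R x := max_eq_left hx1
    have e2 : D2 h R M (x * σ j) = D1 h R (x * σ j) := max_eq_left hx2
    rw [e1, e2]
    refine hd1.trans ?_
    have : 0 ≤ (C3 L C + (b + 1) + L) / y2 := by positivity
    nlinarith
  · push Not at hcase
    have hYy : y2 ≤ YY h R x := by
      rw [hy2, YY, Real.exp_le_exp]; linarith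
    have hd2 : |D2 h R M (x * σ j) - D2 h R M x| ≤ C3 L C + (b + 1) + L := by
      have h1 : |D2 h R M (x * σ j) - D2 h R M x| ≤
          max |D1 h R (x * σ j) - D1 h R x| |(-h (x * σ j) + M) - (-h x + M)| :=
        abs_max_sub_max_le_max _ _ _ _
      refine h1.trans (max_le ?_ ?_)
      · refine hd1.trans ?_
        have := hg.YY_le_one x
        nlinarith
      · have h2 := hg.hlip x j
        have : (-h (x * σ j) + M) - (-h x + M) = -(h (x * σ j) - h x) := by ring
        rw [this, abs_neg]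
        linarith
    refine hd2.trans ?_
    have h3 : C3 L C + (b + 1) + L ≤ (C3 L C + (b + 1) + L) / y2 * YY h R x := by
      rw [div_mul_eq_mul_div, le_div_iff₀ hy2pos]
      gcongr
    have h4 : 0 ≤ (C3 L C + (b + 1)) * YY h R x := by positivity
    nlinarith

end

/-- **The supersolution.** -/
theorem exists_supersolution {σ : ι → G} {h R : G → ℝ} {L C : ℝ} (hg : Growth σ h R L C)
    {i0 : ι} (hi0 : σ i0 = 1) (hgen : ∀ g : G, ∃ l : List ι, wprod σ l = g)
    (H4 : ∃ c1 : ℝ, 0 < c1 ∧ ∀ M' : ℝ, ∃ W : Finset G, ∀ x, ∃ w ∈ W,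
      h x + M' ≤ h (x * w) ∧ c1 * Real.exp (-h x) ≤ R (x * w))
    (H5 : ∃ a : ℝ, 0 < a ∧ ∀ x, ∃ j, a ≤ |h (x * σ j) - h x|) :
    ∃ Ψ : G → ℝ, (∀ x, 0 ≤ Ψ x) ∧ (∀ x, Ψ x ≤ 1) ∧ (∀ x, avg σ Ψ x ≤ Ψ x) ∧
      ∀ B : ℝ, ∃ c : ℝ, 0 < c ∧ ∀ x, R x ≤ B → -L ≤ h x →
        c * Real.exp (-h x / 2) ≤ Ψ x - avg σ Ψ x := by
  classical
  have hcard := card_pos' (ι := ι)
  obtain ⟨a, ha, H5⟩ := H5
  have hC := hg.C3_pos
  have hL := hg.L0
  set ca : ℝ := min 1 (a ^ 2 / 16) / (Fintype.card ι : ℝ) with hca_def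
  have hca : 0 < ca := by positivity
  have hJ : ∀ x, 1 + ca ≤
      (∑ j, Real.exp (-(h (x * σ j) - h x) / 2)) / (Fintype.card ι : ℝ) :=
    fun x => jensen hg.harm ha x (H5 x)
  set y0 : ℝ := (ca / 2) / (C3 L C * (1 + (1 + ca) / 2)) with hy0
  have hy0pos : 0 < y0 := by positivity
  set y1 : ℝ := min 1 y0 with hy1
  have hy1pos : 0 < y1 := lt_min one_pos hy0pos
  have hy1le : y1 ≤ 1 := min_le_left _ _
  have hy1' : C3 L C * y1 * (1 + (1 + ca) / 2) ≤ ca / 2 := by
    have h1 : y1 ≤ y0 := min_le_right _ _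
    calc C3 L C * y1 * (1 + (1 + ca) / 2) ≤ C3 L C * y0 * (1 + (1 + ca) / 2) := by gcongr
      _ = ca / 2 := by rw [hy0]; field_simp
  set M : ℝ := 1 - 2 * Real.log y1 with hM
  have hM0 : 0 ≤ M := by
    have := Real.log_nonpos hy1pos.le hy1le
    rw [hM]; linarith
  have hsub := hg.D2_sub hca hJ hy1pos hy1' hM
  have hstrict := hg.D2_strict hca hJ hy1pos hy1' hM
  obtain ⟨N, p, hp, htr⟩ := hg.D2_trunk (M := M) hi0 hgen H4
  -- combined drift over `N+1` steps
  set c3 : ℝ := min (ca / 2) p with hc3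
  have hc3pos : 0 < c3 := lt_min (by positivity) hp
  have hN1 : ∀ x, D2 h R M x + c3 * YY h R x ≤ it σ (N + 1) (D2 h R M) x := by
    intro x
    have hY := hg.YY_pos x
    have hY1 := hg.YY_le_one x
    by_cases hx : -h x + M < D1 h R x
    · have h1 := hstrict x hx
      have h2 : avg σ (D2 h R M) x ≤ it σ (N + 1) (D2 h R M) x := by
        have := it_mono_n σ hsub (m := 1) (n := N + 1) (by omega) x
        rwa [it_one] at this
      have h3 : c3 ≤ ca / 2 := min_le_left _ _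
      nlinarith
    · push Not at hx
      have h1 := htr x hx
      have h2 := it_mono_n σ hsub (m := N) (n := N + 1) (by omega) x
      have h3 : c3 ≤ p := min_le_right _ _
      nlinarith
  -- averaged function
  set K : ℕ := N + 1 with hK
  have hKpos : (0 : ℝ) < K := by rw [hK]; positivity
  set Dh : G → ℝ := fun x => (∑ n ∈ Finset.range K, it σ n (D2 h R M) x) / K with hDh
  have hDh_drift : ∀ x, Dh x + c3 / K * YY h R x ≤ avg σ Dh x := by
    intro x
    have h1 : avg σ Dh x = (∑ n ∈ Finset.range K, it σ (n + 1) (D2 h R M) x) / K := by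
      have : Dh = fun x => (K : ℝ)⁻¹ * ∑ n ∈ Finset.range K, it σ n (D2 h R M) x := by
        funext y; rw [hDh]; ring
      rw [this, avg_smul, avg_sum, div_eq_inv_mul]
      congr 1
      apply Finset.sum_congr rfl
      intro n _
      rw [it_succ']
    have h2 : ∑ n ∈ Finset.range K, it σ (n + 1) (D2 h R M) x =
        ∑ n ∈ Finset.range K, it σ n (D2 h R M) x + (it σ K (D2 h R M) x - D2 h R M x) := by
      have := Finset.sum_range_sub (fun n => it σ n (D2 h R M) x) K
      rw [Finset.sum_sub_distrib] at this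
      simp only [it_zero] at this
      linarith
    rw [h1, h2, hDh, add_div]
    have h3 := hN1 x
    have h4 : c3 / K * YY h R x ≤ (it σ K (D2 h R M) x - D2 h R M x) / K := by
      rw [div_mul_eq_mul_div]
      gcongr
      linarith
    linarith
  have hDh_nonneg : ∀ x, 0 ≤ Dh x := fun x =>
    div_nonneg (Finset.sum_nonneg fun n _ => it_nonneg σ n hg.D2_nonneg x) hKpos.le
  -- increments
  obtain ⟨a2, ha2, hinc2⟩ := hg.D2_inc hM0
  have hb0 : (0 : ℝ) ≤ Real.exp ((L + C3 L C) / 2) := (Real.exp_pos _).le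
  obtain ⟨a3, ha3, hinc3⟩ := Inc.sum (σ := σ) (fun x => (hg.YY_pos x).le) K
    (fun n => hinc2.it ha2 hb0 (fun x j => hg.YY_step_up x j) n)
  have hincD : ∀ x j, |Dh (x * σ j) - Dh x| ≤ (a3 + 1) * YY h R x := by
    intro x j
    have h1 := hinc3 x j
    have hK1 : (1 : ℝ) ≤ K := by rw [hK]; push_cast; linarith [Nat.cast_nonneg (α := ℝ) N]
    rw [hDh]
    simp only
    rw [← sub_div, abs_div, abs_of_pos hKpos]
    have hY := hg.YY_pos x
    calc _ ≤ |(∑ n ∈ Finset.range K, it σ n (D2 h R M) (x * σ j)) -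
        ∑ n ∈ Finset.range K, it σ n (D2 h R M) x| := div_le_self (abs_nonneg _) hK1
      _ ≤ a3 * YY h R x := h1
      _ ≤ _ := by nlinarith
  set A : ℝ := a3 + 1 with hA
  have hApos : 0 < A := by positivity
  set c4 : ℝ := c3 / K with hc4
  have hc4pos : 0 < c4 := by positivity
  set η : ℝ := min (1 / A) (c4 / (2 * A ^ 2)) with hη
  have hηpos : 0 < η := lt_min (by positivity) (by positivity)
  have hη1 : η * A ≤ 1 := by
    calc η * A ≤ 1 / A * A := by gcongr; exact min_le_left _ _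
      _ = 1 := by field_simp
  have hη2 : η * A ^ 2 ≤ c4 / 2 := by
    calc η * A ^ 2 ≤ c4 / (2 * A ^ 2) * A ^ 2 := by gcongr; exact min_le_right _ _
      _ = c4 / 2 := by field_simp
  set Ψ : G → ℝ := fun x => Real.exp (-(η * Dh x)) with hΨ
  have hΨpos : ∀ x, 0 < Ψ x := fun x => Real.exp_pos _
  have hΨone : ∀ x, Ψ x ≤ 1 := fun x => by
    rw [hΨ]; simp only; rw [Real.exp_le_one_iff]
    have := mul_nonneg hηpos.le (hDh_nonneg x); linarith
  have hmain : ∀ x, η * c4 / 2 * YY h R x * Ψ x ≤ Ψ x - avg σ Ψ x := by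
    intro x
    have hY := hg.YY_pos x
    have hYsq := hg.YY_sq_le x
    have hY1 := hg.YY_le_one x
    have hstep : ∀ j, Ψ (x * σ j) ≤ Ψ x * (1 - η * (Dh (x * σ j) - Dh x) +
        η ^ 2 * A ^ 2 * YY h R x ^ 2) := by
      intro j
      have hd := hincD x j
      set y : ℝ := -(η * (Dh (x * σ j) - Dh x)) with hy
      have hyabs : |y| ≤ η * (A * YY h R x) := by
        rw [hy, abs_neg, abs_mul, abs_of_pos hηpos]; gcongr
      have hy1 : |y| ≤ 1 := by
        refine hyabs.trans ?_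
        calc η * (A * YY h R x) = (η * A) * YY h R x := by ring
          _ ≤ 1 * 1 := by gcongr
          _ = 1 := by ring
      have h1 := (abs_le.mp (Real.abs_exp_sub_one_sub_id_le hy1)).2
      have h2 : y ^ 2 ≤ η ^ 2 * A ^ 2 * YY h R x ^ 2 := by
        rw [← sq_abs y]
        calc |y| ^ 2 ≤ (η * (A * YY h R x)) ^ 2 := by gcongr
          _ = _ := by ring
      have h3 : Ψ (x * σ j) = Ψ x * Real.exp y := by
        rw [hΨ, ← Real.exp_add]; congr 1; rw [hy]; ring
      rw [h3]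
      apply mul_le_mul_of_nonneg_left _ (hΨpos x).le
      rw [hy] at h1
      linarith
    have h1 : avg σ Ψ x ≤ avg σ (fun z => Ψ x * (1 - η * (Dh z - Dh x) +
        η ^ 2 * A ^ 2 * YY h R x ^ 2)) x := avg_le_avg σ hstep
    have h2 : avg σ (fun z => Ψ x * (1 - η * (Dh z - Dh x) +
        η ^ 2 * A ^ 2 * YY h R x ^ 2)) x = Ψ x * (1 - η * (avg σ Dh x - Dh x) +
        η ^ 2 * A ^ 2 * YY h R x ^ 2) := by
      rw [avg_smul]
      congr 1
      have : (fun z => 1 - η * (Dh z - Dh x) + η ^ 2 * A ^ 2 * YY h R x ^ 2) =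
        fun z => (1 + η * Dh x + η ^ 2 * A ^ 2 * YY h R x ^ 2) - η * Dh z := by
          funext z; ring
      rw [this, avg_sub, avg_const, avg_smul]
      ring
    rw [h2] at h1
    have h3 := hDh_drift x
    have h4 : η * (c4 * YY h R x) ≤ η * (avg σ Dh x - Dh x) := by
      gcongr; linarith
    have h5 : η ^ 2 * A ^ 2 * YY h R x ^ 2 ≤ η * (c4 / 2) * YY h R x := by
      calc η ^ 2 * A ^ 2 * YY h R x ^ 2 = η * (η * A ^ 2) * YY h R x ^ 2 := by ring
        _ ≤ η * (c4 / 2) * YY h R x := by gcongr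
    have h6 : Ψ x * (1 - η * (avg σ Dh x - Dh x) + η ^ 2 * A ^ 2 * YY h R x ^ 2) ≤
        Ψ x * (1 - η * c4 / 2 * YY h R x) := by
      apply mul_le_mul_of_nonneg_left _ (hΨpos x).le
      linarith
    nlinarith
  refine ⟨Ψ, fun x => (hΨpos x).le, hΨone, fun x => ?_, fun B => ?_⟩
  · have h1 := hmain x
    have h2 : 0 ≤ η * c4 / 2 * YY h R x * Ψ x := by
      have := hg.YY_pos x; have := hΨpos x; positivity
    linarith
  · -- lower bounds where `R ≤ B` and `-L ≤ h`
    set KB : ℝ := 1 + |B| + Real.exp L with hKB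
    have hKBpos : 0 < KB := by have := Real.exp_pos L; positivity
    set D2B : ℝ := max (Real.log KB + 1) (L + M) with hD2B
    set DhB : ℝ := D2B + K * a2 with hDhB
    refine ⟨η * c4 / 2 * Real.exp (-(Real.log KB) / 2) * Real.exp (-(η * DhB)),
      by positivity, ?_⟩
    intro x hxB hxL
    have hF : FF h R x ≤ KB := by
      unfold FF
      have h1 : Real.exp (-h x) ≤ Real.exp L := Real.exp_le_exp.mpr (by linarith)
      have h2 := le_abs_self B
      rw [hKB]; linarith
    have hDle : DD h R x ≤ Real.log KB := Real.log_le_log (hg.FF_pos x) hF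
    have hY : Real.exp (-(Real.log KB) / 2) * Real.exp (-h x / 2) ≤ YY h R x := by
      rw [← Real.exp_add, YY, Real.exp_le_exp]; linarith
    have hD2le : D2 h R M x ≤ D2B := by
      apply max_le_max
      · unfold D1; have := hg.YY_le_one x; linarith
      · linarith
    have hinc2' : ∀ x j, |D2 h R M (x * σ j) - D2 h R M x| ≤ a2 := fun x j => by
      have h1 := hinc2 x j
      have h2 := hg.YY_le_one x
      nlinarith
    have hDhle : Dh x ≤ DhB := by
      rw [hDh]; simp only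
      rw [div_le_iff₀ hKpos]
      calc ∑ n ∈ Finset.range K, it σ n (D2 h R M) x
          ≤ ∑ n ∈ Finset.range K, DhB := by
            apply Finset.sum_le_sum
            intro n hn
            have h1 := (abs_le.mp (abs_it_sub_le hinc2' n x)).2
            have h2 : (n : ℝ) ≤ K := by exact_mod_cast (Finset.mem_range.mp hn).le
            have h3 : (n : ℝ) * a2 ≤ K * a2 := by gcongr
            rw [hDhB]; linarith
        _ = DhB * K := by simp; ring
    have hΨlow : Real.exp (-(η * DhB)) ≤ Ψ x := by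
      rw [hΨ]; simp only; rw [Real.exp_le_exp]
      have : η * Dh x ≤ η * DhB := by gcongr
      linarith
    refine le_trans ?_ (hmain x)
    have hYpos := hg.YY_pos x
    calc η * c4 / 2 * Real.exp (-(Real.log KB) / 2) * Real.exp (-(η * DhB)) *
          Real.exp (-h x / 2)
        = η * c4 / 2 * (Real.exp (-(Real.log KB) / 2) * Real.exp (-h x / 2)) *
          Real.exp (-(η * DhB)) := by ring
      _ ≤ η * c4 / 2 * YY h R x * Ψ x := by gcongr

end Pool.Agent.LHF
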