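import Pool.Agent.LHF.Cost

set_option autoImplicit false
set_option linter.unusedSectionVars false
set_option linter.unusedVariables false
set_option linter.style.haveILetI false

namespace Pool.Agent.LHF

variable {G : Type*} [Group G] {ι : Type*} [Fintype ι] [Nonempty ι]

/-- finite set of right coset representatives -/
lemma exists_reps (H : Subgroup G) (hH : H.FiniteIndex) :
    ∃ Rp : Finset G, ∀ x : G, ∃ g ∈ H, ∃ r ∈ Rp, x = g * r := by
  classical
  haveI := hH
  haveI : Finite (G ⧸ H) := H.finite_quotient_of_finiteIndex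
  haveI := Fintype.ofFinite (G ⧸ H)
  refine ⟨Finset.univ.image (fun q : G ⧸ H => (Quotient.out q)⁻¹), fun x => ?_⟩
  refine ⟨x * Quotient.out (QuotientGroup.mk x⁻¹ : G ⧸ H), ?_,
    (Quotient.out (QuotientGroup.mk x⁻¹ : G ⧸ H))⁻¹, ?_, by group⟩
  · have h1 : (QuotientGroup.mk (Quotient.out (QuotientGroup.mk x⁻¹ : G ⧸ H)) : G ⧸ H) =
        QuotientGroup.mk x⁻¹ := Quotient.out_eq' _
    have h2 := QuotientGroup.eq.mp h1.symm
    simpa using h2
  · exact Finset.mem_image_of_mem _ (Finset.mem_univ _)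

section
variable {σ : ι → G} {τ : ι → ι} (hτ : ∀ j, σ (τ j) = (σ j)⁻¹) {i0 : ι} (hi0 : σ i0 = 1)
  (hgen : ∀ g : G, ∃ l : List ι, wprod σ l = g)
  {H : Subgroup G} (hH : H.FiniteIndex) {h : G → ℝ}
  (hharm : ∀ x, avg σ h x = h x)
  (heq : ∀ g ∈ H, ∀ x, h (g * x) = h g + h x)

include hH heq in
lemma exists_lip : ∃ L, 0 ≤ L ∧ ∀ x j, |h (x * σ j) - h x| ≤ L := by
  classical
  obtain ⟨Rp, hRp⟩ := exists_reps H hH
  refine ⟨∑ r ∈ Rp, ∑ j, |h (r * σ j) - h r|,
    Finset.sum_nonneg fun _ _ => Finset.sum_nonneg fun _ _ => abs_nonneg _, fun x j => ?_⟩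
  obtain ⟨g, hg, r, hr, rfl⟩ := hRp x
  rw [mul_assoc, heq g hg, heq g hg, add_sub_add_left_eq_sub]
  refine le_trans ?_ (Finset.single_le_sum (f := fun r => ∑ j, |h (r * σ j) - h r|)
    (fun _ _ => Finset.sum_nonneg fun _ _ => abs_nonneg _) hr)
  exact Finset.single_le_sum (f := fun j => |h (r * σ j) - h r|)
    (fun _ _ => abs_nonneg _) (Finset.mem_univ j)

include heq in
lemma h_one : h 1 = 0 := by
  have := heq 1 H.one_mem 1; rw [mul_one] at this; linarith

include heq in
lemma h_inv {g : G} (hg : g ∈ H) : h g⁻¹ = - h g := by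
  have := heq g hg g⁻¹; rw [mul_inv_cancel, h_one heq] at this; linarith

include heq in
lemma h_pow {g : G} (hg : g ∈ H) (n : ℕ) : h (g ^ n) = n * h g := by
  induction n with
  | zero => simp [h_one heq]
  | succ n ih => rw [pow_succ', heq g hg, ih]; push_cast; ring

/-- growth structure of the cost distance -/
lemma growth_dc (hτ : ∀ j, σ (τ j) = (σ j)⁻¹) (hgen : ∀ g : G, ∃ l : List ι, wprod σ l = g)
    (hharm : ∀ x, avg σ h x = h x) {L : ℝ} (hL0 : 0 ≤ L)
    (hL : ∀ x j, |h (x * σ j) - h x| ≤ L) :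
    Growth σ h (dc σ h 1) L (Real.exp L) := by
  refine ⟨hL0, (Real.exp_pos L).le, hharm, hL, fun x => dc_nonneg σ h 1 x, fun x j => ?_⟩
  have h1 := dc_step h hgen 1 x j
  have h2 := dc_step h hgen 1 (x * σ j) (τ j)
  rw [hτ, mul_inv_cancel_right] at h2
  have h3 : Real.exp (-h (x * σ j)) ≤ Real.exp L * Real.exp (-h x) := by
    rw [← Real.exp_add]
    apply Real.exp_le_exp.mpr
    have := (abs_le.mp (hL x j)).1; linarith
  have h4 : Real.exp (-h x) ≤ Real.exp L * Real.exp (-h x) := by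
    have := Real.one_le_exp hL0
    have := Real.exp_pos (-h x)
    nlinarith
  rw [abs_le]; constructor <;> linarith

/-- **Theorem U**: a nondegenerate cost distance contradicts finite-dimensionality. -/
theorem theoremU (hτ : ∀ j, σ (τ j) = (σ j)⁻¹) (hi0 : σ i0 = 1)
    (hgen : ∀ g : G, ∃ l : List ι, wprod σ l = g) (hH : H.FiniteIndex)
    (hharm : ∀ x, avg σ h x = h x) (heq : ∀ g ∈ H, ∀ x, h (g * x) = h g + h x)
    {t p : G} (ht : t ∈ H) (hp : p ∈ H) (htpos : 0 < h t) {c : ℝ} (hc : 0 < c)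
    (hND : ∀ (k : ℕ) (l : List ι), t ^ k * wprod σ l = p * t ^ k → c ≤ pcost σ h (t ^ k) l) :
    ¬ FinHF σ := by
  classical
  obtain ⟨L, hL0, hL⟩ := exists_lip (σ := σ) hH heq
  have hg := growth_dc hτ hgen hharm hL0 hL
  have h1 : h 1 = 0 := h_one heq
  have heL : 1 ≤ Real.exp L := Real.one_le_exp hL0
  have hD : ∀ k : ℕ, c ≤ dc σ h (t ^ k) (p * t ^ k) := fun k => le_dc h hgen (hND k)
  have htk : ∀ k : ℕ, t ^ k ∈ H := fun k => H.pow_mem ht k
  have hhk : ∀ k : ℕ, h (t ^ k) = k * h t := h_pow heq ht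
  -- H4
  have H4 : ∃ c1 : ℝ, 0 < c1 ∧ ∀ M' : ℝ, ∃ W : Finset G, ∀ x, ∃ w ∈ W,
      h x + M' ≤ h (x * w) ∧ c1 * Real.exp (-h x) ≤ dc σ h 1 (x * w) := by
    obtain ⟨Rp, hRp⟩ := exists_reps H hH
    set B := ∑ r ∈ Rp, |h r| with hB
    have hBr : ∀ r ∈ Rp, |h r| ≤ B := fun r hr =>
      Finset.single_le_sum (f := fun r => |h r|) (fun _ _ => abs_nonneg _) hr
    refine ⟨c * Real.exp (-B) / (1 + Real.exp L), by positivity, fun M' => ?_⟩
    obtain ⟨k, hk⟩ := exists_nat_gt ((M' + B + |h p|) / h t)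
    rw [div_lt_iff₀ htpos] at hk
    refine ⟨Rp.image (fun r => r⁻¹ * t ^ k) ∪ Rp.image (fun r => r⁻¹ * (p * t ^ k)), fun x => ?_⟩
    obtain ⟨g, hgH, r, hr, rfl⟩ := hRp x
    have e1 : g * r * (r⁻¹ * t ^ k) = g * t ^ k := by group
    have e2 : g * r * (r⁻¹ * (p * t ^ k)) = g * (p * t ^ k) := by group
    have hBr' := abs_le.mp (hBr r hr)
    have hpa := abs_le.mp (le_refl |h p|)
    have hp0 := abs_nonneg (h p)
    have hh1 : h (g * t ^ k) = h g + k * h t := by rw [heq g hgH, hhk]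
    have hh2 : h (g * (p * t ^ k)) = h g + (h p + k * h t) := by
      rw [heq g hgH, heq p hp, hhk]
    have hx : h (g * r) = h g + h r := heq g hgH r
    have hdist : c * Real.exp (-h g) ≤
        Real.exp L * dc σ h 1 (g * t ^ k) + dc σ h 1 (g * (p * t ^ k)) := by
      have e3 := dc_translate hgen (heq g hgH) (t ^ k) (p * t ^ k)
      have e4 := dc_triangle h hgen (g * t ^ k) 1 (g * (p * t ^ k))
      have e5 := dc_symm hgen hτ hL 1 (g * t ^ k)
      have e6 : Real.exp (-h g) * c ≤ Real.exp (-h g) * dc σ h (t ^ k) (p * t ^ k) := by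
        gcongr; exact hD k
      linarith
    have hexp : c * Real.exp (-B) / (1 + Real.exp L) * Real.exp (-h (g * r)) ≤
        c * Real.exp (-h g) / (1 + Real.exp L) := by
      have : Real.exp (-B) * Real.exp (-h (g * r)) ≤ Real.exp (-h g) := by
        rw [← Real.exp_add]; apply Real.exp_le_exp.mpr; rw [hx]; linarith [hBr'.1]
      rw [div_mul_eq_mul_div, mul_assoc]
      gcongr
    by_cases hcase : c * Real.exp (-h g) / (1 + Real.exp L) ≤ dc σ h 1 (g * t ^ k)
    · refine ⟨r⁻¹ * t ^ k, Finset.mem_union_left _ (Finset.mem_image_of_mem _ hr), ?_, ?_⟩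
      · rw [e1, hh1, hx]; linarith [hBr'.2]
      · rw [e1]; exact hexp.trans hcase
    · refine ⟨r⁻¹ * (p * t ^ k), Finset.mem_union_right _ (Finset.mem_image_of_mem _ hr), ?_, ?_⟩
      · rw [e2, hh2, hx]; linarith [hBr'.2, hpa.1]
      · rw [e2]
        refine hexp.trans ?_
        push Not at hcase
        have h5 : 0 < 1 + Real.exp L := by positivity
        rw [lt_div_iff₀ h5] at hcase
        rw [div_le_iff₀ h5]
        have h6 := dc_nonneg σ h 1 (g * t ^ k)
        have h7 := dc_nonneg σ h 1 (g * (p * t ^ k))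
        by_contra hcon
        push Not at hcon
        -- (1+e) d1 < E, (1+e) d2 < E, E ≤ e d1 + d2
        have h8 : 0 < Real.exp L := Real.exp_pos L
        nlinarith
  -- bound on R(t^k)
  obtain ⟨S, hS0, hS⟩ : ∃ S, 0 ≤ S ∧ ∀ k : ℕ, dc σ h 1 (t ^ k) ≤ S := by
    set q := Real.exp (-h t) with hq
    have hq0 : 0 < q := Real.exp_pos _
    have hq1 : q < 1 := by rw [hq, Real.exp_lt_one_iff]; linarith
    refine ⟨dc σ h 1 t * (1 - q)⁻¹, ?_, fun k => ?_⟩
    · have := dc_nonneg σ h 1 t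
      have : 0 < 1 - q := by linarith
      positivity
    · have h2 : ∀ k : ℕ, dc σ h 1 (t ^ k) ≤ dc σ h 1 t * ∑ i ∈ Finset.range k, q ^ i := by
        intro k
        induction k with
        | zero => simp [dc_self]
        | succ k ih =>
          have h3 := dc_triangle h hgen 1 (t ^ k) (t ^ (k + 1))
          have h4 := dc_translate hgen (heq _ (htk k)) 1 t
          rw [mul_one, ← pow_succ, hhk] at h4
          have h5 : Real.exp (-(k * h t)) = q ^ k := by
            rw [hq, ← Real.exp_nat_mul]; congr 1; ring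
          rw [h5] at h4
          rw [Finset.sum_range_succ, mul_add]
          linarith
      refine (h2 k).trans ?_
      have h3 : ∑ i ∈ Finset.range k, q ^ i ≤ (1 - q)⁻¹ := by
        rw [← tsum_geometric_of_lt_one hq0.le hq1]
        exact (summable_geometric_of_lt_one hq0.le hq1).sum_le_tsum _ (fun i _ => by positivity)
      have := dc_nonneg σ h 1 t
      gcongr
  set R0 : ℝ := 2 * S + 1 with hR0
  have hR0pos : 0 < R0 := by positivity
  obtain ⟨v, hv, ⟨K, hK⟩, Λ, hΛ⟩ := hg.exists_harmonic hi0 hgen H4 hR0pos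
  have hK0 : 0 ≤ K := (abs_nonneg _).trans (hK 1)
  -- the elements g_n
  set gg : ℕ → G := fun n => (t ^ n)⁻¹ * p * t ^ n * p⁻¹ with hgg
  have hggH : ∀ n, gg n ∈ H := fun n =>
    H.mul_mem (H.mul_mem (H.mul_mem (H.inv_mem (htk n)) hp) (htk n)) (H.inv_mem hp)
  have hgg0 : ∀ n, h (gg n) = 0 := by
    intro n
    have e1 : gg n = (t ^ n)⁻¹ * (p * (t ^ n * p⁻¹)) := by simp only [hgg]; group
    rw [e1, heq _ (H.inv_mem (htk n)), heq p hp, heq _ (htk n), h_inv heq hp, h_inv heq (htk n)]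
    ring
  have hggt : ∀ n (x y : G), dc σ h (gg n * x) (gg n * y) = dc σ h x y := by
    intro n x y
    rw [dc_translate hgen (heq _ (hggH n)), hgg0]; simp
  have hlow : ∃ C, ∀ n k : ℕ, c * Real.exp (n * h t) - C ≤ dc σ h 1 (gg n * t ^ k) := by
    refine ⟨Real.exp L * S + dc σ h 1 p, fun n k => ?_⟩
    have h2 := dc_triangle h hgen 1 (gg n * t ^ k) (gg n * p)
    rw [hggt] at h2
    have h3 := dc_triangle h hgen (t ^ k) 1 p
    have h4 := dc_symm hgen hτ hL 1 (t ^ k)
    have h5 := hS k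
    have h6 : c * Real.exp (n * h t) ≤ dc σ h 1 (gg n * p) := by
      have e1 : (1 : G) = (t ^ n)⁻¹ * t ^ n := by group
      have e2 : gg n * p = (t ^ n)⁻¹ * (p * t ^ n) := by simp only [hgg]; group
      rw [e2, e1, dc_translate hgen (heq _ (H.inv_mem (htk n))), h_inv heq (htk n), hhk, neg_neg,
        mul_comm]
      gcongr
      exact hD n
    have h7 : Real.exp L * dc σ h 1 (t ^ k) ≤ Real.exp L * S := by gcongr
    linarith
  obtain ⟨C, hC⟩ := hlow
  have hbig : ∀ B : ℝ, ∃ N : ℕ, ∀ n, N ≤ n → B ≤ c * Real.exp (n * h t) := by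
    intro B
    obtain ⟨N, hN⟩ := exists_nat_gt (B / c / h t)
    refine ⟨N, fun n hn => ?_⟩
    have h2 : B / c < N * h t := by rwa [div_lt_iff₀ htpos] at hN
    have h3 : (N : ℝ) * h t ≤ n * h t := by
      have : (N : ℝ) ≤ n := by exact_mod_cast hn
      gcongr
    have h4 := Real.add_one_le_exp (n * h t)
    rw [div_lt_iff₀ hc] at h2
    nlinarith
  -- separated sequence
  have hsep : ∃ f : ℕ → ℕ, (∀ n : ℕ, True) ∧ ∀ m n, m < n →
      ((∀ k : ℕ, R0 ≤ dc σ h 1 ((gg (f m))⁻¹ * (gg (f n) * t ^ k))) ∧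
       (∀ k : ℕ, R0 ≤ dc σ h 1 ((gg (f n))⁻¹ * (gg (f m) * t ^ k)))) := by
    apply exists_seq_of_forall_finset_exists (P := fun _ : ℕ => True)
      (r := fun m n => (∀ k : ℕ, R0 ≤ dc σ h 1 ((gg m)⁻¹ * (gg n * t ^ k))) ∧
        (∀ k : ℕ, R0 ≤ dc σ h 1 ((gg n)⁻¹ * (gg m * t ^ k))))
    intro s _
    set A := ∑ m ∈ s, dc σ h 1 (gg m) with hA
    have hAm : ∀ m ∈ s, dc σ h 1 (gg m) ≤ A := fun m hm =>
      Finset.single_le_sum (f := fun m => dc σ h 1 (gg m)) (fun _ _ => dc_nonneg σ h 1 _) hm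
    obtain ⟨n, hn⟩ := hbig (C + A + S + Real.exp L * R0)
    have hn := hn n le_rfl
    refine ⟨n, trivial, fun m hm => ⟨fun k => ?_, fun k => ?_⟩⟩
    · have h2 : dc σ h 1 ((gg m)⁻¹ * (gg n * t ^ k)) = dc σ h (gg m) (gg n * t ^ k) := by
        have := hggt m 1 ((gg m)⁻¹ * (gg n * t ^ k))
        rw [mul_one, mul_inv_cancel_left] at this
        exact this.symm
      rw [h2]
      have h3 := dc_triangle h hgen 1 (gg m) (gg n * t ^ k)
      have h4 := hC n k
      have h5 := hAm m hm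
      nlinarith
    · have h2 : dc σ h 1 ((gg n)⁻¹ * (gg m * t ^ k)) = dc σ h (gg n) (gg m * t ^ k) := by
        have := hggt n 1 ((gg n)⁻¹ * (gg m * t ^ k))
        rw [mul_one, mul_inv_cancel_left] at this
        exact this.symm
      rw [h2]
      have h3 := dc_triangle h hgen 1 (gg m) (gg m * t ^ k)
      have h3' := dc_triangle h hgen 1 (gg m * t ^ k) (gg n)
      have h4 := hC n 0
      rw [pow_zero, mul_one] at h4
      have h5 := hAm m hm
      have h6 := hggt m 1 (t ^ k)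
      rw [mul_one] at h6
      have h7 := hS k
      have h8 := dc_symm hgen hτ hL (gg n) (gg m * t ^ k)
      have h9 : Real.exp L * R0 ≤ Real.exp L * dc σ h (gg n) (gg m * t ^ k) := by linarith
      exact le_of_mul_le_mul_left h9 (Real.exp_pos L)
  obtain ⟨f, -, hf⟩ := hsep
  have hsep' : ∀ m n, m ≠ n → ∀ k : ℕ, R0 ≤ dc σ h 1 ((gg (f m))⁻¹ * (gg (f n) * t ^ k)) := by
    intro m n hmn k
    rcases lt_or_gt_of_ne hmn with hlt | hgt
    · exact (hf m n hlt).1 k
    · exact (hf n m hgt).2 k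
  rintro ⟨V, hV, hVmem⟩
  -- the functions
  set vv : ℕ → G → ℝ := fun i x => v ((gg (f i))⁻¹ * x) with hvv
  have hvvmem : ∀ i, vv i ∈ V := by
    intro i
    apply hVmem
    · funext x
      simp only [hvv]
      rw [avg_translate, hv]
    · refine ⟨Λ, fun x j => ?_⟩
      simp only [hvv]
      rw [← mul_assoc]
      exact hΛ _ _
  have hoff : ∀ i j, i ≠ j → ∀ k : ℕ, |vv i (gg (f j) * t ^ k)| ≤ K := by
    intro i j hij k
    simp only [hvv]
    have h2 := hK ((gg (f i))⁻¹ * (gg (f j) * t ^ k))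
    have h3 : uu h (dc σ h 1) R0 ((gg (f i))⁻¹ * (gg (f j) * t ^ k)) = 0 := by
      have h4 := hsep' i j hij k
      have : phi (dc σ h 1) R0 ((gg (f i))⁻¹ * (gg (f j) * t ^ k)) = 0 := by
        unfold phi
        apply max_eq_left
        have : 1 ≤ dc σ h 1 ((gg (f i))⁻¹ * (gg (f j) * t ^ k)) / R0 := by
          rw [le_div_iff₀ hR0pos]; linarith
        linarith
      unfold uu; rw [this, zero_mul]
    rwa [h3, sub_zero] at h2
  have hdiag : ∀ j (k : ℕ), k * h t / 2 - K ≤ vv j (gg (f j) * t ^ k) := by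
    intro j k
    simp only [hvv]
    rw [inv_mul_cancel_left]
    have h2 := (abs_le.mp (hK (t ^ k))).1
    have h3 : k * h t / 2 ≤ uu h (dc σ h 1) R0 (t ^ k) := by
      unfold uu
      have h4 : (1 : ℝ) / 2 ≤ phi (dc σ h 1) R0 (t ^ k) := by
        unfold phi
        apply le_max_of_le_right
        have : dc σ h 1 (t ^ k) / R0 ≤ 1 / 2 := by
          rw [div_le_iff₀ hR0pos]
          have := hS k
          rw [hR0]; linarith
        linarith
      have h5 : (k : ℝ) * h t ≤ max (h (t ^ k)) 0 := by rw [hhk]; exact le_max_left _ _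
      have h6 : (0 : ℝ) ≤ k * h t := by positivity
      calc k * h t / 2 = 1 / 2 * (k * h t) := by ring
        _ ≤ _ := by gcongr
    linarith
  have hli : LinearIndependent ℝ vv := by
    rw [linearIndependent_iff']
    intro s a ha i hi
    by_contra hai
    have hval : ∀ k : ℕ, ∑ j ∈ s, a j * vv j (gg (f i) * t ^ k) = 0 := by
      intro k
      have := congrFun ha (gg (f i) * t ^ k)
      simpa using this
    have hbound : ∀ k : ℕ, |a i| * (k * h t / 2 - K) ≤ ∑ j ∈ s, |a j| * K := by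
      intro k
      have h2 := hval k
      rw [← Finset.add_sum_erase s _ hi] at h2
      have h3 : |a i * vv i (gg (f i) * t ^ k)| ≤ ∑ j ∈ s.erase i, |a j| * K := by
        have : a i * vv i (gg (f i) * t ^ k) =
            - ∑ j ∈ s.erase i, a j * vv j (gg (f i) * t ^ k) := by linarith
        rw [this, abs_neg]
        refine (Finset.abs_sum_le_sum_abs _ _).trans (Finset.sum_le_sum fun j hj => ?_)
        rw [abs_mul]
        have := hoff j i (Finset.ne_of_mem_erase hj) k
        gcongr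
      have h4 : ∑ j ∈ s.erase i, |a j| * K ≤ ∑ j ∈ s, |a j| * K :=
        Finset.sum_le_sum_of_subset_of_nonneg (Finset.erase_subset _ _)
          (fun _ _ _ => by positivity)
      rw [abs_mul] at h3
      have h5 := hdiag i k
      have h6 : |a i| * (k * h t / 2 - K) ≤ |a i| * |vv i (gg (f i) * t ^ k)| := by
        gcongr
        exact h5.trans (le_abs_self _)
      linarith
    have hai' : 0 < |a i| := abs_pos.mpr hai
    obtain ⟨k, hk⟩ := exists_nat_gt (((∑ j ∈ s, |a j| * K) / |a i| + K) * 2 / h t)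
    rw [div_lt_iff₀ htpos] at hk
    have h2 := hbound k
    rw [mul_comm, ← le_div_iff₀ hai'] at h2
    linarith
  haveI := hV
  have hli' : LinearIndependent ℝ (fun i : ℕ => (⟨vv i, hvvmem i⟩ : V)) := by
    apply LinearIndependent.of_comp V.subtype
    exact hli
  exact not_finite_iff_infinite.mpr inferInstance (hli'.finite_of_isNoetherian)

end

end Pool.Agent.LHF
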