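import Pool.Agent.LHF.Kron

set_option autoImplicit false
set_option linter.unusedSectionVars false
set_option linter.unusedVariables false
set_option linter.style.haveILetI false

namespace Pool.Agent.LHF

open scoped commutatorElement

variable {G : Type*} [Group G]

/-- `γ_k(F ⊔ B) ≤ B` if `γ_k(F) ≤ B` -/
lemma lcs_sup_le {F B : Subgroup G} [B.Normal] {k : ℕ} (hk : F.lowerCentralSeries k ≤ B) :
    (F ⊔ B).lowerCentralSeries k ≤ B := by
  have h1 : ((F ⊔ B).lowerCentralSeries k).map (QuotientGroup.mk' B) = ⊥ := by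
    rw [Subgroup.map_lowerCentralSeries, Subgroup.map_sup, QuotientGroup.map_mk'_self, sup_bot_eq,
      ← Subgroup.map_lowerCentralSeries, eq_bot_iff]
    refine (Subgroup.map_mono hk).trans ?_
    rw [QuotientGroup.map_mk'_self]
  rw [Subgroup.map_eq_bot_iff, QuotientGroup.ker_mk'] at h1
  exact h1

/-- the eigencharacters of a virtually nilpotent action on a normal abelian subgroup have finite
order -/
theorem torsion_character (hG : FinG G) {B : Subgroup G} (hBn : B.Normal)
    (hBcomm : ∀ a ∈ B, ∀ b ∈ B, a * b = b * a) (hBfg : B.FG) (hVN : VNm B)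
    {π : G → AlgebraicClosure ℚ} (hπ : ∀ a ∈ B, ∀ b ∈ B, π (a * b) = π a + π b)
    {b0 : G} (hb0 : b0 ∈ B) (hb0' : π b0 ≠ 0) {H : Subgroup G} (hH : H.FiniteIndex)
    {lam : G → AlgebraicClosure ℚ} (hlam : ∀ h ∈ H, ∀ b ∈ B, π (h * b * h⁻¹) = lam h * π b) :
    ∀ h ∈ H, ∃ n : ℕ, 0 < n ∧ lam h ^ n = 1 := by
  classical
  haveI := hBn
  haveI := hH
  intro h0 hh0
  -- integrality
  have hint : IsIntegral ℤ (lam h0) := by
    obtain ⟨S, hS, hSf⟩ := (Subgroup.fg_iff _).mp hBfg
    have hπ1 : π 1 = 0 := by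
      have := hπ 1 B.one_mem 1 B.one_mem
      rw [mul_one] at this
      simpa using this
    have hmem : ∀ b ∈ B, π b ∈ Submodule.span ℤ (π '' S) := by
      intro b hb
      rw [← hS] at hb
      induction hb using Subgroup.closure_induction with
      | mem s hs => exact Submodule.subset_span ⟨s, hs, rfl⟩
      | one => rw [hπ1]; exact Submodule.zero_mem _
      | mul a b ha hb iha ihb =>
        rw [hπ a (by rw [← hS]; exact ha) b (by rw [← hS]; exact hb)]
        exact Submodule.add_mem _ iha ihb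
      | inv a ha iha =>
        have ha' : a ∈ B := by rw [← hS]; exact ha
        have := hπ a ha' a⁻¹ (B.inv_mem ha')
        rw [mul_inv_cancel, hπ1] at this
        rw [eq_neg_of_add_eq_zero_right this.symm]
        exact Submodule.neg_mem _ iha
    apply isIntegral_of_smul_mem_submodule (Submodule.span ℤ (π '' S))
    · intro hbot
      have := hmem b0 hb0
      rw [hbot, Submodule.mem_bot] at this
      exact hb0' this
    · exact Submodule.fg_span (hSf.image _)
    · intro n hn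
      induction hn using Submodule.span_induction with
      | mem x hx =>
        obtain ⟨s, hs, rfl⟩ := hx
        have hsB : s ∈ B := by rw [← hS]; exact Subgroup.subset_closure hs
        rw [smul_eq_mul, ← hlam h0 hh0 s hsB]
        exact hmem _ (hBn.conj_mem s hsB h0)
      | zero => rw [smul_zero]; exact Submodule.zero_mem _
      | add x y _ _ ihx ihy => rw [smul_add]; exact Submodule.add_mem _ ihx ihy
      | smul a x _ ihx => rw [smul_comm]; exact Submodule.smul_mem _ _ ihx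
  apply kronecker hint
  intro φ
  by_contra hne
  -- the maximal group acting by scalars on `π`
  have hcne : ∀ g : G, ∀ c : AlgebraicClosure ℚ, (∀ b ∈ B, π (g * b * g⁻¹) = c * π b) → c ≠ 0 := by
    intro g c hc h0
    have h1 := hc _ (hBn.conj_mem b0 hb0 g⁻¹)
    have e : g * (g⁻¹ * b0 * g⁻¹⁻¹) * g⁻¹ = b0 := by group
    rw [e, h0, zero_mul] at h1
    exact hb0' h1
  let Hm : Subgroup G :=
    { carrier := {g | ∃ c : AlgebraicClosure ℚ, ∀ b ∈ B, π (g * b * g⁻¹) = c * π b}
      one_mem' := ⟨1, fun b _ => by simp⟩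
      mul_mem' := by
        rintro g g' ⟨c, hc⟩ ⟨c', hc'⟩
        refine ⟨c * c', fun b hb => ?_⟩
        have h1 := hc _ (hBn.conj_mem b hb g')
        rw [hc' b hb] at h1
        have e : g * g' * b * (g * g')⁻¹ = g * (g' * b * g'⁻¹) * g⁻¹ := by group
        rw [e, h1, mul_assoc]
      inv_mem' := by
        rintro g ⟨c, hc⟩
        refine ⟨c⁻¹, fun b hb => ?_⟩
        have h1 := hc _ (hBn.conj_mem b hb g⁻¹)
        have e : g * (g⁻¹ * b * g⁻¹⁻¹) * g⁻¹ = b := by group
        rw [e] at h1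
        rw [h1, ← mul_assoc, inv_mul_cancel₀ (hcne g c hc), one_mul] }
  have hHm : ∀ g, g ∈ Hm ↔ ∃ c : AlgebraicClosure ℚ, ∀ b ∈ B, π (g * b * g⁻¹) = c * π b :=
    fun g => Iff.rfl
  have hchoice : ∃ l : G → AlgebraicClosure ℚ, ∀ g ∈ Hm, ∀ b ∈ B, π (g * b * g⁻¹) = l g * π b := by
    have : ∀ g : G, ∃ c : AlgebraicClosure ℚ, g ∈ Hm → ∀ b ∈ B, π (g * b * g⁻¹) = c * π b := by
      intro g
      by_cases hg : g ∈ Hm
      · obtain ⟨c, hc⟩ := hg
        exact ⟨c, fun _ => hc⟩
      · exact ⟨0, fun h => absurd h hg⟩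
    choose l hl using this
    exact ⟨l, hl⟩
  obtain ⟨l, hl⟩ := hchoice
  have huniq : ∀ g ∈ Hm, ∀ c : AlgebraicClosure ℚ, (∀ b ∈ B, π (g * b * g⁻¹) = c * π b) →
      l g = c := by
    intro g hg c hc
    have h1 := hl g hg b0 hb0
    rw [hc b0 hb0] at h1
    exact (mul_right_cancel₀ hb0' h1).symm
  have hlmul : ∀ g ∈ Hm, ∀ h ∈ Hm, l (g * h) = l g * l h := by
    intro g hg h hh
    apply huniq _ (Hm.mul_mem hg hh)
    intro b hb
    have h1 := hl g hg _ (hBn.conj_mem b hb h)
    rw [hl h hh b hb] at h1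
    have e : g * h * b * (g * h)⁻¹ = g * (h * b * h⁻¹) * g⁻¹ := by group
    rw [e, h1, mul_assoc]
  have hlone : l 1 = 1 := huniq 1 Hm.one_mem 1 (fun b _ => by simp)
  have hBHm : B ≤ Hm := by
    intro b hb
    refine ⟨1, fun b' hb' => ?_⟩
    rw [hBcomm b hb b' hb', mul_inv_cancel_right, one_mul]
  have hlB : ∀ b ∈ B, l b = 1 := by
    intro b hb
    apply huniq b (hBHm hb)
    intro b' hb'
    rw [hBcomm b hb b' hb', mul_inv_cancel_right, one_mul]
  have hHHm : H ≤ Hm := fun h hh => ⟨lam h, hlam h hh⟩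
  have hlh0 : l h0 = lam h0 := huniq h0 (hHHm hh0) _ (hlam h0 hh0)
  haveI : Hm.FiniteIndex := Subgroup.finiteIndex_of_le hHHm
  obtain ⟨F2, hF2, k, hk⟩ := hVN
  haveI := hF2
  haveI : (F2 ⊔ B).FiniteIndex := Subgroup.finiteIndex_of_le le_sup_left
  set H0 : Subgroup G := Hm ⊓ (F2 ⊔ B) with hH0
  haveI hH0f : H0.FiniteIndex := inferInstance
  have hBH0 : B ≤ H0 := le_inf hBHm le_sup_right
  have hH0m : H0 ≤ Hm := inf_le_left
  -- power of h0 in H0
  obtain ⟨n, hn, hnH0⟩ : ∃ n : ℕ, 0 < n ∧ h0 ^ n ∈ H0 := by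
    obtain ⟨n, hn, -, hn2⟩ := Subgroup.exists_pow_mem_of_index_ne_zero hH0f.index_ne_zero h0
    exact ⟨n, hn, hn2⟩
  have hlpow : ∀ n : ℕ, l (h0 ^ n) = l h0 ^ n := by
    intro n
    induction n with
    | zero => rw [pow_zero, pow_zero, hlone]
    | succ n ih =>
      rw [pow_succ, pow_succ, hlmul _ (Hm.pow_mem (hHHm hh0) n) _ (hHHm hh0), ih]
  have hnorm : ‖φ (l (h0 ^ n))‖ ≠ 1 := by
    rw [hlpow, map_pow, norm_pow, hlh0]
    intro h1
    exact hne ((pow_eq_one_iff_of_nonneg (norm_nonneg _) hn.ne').mp h1)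
  -- the series
  set Q := QuotientGroup.mk' B with hQ
  set L : ℕ → Subgroup G := fun i => ((H0.map Q).lowerCentralSeries i).comap Q with hL
  have hL0 : L 0 = H0 := by
    simp only [hL, Subgroup.lowerCentralSeries_zero]
    rw [Subgroup.comap_map_eq, hQ, QuotientGroup.ker_mk', sup_eq_left]
    exact hBH0
  have hLk : L k = B := by
    have h1 : (H0.map Q).lowerCentralSeries k = ⊥ := by
      rw [← Subgroup.map_lowerCentralSeries, Subgroup.map_eq_bot_iff, hQ, QuotientGroup.ker_mk']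
      exact (Subgroup.lowerCentralSeries_mono k (inf_le_right)).trans (lcs_sup_le hk)
    simp only [hL]
    rw [h1, MonoidHom.comap_bot, hQ, QuotientGroup.ker_mk']
  have hLanti : ∀ i, L (i + 1) ≤ L i := fun i =>
    Subgroup.comap_mono ((H0.map Q).lowerCentralSeries_antitone (Nat.le_succ i))
  have hLcomm : ∀ i < k, ∀ h ∈ H0, ∀ u ∈ L i, ⁅h, u⁆ ∈ L (i + 1) := by
    intro i _ h hh u hu
    simp only [hL, Subgroup.mem_comap] at hu ⊢
    rw [map_commutatorElement, Subgroup.lowerCentralSeries_succ, Subgroup.commutator_comm]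
    exact Subgroup.commutator_mem_commutator ⟨h, hh, rfl⟩ hu
  have hcomml : ∀ c ∈ ⁅H0, H0⁆, l c = 1 ∧ c ∈ Hm := by
    intro c hc
    rw [Subgroup.commutator_def] at hc
    induction hc using Subgroup.closure_induction with
    | mem x hx =>
      obtain ⟨a, ha, b, hb, rfl⟩ := hx
      refine ⟨lam_comm (H := Hm) hlmul hlone (hH0m ha) (hH0m hb), ?_⟩
      rw [commutatorElement_def]
      exact Hm.mul_mem (Hm.mul_mem (Hm.mul_mem (hH0m ha) (hH0m hb)) (Hm.inv_mem (hH0m ha)))
        (Hm.inv_mem (hH0m hb))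
    | one => exact ⟨hlone, Hm.one_mem⟩
    | mul a b _ _ iha ihb =>
      exact ⟨by rw [hlmul a iha.2 b ihb.2, iha.1, ihb.1, one_mul], Hm.mul_mem iha.2 ihb.2⟩
    | inv a _ iha =>
      refine ⟨?_, Hm.inv_mem iha.2⟩
      have := lam_inv (H := Hm) hlmul hlone iha.2
      rw [iha.1, one_mul] at this
      exact this
  have hlL1 : ∀ a ∈ L 1, l a = 1 := by
    intro a ha
    have haH0 : a ∈ H0 := by rw [← hL0]; exact hLanti 0 ha
    simp only [hL, Subgroup.mem_comap] at ha
    rw [Subgroup.lowerCentralSeries_succ, Subgroup.lowerCentralSeries_zero,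
      ← Subgroup.map_commutator] at ha
    obtain ⟨c, hc, hca⟩ := ha
    have h1 : c⁻¹ * a ∈ B := by
      rw [hQ, QuotientGroup.mk'_apply, QuotientGroup.mk'_apply] at hca
      exact QuotientGroup.eq.mp hca
    have h2 := hcomml c hc
    have e : a = c * (c⁻¹ * a) := by group
    rw [e, hlmul c h2.2 _ (hBHm h1), h2.1, hlB _ h1, one_mul]
  have hφl : ∀ g ∈ H0, ∀ h ∈ H0, φ (l (g * h)) = φ (l g) * φ (l h) := by
    intro g hg h hh
    rw [hlmul g (hH0m hg) h (hH0m hh), map_mul]
  obtain ⟨b, hb, hbB⟩ := exists_crossed (K := ℂ) (H := H0) (lam := fun g => φ (l g))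
    (π := fun g => φ (π g)) (L := L) (k := k) hφl (by simp only [hlone, map_one]) hL0 hLanti hLcomm
    (by rw [hLk]; intro h _ a ha; exact hBn.conj_mem a ha h)
    (by intro a ha; simp only [hlL1 a ha, map_one])
    (by rw [hLk]; intro a ha b hb; simp only [hπ a ha b hb, map_add])
    (by rw [hLk]; intro h hh a ha; simp only [hl h (hH0m hh) a ha, map_mul])
    (by rw [hLk]; intro a ha; simp only [hlB a ha, map_one])
    (z := h0 ^ n) hnH0
    (by intro h1; apply hnorm; rw [h1, norm_one])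
  rw [hLk] at hbB
  refine hG.not_affine hH0f (lam := fun g => φ (l g)) (b := b) hφl ?_ hb (p := b0)
    (t := h0 ^ n) (hBH0 hb0) ?_ ?_ hnH0 hnorm
  · intro g hg h1
    have := (map_eq_zero φ).mp h1
    exact hcne g _ (hl g (hH0m hg)) this
  · simp only [hlB b0 hb0, map_one]
  · rw [hbB b0 hb0]
    intro h1
    exact hb0' ((map_eq_zero φ).mp h1)

end Pool.Agent.LHF
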