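import Pool.Agent.LHF.BNS2

set_option autoImplicit false
set_option linter.unusedSectionVars false
set_option linter.unusedVariables false
set_option linter.style.haveILetI false

namespace Pool.Agent.LHF

open scoped commutatorElement

variable {G : Type*} [Group G]

/-- `p` is reachable from `1` by a path of drop at most `d` -/
def Dr (T : Set G) (P : Subgroup G) (χ : G → ℝ) (d : ℝ) (p : G) : Prop :=
  Conn T {z | z ∈ P ∧ -d ≤ χ z} 1 p

section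
variable {T : Set G} {P : Subgroup G} {χ : G → ℝ}
  (hχ : ∀ a ∈ P, ∀ b ∈ P, χ (a * b) = χ a + χ b)
  (hsym : ∀ s ∈ T, s⁻¹ ∈ T) (hcl : Subgroup.closure T = P)

include hχ in
lemma chi_one : χ 1 = 0 := by
  have := hχ 1 P.one_mem 1 P.one_mem
  rw [mul_one] at this; linarith

include hχ in
lemma chi_inv {a : G} (ha : a ∈ P) : χ a⁻¹ = - χ a := by
  have := hχ a ha a⁻¹ (P.inv_mem ha)
  rw [mul_inv_cancel, chi_one hχ] at this
  linarith

include hχ in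
lemma chi_pow {a : G} (ha : a ∈ P) (n : ℕ) : χ (a ^ n) = n * χ a := by
  induction n with
  | zero => simp [chi_one hχ]
  | succ n ih => rw [pow_succ, hχ _ (P.pow_mem ha n) a ha, ih]; push_cast; ring

lemma Dr.mono {d d' : ℝ} {p : G} (h : Dr T P χ d p) (hd : d ≤ d') : Dr T P χ d' p :=
  Conn.mono (fun z hz => ⟨hz.1, by have := hz.2; linarith⟩) h

lemma Dr.one (d : ℝ) : Dr T P χ d 1 := Conn.refl 1

include hχ in
lemma Dr.mul {d d' e : ℝ} {p q : G} (hp : p ∈ P) (h : Dr T P χ d p) (h' : Dr T P χ d' q)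
    (h1 : d ≤ e) (h2 : d' - χ p ≤ e) : Dr T P χ e (p * q) := by
  refine (h.mono h1).trans ?_
  have := h'.translate (A' := {z | z ∈ P ∧ -e ≤ χ z}) p (by
    rintro z ⟨hz, hzd⟩
    refine ⟨P.mul_mem hp hz, ?_⟩
    rw [hχ p hp z hz]; linarith)
  rwa [mul_one] at this

include hχ hsym in
lemma Dr.inv {d e : ℝ} {p : G} (hp : p ∈ P) (h : Dr T P χ d p) (he : d + χ p ≤ e) :
    Dr T P χ e p⁻¹ := by
  have h1 := (h.symm hsym).translate (A' := {z | z ∈ P ∧ -e ≤ χ z}) p⁻¹ (by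
    rintro z ⟨hz, hzd⟩
    refine ⟨P.mul_mem (P.inv_mem hp) hz, ?_⟩
    rw [hχ _ (P.inv_mem hp) z hz, chi_inv hχ hp]; linarith)
  rwa [inv_mul_cancel, mul_one] at h1

include hsym hcl in
lemma Dr.exists (χ : G → ℝ) {p : G} (hp : p ∈ P) : ∃ d : ℝ, 0 ≤ d ∧ Dr T P χ d p := by
  obtain ⟨F, hF, hFP, hc⟩ := (conn_of_closure hsym hcl P.one_mem hp).finite_support
  obtain ⟨b, hb⟩ := (hF.image χ).bddBelow
  refine ⟨|b|, abs_nonneg _, hc.mono fun z hz => ⟨hFP hz, ?_⟩⟩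
  have := hb (Set.mem_image_of_mem χ hz)
  have := neg_abs_le b
  linarith

include hχ hsym hcl in
lemma Dr.conj (hTfin : T.Finite) {γ : G} (hγ : ∀ p ∈ P, γ * p * γ⁻¹ ∈ P)
    (hinv : ∀ p ∈ P, χ (γ * p * γ⁻¹) = χ p) :
    ∃ κ : ℝ, 0 ≤ κ ∧ ∀ d p, Dr T P χ d p → Dr T P χ (d + κ) (γ * p * γ⁻¹) := by
  have hTP : T ⊆ P := by rw [← hcl]; exact Subgroup.subset_closure
  have h1 : ∃ κ : ℝ, 0 ≤ κ ∧ ∀ s ∈ T, Dr T P χ κ (γ * s * γ⁻¹) := by
    have h2 : ∀ s ∈ T, ∃ κ : ℝ, 0 ≤ κ ∧ Dr T P χ κ (γ * s * γ⁻¹) := fun s hs =>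
      Dr.exists hsym hcl χ (hγ s (hTP hs))
    choose! f hf0 hf using h2
    obtain ⟨b, hb⟩ := (hTfin.image f).bddAbove
    refine ⟨|b|, abs_nonneg _, fun s hs => (hf s hs).mono ?_⟩
    exact (hb (Set.mem_image_of_mem f hs)).trans (le_abs_self b)
  obtain ⟨κ, hκ0, hκ⟩ := h1
  refine ⟨κ, hκ0, fun d p hp => ?_⟩
  unfold Dr Conn at hp
  induction hp with
  | refl => rw [mul_one, mul_inv_cancel]; exact Dr.one _
  | tail _ h2 ih =>
    rename_i b c _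
    obtain ⟨⟨hb, hbd⟩, ⟨hc, hcd⟩, hs⟩ := h2
    refine Conn.trans ih ?_
    have h3 := (hκ _ hs).translate (A' := {z | z ∈ P ∧ -(d + κ) ≤ χ z}) (γ * b * γ⁻¹) (by
      rintro z ⟨hz, hzd⟩
      refine ⟨P.mul_mem (hγ b hb) hz, ?_⟩
      rw [hχ _ (hγ b hb) z hz, hinv b hb]; linarith)
    have e1 : γ * b * γ⁻¹ * (γ * (b⁻¹ * c) * γ⁻¹) = γ * c * γ⁻¹ := by group
    rwa [mul_one, e1] at h3

lemma Dr.conj_pow {γ : G} {κ : ℝ}
    (hκ : ∀ d p, Dr T P χ d p → Dr T P χ (d + κ) (γ * p * γ⁻¹)) (n : ℕ) {d : ℝ} {p : G}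
    (h : Dr T P χ d p) : Dr T P χ (d + n * κ) (γ ^ n * p * (γ ^ n)⁻¹) := by
  induction n with
  | zero => simpa using h
  | succ n ih =>
    have h1 := hκ _ _ ih
    have e1 : γ * (γ ^ n * p * (γ ^ n)⁻¹) * γ⁻¹ = γ ^ (n + 1) * p * (γ ^ (n + 1))⁻¹ := by
      rw [pow_succ']; group
    rw [e1] at h1
    convert h1 using 1
    push_cast; ring

/-- **The commutator trick.** -/
theorem good_of_commutator (hTfin : T.Finite) (hsym : ∀ s ∈ T, s⁻¹ ∈ T)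
    (hcl : Subgroup.closure T = P)
    (hχ : ∀ a ∈ P, ∀ b ∈ P, χ (a * b) = χ a + χ b)
    {Γ : Subgroup G} (hΓ : ∀ γ ∈ Γ, ∀ p ∈ P, γ * p * γ⁻¹ ∈ P)
    (hinv : ∀ γ ∈ Γ, ∀ p ∈ P, χ (γ * p * γ⁻¹) = χ p) {x y : G} (hx : x ∈ Γ) (hy : y ∈ Γ)
    (hxy : ⁅x, y⁆ ∈ P) (hneg : χ ⁅x, y⁆ < 0) : Good P χ {p | p ∈ P ∧ χ p = 0} := by
  have hTP : T ⊆ P := by rw [← hcl]; exact Subgroup.subset_closure
  set c : G := ⁅x, y⁆ with hc
  set a : ℝ := -χ c with ha
  have ha0 : 0 < a := by linarith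
  obtain ⟨κ1, hκ10, hκ1⟩ := Dr.conj hχ hsym hcl hTfin (hΓ x hx) (hinv x hx)
  obtain ⟨κ2, hκ20, hκ2⟩ := Dr.conj hχ hsym hcl hTfin (hΓ y hy) (hinv y hy)
  obtain ⟨κ3, hκ30, hκ3⟩ := Dr.conj hχ hsym hcl hTfin (hΓ x⁻¹ (Γ.inv_mem hx))
    (hinv x⁻¹ (Γ.inv_mem hx))
  obtain ⟨κ4, hκ40, hκ4⟩ := Dr.conj hχ hsym hcl hTfin (hΓ y⁻¹ (Γ.inv_mem hy))
    (hinv y⁻¹ (Γ.inv_mem hy))
  obtain ⟨d0, hd00, hd0⟩ := Dr.exists hsym hcl χ hxy
  obtain ⟨dt, hdt0, hdt⟩ := Dr.exists hsym hcl χ (P.inv_mem hxy)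
  set t : G := c⁻¹ with ht
  have htP : t ∈ P := P.inv_mem hxy
  have hχt : χ t = a := by rw [ht, chi_inv hχ hxy]
  -- u n = ⁅x^n, y⁆
  have hu : ∀ n : ℕ, ⁅x ^ n, y⁆ ∈ P ∧ χ ⁅x ^ n, y⁆ = -(n * a) ∧
      Dr T P χ (n * a + (d0 + n * κ1)) ⁅x ^ n, y⁆ := by
    intro n
    induction n with
    | zero =>
      have e1 : ⁅x ^ 0, y⁆ = 1 := by simp [commutatorElement_def]
      rw [e1]
      refine ⟨P.one_mem, ?_, Dr.one _⟩
      rw [chi_one hχ]; simp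
    | succ n ih =>
      obtain ⟨ih1, ih2, ih3⟩ := ih
      have e1 : ⁅x ^ (n + 1), y⁆ = x * ⁅x ^ n, y⁆ * x⁻¹ * c := by
        simp only [hc, commutatorElement_def, pow_succ']; group
      have hP1 := hΓ x hx _ ih1
      have hχ1 := hinv x hx _ ih1
      rw [e1]
      refine ⟨P.mul_mem hP1 hxy, ?_, ?_⟩
      · rw [hχ _ hP1 c hxy, hχ1, ih2]; push_cast; linarith
      · apply Dr.mul hχ hP1 (hκ1 _ _ ih3) hd0
        · push_cast; linarith
        · rw [hχ1, ih2]; push_cast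
          have : 0 ≤ (n : ℝ) * κ1 := by positivity
          linarith
  have hw : ∀ n m : ℕ, ⁅x ^ n, y ^ m⁆ ∈ P ∧ χ ⁅x ^ n, y ^ m⁆ = -(m * (n * a)) ∧
      Dr T P χ (m * (n * a) + (d0 + n * κ1 + m * κ2)) ⁅x ^ n, y ^ m⁆ := by
    intro n m
    obtain ⟨hu1, hu2, hu3⟩ := hu n
    induction m with
    | zero =>
      have e1 : ⁅x ^ n, y ^ 0⁆ = 1 := by simp [commutatorElement_def]
      rw [e1]
      refine ⟨P.one_mem, ?_, Dr.one _⟩
      rw [chi_one hχ]; simp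
    | succ m ih =>
      obtain ⟨ih1, ih2, ih3⟩ := ih
      have e1 : ⁅x ^ n, y ^ (m + 1)⁆ = ⁅x ^ n, y ^ m⁆ * (y ^ m * ⁅x ^ n, y⁆ * (y ^ m)⁻¹) := by
        simp only [commutatorElement_def, pow_succ]; group
      have hP1 := hΓ (y ^ m) (Γ.pow_mem hy m) _ hu1
      have hχ1 := hinv (y ^ m) (Γ.pow_mem hy m) _ hu1
      have hd1 := Dr.conj_pow hκ2 m hu3
      rw [e1]
      refine ⟨P.mul_mem ih1 hP1, ?_, ?_⟩
      · rw [hχ _ ih1 _ hP1, hχ1, ih2, hu2]; push_cast; linarith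
      · apply Dr.mul hχ ih1 ih3 hd1
        · push_cast
          have : 0 ≤ (n : ℝ) * a := by positivity
          linarith
        · rw [ih2]; push_cast
          linarith
  have htN : ∀ N : ℕ, Dr T P χ dt (t ^ N) := by
    intro N
    induction N with
    | zero => rw [pow_zero]; exact Dr.one _
    | succ N ih =>
      rw [pow_succ]
      apply Dr.mul hχ (P.pow_mem htP N) ih hdt le_rfl
      rw [chi_pow hχ htP, hχt]
      have : 0 ≤ (N : ℝ) * a := by positivity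
      linarith
  set C : ℝ := κ1 + κ2 + κ3 + κ4 + 1 with hC
  set D0 : ℝ := d0 + dt with hD0
  -- k n
  have hk : ∀ n : ℕ, t ^ (n ^ 2) * ⁅x ^ n, y ^ n⁆ ∈ P ∧ χ (t ^ (n ^ 2) * ⁅x ^ n, y ^ n⁆) = 0 ∧
      Dr T P χ (D0 + n * C) (t ^ (n ^ 2) * ⁅x ^ n, y ^ n⁆) := by
    intro n
    obtain ⟨h1, h2, h3⟩ := hw n n
    have h4 := P.pow_mem htP (n ^ 2)
    have h5 : χ (t ^ (n ^ 2)) = n ^ 2 * a := by rw [chi_pow hχ htP, hχt]; push_cast; ring
    have hn : (0 : ℝ) ≤ n := Nat.cast_nonneg n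
    refine ⟨P.mul_mem h4 h1, ?_, ?_⟩
    · rw [hχ _ h4 _ h1, h5, h2]; ring
    · apply Dr.mul hχ h4 (htN _) h3
      · rw [hD0, hC]
        have : 0 ≤ (n : ℝ) * (κ1 + κ2 + κ3 + κ4 + 1) := by positivity
        linarith
      · rw [h5, hD0, hC]
        have : 0 ≤ (n : ℝ) * (κ3 + κ4 + 1) := by positivity
        nlinarith
  refine ⟨T, hTfin, hTP, dt + D0 + C ^ 2 / a, ?_⟩
  rintro p ⟨hp, hp0⟩
  obtain ⟨d, hd0', hd⟩ := Dr.exists hsym hcl χ hp
  have hCpos : 0 < C := by positivity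
  obtain ⟨n, hn⟩ := exists_nat_gt (d / C)
  rw [div_lt_iff₀ hCpos] at hn
  obtain ⟨hk1, hk2, hk3⟩ := hk n
  set w : G := ⁅x ^ n, y ^ n⁆ with hwdef
  obtain ⟨hw1, hw2, -⟩ := hw n n
  rw [← hwdef] at hw1 hw2
  set k : G := t ^ (n ^ 2) * w with hkdef
  have hpn : Dr T P χ (D0 + n * C) p := hd.mono (by
    have : 0 ≤ D0 := by positivity
    linarith)
  have hkinv : Dr T P χ (D0 + n * C) k⁻¹ := Dr.inv hχ hsym hk1 hk3 (by rw [hk2]; linarith)
  have hkinv0 : χ k⁻¹ = 0 := by rw [chi_inv hχ hk1, hk2, neg_zero]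
  have hp1 : Dr T P χ (D0 + n * C) (k⁻¹ * p) :=
    Dr.mul hχ (P.inv_mem hk1) hkinv hpn le_rfl (by rw [hkinv0]; linarith)
  have hp1' : χ (k⁻¹ * p) = 0 := by rw [hχ _ (P.inv_mem hk1) _ hp, hkinv0, hp0, add_zero]
  have hp2 : Dr T P χ (D0 + n * C) (k⁻¹ * p * k) :=
    Dr.mul hχ (P.mul_mem (P.inv_mem hk1) hp) hp1 hk3 le_rfl (by rw [hp1']; linarith)
  have hp2P : k⁻¹ * p * k ∈ P := P.mul_mem (P.mul_mem (P.inv_mem hk1) hp) hk1
  have hp2' : χ (k⁻¹ * p * k) = 0 := by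
    rw [hχ _ (P.mul_mem (P.inv_mem hk1) hp) _ hk1, hp1', hk2, add_zero]
  have hq : Dr T P χ (D0 + 2 * (n * C)) (w * (k⁻¹ * p * k) * w⁻¹) := by
    have h1 := Dr.conj_pow hκ4 n hp2
    have h2 := Dr.conj_pow hκ3 n h1
    have h3 := Dr.conj_pow hκ2 n h2
    have h4 := Dr.conj_pow hκ1 n h3
    have e1 : x ^ n * (y ^ n * (x⁻¹ ^ n * (y⁻¹ ^ n * (k⁻¹ * p * k) * (y⁻¹ ^ n)⁻¹) *
        (x⁻¹ ^ n)⁻¹) * (y ^ n)⁻¹) * (x ^ n)⁻¹ = w * (k⁻¹ * p * k) * w⁻¹ := by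
      rw [hwdef, commutatorElement_def]
      simp only [inv_pow, inv_inv, mul_inv_rev]
      group
    rw [e1] at h4
    refine h4.mono ?_
    rw [hC]
    have : (0 : ℝ) ≤ n := Nat.cast_nonneg n
    linarith
  have hqP : w * (k⁻¹ * p * k) * w⁻¹ ∈ P := P.mul_mem (P.mul_mem hw1 hp2P) (P.inv_mem hw1)
  have hq0 : χ (w * (k⁻¹ * p * k) * w⁻¹) = 0 := by
    rw [hχ _ (P.mul_mem hw1 hp2P) _ (P.inv_mem hw1), hχ _ hw1 _ hp2P, hp2', chi_inv hχ hw1]
    ring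
  have htn := P.pow_mem htP (n ^ 2)
  have hχtn : χ (t ^ (n ^ 2)) = n ^ 2 * a := by rw [chi_pow hχ htP, hχt]; push_cast; ring
  have hsq : D0 + 2 * (n * C) - n ^ 2 * a ≤ dt + D0 + C ^ 2 / a := by
    have h1 : 2 * (n * C) - n ^ 2 * a ≤ C ^ 2 / a := by
      rw [le_div_iff₀ ha0]
      nlinarith [sq_nonneg ((n : ℝ) * a - C)]
    linarith
  have h1 : Dr T P χ (dt + D0 + C ^ 2 / a) (t ^ (n ^ 2) * (w * (k⁻¹ * p * k) * w⁻¹)) := by
    apply Dr.mul hχ htn (htN _) hq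
    · have : 0 ≤ C ^ 2 / a := by positivity
      have : 0 ≤ D0 := by positivity
      linarith
    · rw [hχtn]; exact hsq
  have h2 : Dr T P χ (dt + n ^ 2 * a) (t ^ (n ^ 2))⁻¹ :=
    Dr.inv hχ hsym htn (htN _) (by rw [hχtn])
  have h3 : Dr T P χ (dt + D0 + C ^ 2 / a)
      (t ^ (n ^ 2) * (w * (k⁻¹ * p * k) * w⁻¹) * (t ^ (n ^ 2))⁻¹) := by
    apply Dr.mul hχ (P.mul_mem htn hqP) h1 h2 le_rfl
    rw [hχ _ htn _ hqP, hq0, hχtn]
    have : 0 ≤ C ^ 2 / a := by positivity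
    have : 0 ≤ D0 := by positivity
    linarith
  have e2 : t ^ (n ^ 2) * (w * (k⁻¹ * p * k) * w⁻¹) * (t ^ (n ^ 2))⁻¹ = p := by
    rw [hkdef]; group
  rw [e2] at h3
  exact h3

end

lemma exists_sym_gen {P : Subgroup G} (hP : P.FG) :
    ∃ T : Set G, T.Finite ∧ (∀ s ∈ T, s⁻¹ ∈ T) ∧ Subgroup.closure T = P := by
  obtain ⟨T1, hT1, hT1f⟩ := (Subgroup.fg_iff _).mp hP
  refine ⟨T1 ∪ (fun x => x⁻¹) '' T1, hT1f.union (hT1f.image _), ?_, ?_⟩
  · rintro s (hs | ⟨s, hs, rfl⟩)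
    · exact Or.inr ⟨s, hs, rfl⟩
    · simp only [inv_inv]; exact Or.inl hs
  · apply le_antisymm
    · rw [Subgroup.closure_le, ← hT1]
      rintro s (hs | ⟨s, hs, rfl⟩)
      · exact Subgroup.subset_closure hs
      · exact Subgroup.inv_mem _ (Subgroup.subset_closure hs)
    · rw [← hT1]; exact Subgroup.closure_mono Set.subset_union_left

/-- If `H` and `[H, H]` are finitely generated then so are all terms of the lower central
series of `H`. -/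
theorem lcs_fg (H : Subgroup G) (h1 : (H.lowerCentralSeries 1).FG) (k : ℕ) (hk : 1 ≤ k) :
    (H.lowerCentralSeries k).FG := by
  induction k, hk using Nat.le_induction with
  | base => exact h1
  | succ k hk ih =>
    obtain ⟨m, rfl⟩ : ∃ m, k = m + 1 := ⟨k - 1, by omega⟩
    obtain ⟨T, hTfin, hsym, hcl⟩ := exists_sym_gen ih
    have hle : H.lowerCentralSeries (m + 1) ≤ H := H.lowerCentralSeries_le_self _
    have hcomm : ∀ γ ∈ H, ∀ p ∈ H.lowerCentralSeries (m + 1),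
        ⁅γ, p⁆ ∈ H.lowerCentralSeries (m + 1 + 1) := by
      intro γ hγ p hp
      rw [H.lowerCentralSeries_succ, Subgroup.commutator_comm]
      exact Subgroup.commutator_mem_commutator hγ hp
    have hanti : H.lowerCentralSeries (m + 1 + 1) ≤ H.lowerCentralSeries (m + 1) :=
      H.lowerCentralSeries_antitone (Nat.le_succ _)
    apply bns ih hanti
    · rw [H.lowerCentralSeries_succ (m + 1)]
      exact Subgroup.commutator_mono le_rfl hle
    · intro χ hχ hker hne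
      have hconj : ∀ γ ∈ H, ∀ p ∈ H.lowerCentralSeries (m + 1),
          γ * p * γ⁻¹ = ⁅γ, p⁆ * p := by
        intro γ _ p _; simp [commutatorElement_def]
      have hΓ : ∀ γ ∈ H, ∀ p ∈ H.lowerCentralSeries (m + 1),
          γ * p * γ⁻¹ ∈ H.lowerCentralSeries (m + 1) := by
        intro γ hγ p hp
        rw [hconj γ hγ p hp]
        exact Subgroup.mul_mem _ (hanti (hcomm γ hγ p hp)) hp
      have hinv : ∀ γ ∈ H, ∀ p ∈ H.lowerCentralSeries (m + 1),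
          χ (γ * p * γ⁻¹) = χ p := by
        intro γ hγ p hp
        rw [hconj γ hγ p hp, hχ _ (hanti (hcomm γ hγ p hp)) _ hp, hker _ (hcomm γ hγ p hp),
          zero_add]
      -- some commutator has non-zero image
      obtain ⟨x, hx, y, hy, hxy⟩ : ∃ x ∈ H, ∃ y ∈ H, ⁅x, y⁆ ∈ H.lowerCentralSeries (m + 1) ∧
          χ ⁅x, y⁆ ≠ 0 := by
        by_contra hcon
        push Not at hcon
        obtain ⟨t, ht, htne⟩ := hne
        apply htne
        have hsub : H.lowerCentralSeries (m + 1) =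
            Subgroup.closure {z | ∃ p ∈ H.lowerCentralSeries m, ∃ q ∈ H, ⁅p, q⁆ = z} := by
          ext z; exact H.mem_lowerCentralSeries_succ_iff m z
        have key : ∀ z ∈ Subgroup.closure
            {z | ∃ p ∈ H.lowerCentralSeries m, ∃ q ∈ H, ⁅p, q⁆ = z}, χ z = 0 := by
          intro z hz
          induction hz using Subgroup.closure_induction with
          | mem z hz =>
            obtain ⟨p, hp, q, hq, rfl⟩ := hz
            apply hcon p (H.lowerCentralSeries_le_self m hp) q hq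
            rw [hsub]; exact Subgroup.subset_closure ⟨p, hp, q, hq, rfl⟩
          | one => exact chi_one hχ
          | mul a b ha hb iha ihb =>
            rw [hχ a (by rw [hsub]; exact ha) b (by rw [hsub]; exact hb), iha, ihb, add_zero]
          | inv a ha iha =>
            rw [chi_inv hχ (by rw [hsub]; exact ha), iha, neg_zero]
        exact key t (by rw [← hsub]; exact ht)
      obtain ⟨hxyP, hxyne⟩ := hxy
      have hgood : Good (H.lowerCentralSeries (m + 1)) χ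
          {p | p ∈ H.lowerCentralSeries (m + 1) ∧ χ p = 0} := by
        rcases lt_or_gt_of_ne hxyne with hlt | hgt
        · exact good_of_commutator hTfin hsym hcl hχ hΓ hinv hx hy hxyP hlt
        · have e1 : ⁅y, x⁆ = ⁅x, y⁆⁻¹ := (commutatorElement_inv x y).symm
          refine good_of_commutator hTfin hsym hcl hχ hΓ hinv hy hx ?_ ?_
          · rw [e1]; exact Subgroup.inv_mem _ hxyP
          · rw [e1, chi_inv hχ hxyP]; linarith
      obtain ⟨T', hT'f, hT'P, D, hD⟩ := hgood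
      refine ⟨T', hT'f, hT'P, D, fun p hp => ?_⟩
      have hp' : p ∈ H.lowerCentralSeries (m + 1 + 1) := by
        rw [H.lowerCentralSeries_succ (m + 1)]
        exact Subgroup.commutator_mono le_rfl hle hp
      exact hD p ⟨hanti hp', hker p hp'⟩

end Pool.Agent.LHF
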