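import Pool.Agent.LHF.Eigen

set_option autoImplicit false
set_option linter.unusedSectionVars false
set_option linter.unusedVariables false
set_option linter.style.haveILetI false

namespace Pool.Agent.LHF

open scoped commutatorElement

variable {G : Type*} [Group G]

/-- `G/N` is virtually nilpotent -/
def VNm (N : Subgroup G) : Prop :=
  ∃ F : Subgroup G, F.FiniteIndex ∧ ∃ k : ℕ, F.lowerCentralSeries k ≤ N

lemma VNm.mono {N N' : Subgroup G} (h : VNm N) (hN : N ≤ N') : VNm N' := by
  obtain ⟨F, hF, k, hk⟩ := h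
  exact ⟨F, hF, k, hk.trans hN⟩

lemma VNm.of_le {F F' : Subgroup G} {k : ℕ} (hF' : F'.FiniteIndex) (h : F' ≤ F)
    {N : Subgroup G} (hk : F.lowerCentralSeries k ≤ N) : VNm N :=
  ⟨F', hF', k, (Subgroup.lowerCentralSeries_mono k h).trans hk⟩

/-- a normal witness -/
lemma VNm.exists_normal {N : Subgroup G} (h : VNm N) :
    ∃ F : Subgroup G, F.Normal ∧ F.FiniteIndex ∧ ∃ k : ℕ, F.lowerCentralSeries k ≤ N := by
  obtain ⟨F, hF, k, hk⟩ := h
  haveI := hF
  exact ⟨F.normalCore, inferInstance, inferInstance, k,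
    (Subgroup.lowerCentralSeries_mono k F.normalCore_le).trans hk⟩

/-- step in which the terms `⁅M, C⁆ ≤ M2` for a finite-index subgroup `C` -/
lemma VNm.of_centralize {M M2 C : Subgroup G} (h : VNm M) (hC : C.FiniteIndex)
    (hMC : ∀ m ∈ M, ∀ c ∈ C, ⁅m, c⁆ ∈ M2) : VNm M2 := by
  obtain ⟨F, hF, k, hk⟩ := h
  haveI := hF
  haveI := hC
  refine ⟨F ⊓ C, inferInstance, k + 1, ?_⟩
  rw [Subgroup.lowerCentralSeries_succ, Subgroup.commutator_le]
  intro m hm c hc
  exact hMC m (hk (Subgroup.lowerCentralSeries_mono k inf_le_left hm)) c hc.2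

/-- finite-by-(virtually nilpotent) is virtually nilpotent -/
lemma VNm.of_finite_ext {M M2 : Subgroup G} (h : VNm M) (hM : M.Normal) (hM2 : M2.Normal)
    (hle : M2 ≤ M) (hfin : M2.relIndex M ≠ 0) : VNm M2 := by
  classical
  haveI : (M2.subgroupOf M).FiniteIndex := ⟨hfin⟩
  haveI : Finite (M ⧸ M2.subgroupOf M) := Subgroup.finite_quotient_of_finiteIndex
  let C : Subgroup G :=
    { carrier := {z | ∀ m ∈ M, m⁻¹ * z * m * z⁻¹ ∈ M2}
      one_mem' := by intro m _; simpa using M2.one_mem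
      mul_mem' := by
        intro z z' hz hz' m hm
        have h1 := hz m hm
        have h2 := hM2.conj_mem _ (hz' m hm) z
        have := M2.mul_mem h1 h2
        have e : m⁻¹ * z * m * z⁻¹ * (z * (m⁻¹ * z' * m * z'⁻¹) * z⁻¹) =
          m⁻¹ * (z * z') * m * (z * z')⁻¹ := by group
        rwa [e] at this
      inv_mem' := by
        intro z hz m hm
        have h1 := M2.inv_mem (hz m hm)
        have h2 := hM2.conj_mem _ h1 z⁻¹
        have e : z⁻¹ * (m⁻¹ * z * m * z⁻¹)⁻¹ * z⁻¹⁻¹ = m⁻¹ * z⁻¹ * m * z⁻¹⁻¹ := by group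
        rwa [e] at h2 }
  have hCmem : ∀ z, z ∈ C ↔ ∀ m ∈ M, m⁻¹ * z * m * z⁻¹ ∈ M2 := fun z => Iff.rfl
  have hC : C.FiniteIndex := by
    set f : G → ((M ⧸ M2.subgroupOf M) → (M ⧸ M2.subgroupOf M)) := fun g q =>
      QuotientGroup.mk ⟨g * (Quotient.out q : M) * g⁻¹, hM.conj_mem _ (Quotient.out q).2 g⟩ with hf
    apply finiteIndex_of_finite_image (F := ⊤) inferInstance f (Set.toFinite _)
    intro x _ y _ hxy
    rw [hCmem]
    intro m hm
    -- representative
    set q : M ⧸ M2.subgroupOf M := QuotientGroup.mk ⟨m, hm⟩ with hq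
    set o : M := Quotient.out q with ho
    have hoq : (QuotientGroup.mk o : M ⧸ M2.subgroupOf M) = q := Quotient.out_eq' q
    have hn : (o : G)⁻¹ * m ∈ M2 := by
      have := QuotientGroup.eq.mp hoq
      rw [Subgroup.mem_subgroupOf] at this
      exact this
    have h1 := congrFun hxy q
    simp only [hf] at h1
    rw [QuotientGroup.eq, Subgroup.mem_subgroupOf] at h1
    have h2 : (x * (o : G) * x⁻¹)⁻¹ * (y * (o : G) * y⁻¹) ∈ M2 := h1
    have h3 := hM2.conj_mem _ h2 x⁻¹
    have h4 := M2.mul_mem (M2.mul_mem (M2.inv_mem hn) h3)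
      (hM2.conj_mem _ hn (x⁻¹ * y))
    have e : ((o : G)⁻¹ * m)⁻¹ * (x⁻¹ * ((x * (o : G) * x⁻¹)⁻¹ * (y * (o : G) * y⁻¹)) * x⁻¹⁻¹) *
        (x⁻¹ * y * ((o : G)⁻¹ * m) * (x⁻¹ * y)⁻¹) = m⁻¹ * (x⁻¹ * y) * m * (x⁻¹ * y)⁻¹ := by group
    rwa [e] at h4
  apply h.of_centralize hC
  intro m hm c hc
  have := hc m⁻¹ (M.inv_mem hm)
  simpa [commutatorElement_def] using this

/-- characteristic finite-index subgroups in finitely generated groups -/
lemma exists_char_finiteIndex {M : Type*} [Group M] [Group.FG M] {M1 : Subgroup M}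
    (hM1 : M1.FiniteIndex) :
    ∃ M2 : Subgroup M, M2 ≤ M1 ∧ M2.FiniteIndex ∧ ∀ (e : M ≃* M), ∀ x ∈ M2, e x ∈ M2 := by
  classical
  haveI := hM1
  haveI : Finite (M ⧸ M1) := Subgroup.finite_quotient_of_finiteIndex
  -- finitely many homomorphisms
  haveI hfin : Finite (M →* Equiv.Perm (M ⧸ M1)) := by
    obtain ⟨S, hS, hSf⟩ := Group.fg_iff.mp (inferInstance : Group.FG M)
    haveI := hSf.to_subtype
    apply Finite.of_injective (β := S → Equiv.Perm (M ⧸ M1)) (fun φ s => φ s)
    intro φ ψ h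
    apply MonoidHom.eq_of_eqOn_top
    rw [← hS]
    apply MonoidHom.eqOn_closure
    intro s hs
    exact congrFun h ⟨s, hs⟩
  refine ⟨⨅ φ : M →* Equiv.Perm (M ⧸ M1), φ.ker, ?_, ?_, ?_⟩
  · refine (iInf_le _ (MulAction.toPermHom M (M ⧸ M1))).trans ?_
    rw [← Subgroup.normalCore_eq_ker]
    exact M1.normalCore_le
  · exact Subgroup.finiteIndex_iInf fun φ => inferInstance
  · intro e x hx
    rw [Subgroup.mem_iInf] at hx ⊢
    intro φ
    exact hx (φ.comp e.toMonoidHom)

lemma exists_normal_finite_relIndex {M M1 : Subgroup G} (hM : M.Normal) (hMfg : M.FG)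
    (hfin : M1.relIndex M ≠ 0) :
    ∃ M2 : Subgroup G, M2.Normal ∧ M2 ≤ M1 ∧ M2 ≤ M ∧ M2.relIndex M ≠ 0 := by
  haveI : Group.FG M := (Group.fg_iff_subgroup_fg M).mpr hMfg
  obtain ⟨N, hN1, hN2, hN3⟩ := exists_char_finiteIndex (M := M) (M1 := M1.subgroupOf M) ⟨hfin⟩
  refine ⟨N.map M.subtype, ⟨?_⟩, ?_, ?_, ?_⟩
  · rintro _ ⟨x, hx, rfl⟩ g
    refine ⟨MulAut.conjNormal g x, hN3 _ x hx, ?_⟩
    simp
  · rintro _ ⟨x, hx, rfl⟩
    exact hN1 hx
  · rintro _ ⟨x, hx, rfl⟩
    exact x.2
  · have : (N.map M.subtype).subgroupOf M = N := by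
      ext x
      rw [Subgroup.mem_subgroupOf]
      constructor
      · rintro ⟨y, hy, hxy⟩
        have : y = x := Subtype.ext hxy
        rwa [← this]
      · intro hx; exact ⟨x, hx, rfl⟩
    show ((N.map M.subtype).subgroupOf M).index ≠ 0
    rw [this]
    exact hN2.index_ne_zero

/-- subgroups of finitely generated abelian quotients -/
lemma noeth_step {P N D : Subgroup G} (hP : P.FG) (hcomm : ⁅P, P⁆ ≤ N) (hNP : N ≤ P)
    (hDP : D ≤ P) : ∃ Y : Set G, Y.Finite ∧ Y ⊆ D ∧ D ≤ Subgroup.closure Y ⊔ N := by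
  classical
  have hnormal : (N.subgroupOf P).Normal := by
    constructor
    rintro ⟨n, hn⟩ hnN ⟨g, hg⟩
    rw [Subgroup.mem_subgroupOf] at hnN ⊢
    have h1 : ⁅g, n⁆ ∈ N := hcomm (Subgroup.commutator_mem_commutator hg hn)
    have h2 := N.mul_mem h1 hnN
    simpa [commutatorElement_def] using h2
  haveI := hnormal
  letI : CommGroup (P ⧸ N.subgroupOf P) :=
    { (inferInstance : Group (P ⧸ N.subgroupOf P)) with
      mul_comm := by
        intro a b
        induction a using QuotientGroup.induction_on with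
        | H a =>
          induction b using QuotientGroup.induction_on with
          | H b =>
            rw [← QuotientGroup.mk_mul, ← QuotientGroup.mk_mul, QuotientGroup.eq,
              Subgroup.mem_subgroupOf]
            have h1 : ⁅(b : G)⁻¹, (a : G)⁻¹⁆ ∈ N :=
              hcomm (Subgroup.commutator_mem_commutator (P.inv_mem b.2) (P.inv_mem a.2))
            have e1 : ((a * b)⁻¹ * (b * a) : P).1 = ⁅(b : G)⁻¹, (a : G)⁻¹⁆ := by
              simp [commutatorElement_def, mul_assoc]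
            rw [e1]; exact h1 }
  haveI : Group.FG P := (Group.fg_iff_subgroup_fg P).mpr hP
  haveI : Group.FG (P ⧸ N.subgroupOf P) := Group.fg_of_surjective
    (f := QuotientGroup.mk' (N.subgroupOf P)) (QuotientGroup.mk'_surjective _)
  haveI : AddGroup.FG (Additive (P ⧸ N.subgroupOf P)) := inferInstance
  haveI : Module.Finite ℤ (Additive (P ⧸ N.subgroupOf P)) := Module.Finite.iff_addGroup_fg.mpr this
  set Db : Subgroup (P ⧸ N.subgroupOf P) :=
    (D.subgroupOf P).map (QuotientGroup.mk' (N.subgroupOf P)) with hDb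
  have hDbfg : Db.FG := by
    rw [Subgroup.fg_iff_add_fg]
    have h1 : (AddSubgroup.toIntSubmodule (Subgroup.toAddSubgroup Db)).FG :=
      IsNoetherian.noetherian _
    rwa [Submodule.fg_iff_addSubgroup_fg] at h1
  obtain ⟨S, hS, hSf⟩ := (Subgroup.fg_iff _).mp hDbfg
  have hlift : ∀ s ∈ S, ∃ y : P, (y : G) ∈ D ∧ (QuotientGroup.mk y : P ⧸ N.subgroupOf P) = s := by
    intro s hs
    have : s ∈ Db := by rw [← hS]; exact Subgroup.subset_closure hs
    obtain ⟨y, hy, rfl⟩ := this
    exact ⟨y, hy, rfl⟩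
  choose! y hyD hyS using hlift
  refine ⟨(fun s => (y s : G)) '' S, hSf.image _, ?_, ?_⟩
  · rintro _ ⟨s, hs, rfl⟩
    exact hyD s hs
  · intro d hd
    have h1 : (QuotientGroup.mk (⟨d, hDP hd⟩ : P) : P ⧸ N.subgroupOf P) ∈ Db :=
      ⟨⟨d, hDP hd⟩, hd, rfl⟩
    rw [← hS] at h1
    have h2 : Subgroup.closure S =
        (Subgroup.closure (y '' S)).map (QuotientGroup.mk' (N.subgroupOf P)) := by
      rw [MonoidHom.map_closure]
      congr 1
      ext s
      constructor
      · intro hs; exact ⟨y s, ⟨s, hs, rfl⟩, hyS s hs⟩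
      · rintro ⟨_, ⟨s', hs', rfl⟩, rfl⟩
        have := hyS s' hs'
        rw [QuotientGroup.mk'_apply, this]; exact hs'
    rw [h2] at h1
    obtain ⟨z, hz, hz2⟩ := h1
    rw [QuotientGroup.mk'_apply, QuotientGroup.eq, Subgroup.mem_subgroupOf] at hz2
    have h3 : (z : G) ∈ Subgroup.closure ((fun s => (y s : G)) '' S) := by
      have : (Subgroup.closure (y '' S)).map P.subtype =
          Subgroup.closure ((fun s => (y s : G)) '' S) := by
        rw [MonoidHom.map_closure]
        congr 1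
        rw [Set.image_image]; rfl
      rw [← this]
      exact ⟨z, hz, rfl⟩
    have e : d = (z : G) * ((z : G)⁻¹ * d) := by group
    rw [e]
    exact Subgroup.mul_mem_sup h3 hz2

/-- extension of finite generation to finite-index overgroups -/
lemma fg_of_relIndex {C N : Subgroup G} (hCN : C ≤ N) (hC : C.FG) (hfin : C.relIndex N ≠ 0) :
    N.FG := by
  classical
  haveI : (C.subgroupOf N).FiniteIndex := ⟨hfin⟩
  haveI : Finite (N ⧸ C.subgroupOf N) := Subgroup.finite_quotient_of_finiteIndex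
  obtain ⟨S, hS, hSf⟩ := (Subgroup.fg_iff _).mp hC
  rw [Subgroup.fg_iff]
  refine ⟨S ∪ Set.range (fun q : N ⧸ C.subgroupOf N => ((Quotient.out q : N) : G)), ?_,
    hSf.union (Set.finite_range _)⟩
  apply le_antisymm
  · rw [Subgroup.closure_le]
    apply Set.union_subset
    · intro s hs
      apply hCN; rw [← hS]; exact Subgroup.subset_closure hs
    · rintro _ ⟨q, rfl⟩
      exact (Quotient.out q : N).2
  · intro x hx
    set q : N ⧸ C.subgroupOf N := QuotientGroup.mk ⟨x, hx⟩ with hq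
    have hoq : (QuotientGroup.mk (Quotient.out q : N) : N ⧸ C.subgroupOf N) = q :=
      Quotient.out_eq' q
    have h1 := QuotientGroup.eq.mp hoq
    rw [Subgroup.mem_subgroupOf] at h1
    have h2 : ((Quotient.out q : N) : G)⁻¹ * x ∈ C := h1
    have e : x = ((Quotient.out q : N) : G) * (((Quotient.out q : N) : G)⁻¹ * x) := by group
    rw [e]
    apply Subgroup.mul_mem
    · exact Subgroup.subset_closure (Or.inr ⟨q, rfl⟩)
    · have h3 : C ≤ Subgroup.closure (S ∪ Set.range (fun q : N ⧸ C.subgroupOf N =>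
          ((Quotient.out q : N) : G))) := by
        conv_lhs => rw [← hS]
        exact Subgroup.closure_mono Set.subset_union_left
      exact h3 h2

/-- noetherianity modulo the lower central series -/
lemma noeth_lcs {F : Subgroup G} (hFn : F.Normal) (hfg : ∀ i, (F.lowerCentralSeries i).FG)
    {C : Subgroup G} (hCF : C ≤ F) (i : ℕ) :
    ∃ X : Set G, X.Finite ∧ X ⊆ C ∧ C ≤ Subgroup.closure X ⊔ F.lowerCentralSeries i := by
  have hn : ∀ i, (F.lowerCentralSeries i).Normal := by
    intro i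
    induction i with
    | zero => exact hFn
    | succ i ih =>
      rw [Subgroup.lowerCentralSeries_succ]
      exact Subgroup.commutator_normal _ _
  induction i with
  | zero =>
    refine ⟨∅, Set.finite_empty, Set.empty_subset _, ?_⟩
    exact le_sup_of_le_right hCF
  | succ i ih =>
    obtain ⟨X, hXf, hXC, hX⟩ := ih
    have hle : F.lowerCentralSeries i ≤ F := F.lowerCentralSeries_le_self i
    obtain ⟨Y, hYf, hYD, hY⟩ := noeth_step (P := F.lowerCentralSeries i)
      (N := F.lowerCentralSeries (i + 1)) (D := C ⊓ F.lowerCentralSeries i) (hfg i)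
      (by rw [F.lowerCentralSeries_succ]; exact Subgroup.commutator_mono le_rfl hle)
      (F.lowerCentralSeries_antitone (Nat.le_succ i)) inf_le_right
    refine ⟨X ∪ Y, hXf.union hYf, Set.union_subset hXC (fun y hy => (hYD hy).1), ?_⟩
    intro c hc
    haveI := hn i
    obtain ⟨x, hx, g, hg, rfl⟩ := Subgroup.mem_sup_of_normal_right.mp (hX hc)
    have hxC : x ∈ C := by
      have : Subgroup.closure X ≤ C := (Subgroup.closure_le _).mpr hXC
      exact this hx
    have hgC : g ∈ C := by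
      have := C.mul_mem (C.inv_mem hxC) hc
      rwa [inv_mul_cancel_left] at this
    have h1 := hY ⟨hgC, hg⟩
    apply Subgroup.mul_mem
    · exact le_sup_left (a := Subgroup.closure (X ∪ Y))
        (Subgroup.closure_mono Set.subset_union_left hx)
    · exact sup_le_sup_right (Subgroup.closure_mono Set.subset_union_right) _ h1

/-- If all lower central terms of finite-index subgroups are finitely generated then every
subgroup `N` with `G/N` virtually nilpotent is finitely generated. -/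
theorem fg_of_VNm (hlcs : ∀ F : Subgroup G, F.Normal → F.FiniteIndex →
    ∀ i, (F.lowerCentralSeries i).FG)
    {N : Subgroup G} (hN : VNm N) : N.FG := by
  obtain ⟨F, hFn, hF, k, hk⟩ := hN.exists_normal
  haveI := hF
  obtain ⟨X, hXf, hXC, hX⟩ := noeth_lcs hFn (hlcs F hFn hF) (C := N ⊓ F) inf_le_right k
  have hC : (N ⊓ F).FG := by
    have : N ⊓ F = Subgroup.closure X ⊔ F.lowerCentralSeries k := by
      apply le_antisymm hX
      apply sup_le
      · exact (Subgroup.closure_le _).mpr hXC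
      · exact le_inf hk (F.lowerCentralSeries_le_self k)
    rw [this]
    exact Subgroup.FG.sup ((Subgroup.fg_iff _).mpr ⟨X, rfl, hXf⟩) (hlcs F hFn hF k)
  apply fg_of_relIndex inf_le_left hC
  rw [Subgroup.inf_relIndex_left]
  exact (inferInstance : (F.subgroupOf N).FiniteIndex).index_ne_zero

end Pool.Agent.LHF
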